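import Pool.Agent.N352.JB.Def

/-!
# Project PRL (helper286), extension C: the explicit 2-Selmer group is the cohomological one

Notation of `Pool/Agent/N352/JB/Def.lean` (project JB, all its statements `S_..` are proved, see
`N352/JB/All.lean`) and of `Pool/Agent/Y713/SE/Stm.lean`. `f` is monic, separable, irreducible of odd
degree over `K`, characteristic not two.
-/

set_option autoImplicit false
set_option linter.all false

open Polynomial IsDedekindDomain
open scoped Classical

namespace Run7.h286.PLC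

open Pool.Agent.Y160.SE
open Pool.Agent.TH115.GD (incl rs ak)
open Pool.Agent.N352.JB
open Pool.Agent.Y713.Jac (J mapJ Cochain IsCocycle IsCoboundary IsTrivialOver)

/-- **K3** (about 200 lines). Every `h(θ)` of square norm is the Kummer class of a cocycle.

Proof. For each root `e` choose `b(e)` with `b(e) ^ 2 = h(e)` (`Ω` is separably closed, `2 ≠ 0`). `σ(b(e)) = ± b(σ e)`; let
`ε_σ(σ e)` be this sign. `∏_e b(e)` is a square root of the norm (`S_NRM`), which is a square in `K`, so it is in `K` and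
`∏_e ε_σ(e) = 1`. There is exactly one `x` with `Tor hg x` and `chi hg e x = ε_σ(e)` for all roots `e` (`lam_surj` and the
uniqueness in `Y160/SE/ChiJ.lean`, `Kum.lean`; compare the proof of `S_KUM` in `N232/JB/KUM.lean`): `c σ`. The cocycle
relation follows from uniqueness and `chi (σ e) (σ x) = σ (chi e x)`. Locally constant: `b` takes finitely many
values. -/
def P_K3 : Prop := ∀ (K Ω : Type) [Field K] [Field Ω] [Algebra K Ω] [IsGalois K Ω]
  [IsSepClosed Ω] (f : K[X]) (hg : Good 2 (-1 : K) f), Irreducible f → Odd f.natDegree →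
  ∀ h : K[X], IsCoprime h f → IsSquare (Algebra.norm K (AdjoinRoot.mk f h)) →
  ∃ (c : (Ω ≃ₐ[K] Ω) → Jac 2 f Ω) (b : Ω → Ω), IsLocallyConstant c ∧
    (∀ σ τ, c (σ * τ) = c σ + jm 2 f (ak σ) (c τ)) ∧ (∀ σ, Tor hg (c σ)) ∧ KumD hg c h b

/-- **K4** (about 80 lines, from `S_LAG`). Cohomologous cocycles have the same Kummer class.

Proof. `γ(e) = b(e) b'(e) chi(e)(R)` is compatible with the Galois action (`chi` is a sign, additive, and
`chi (σ e) (σ R) = chi e R`), so it is `s(e)`, `s` in `K[X]` (`S_LAG`), and `s(e) ^ 2 = h(e) h'(e)`. -/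
def P_K4 : Prop := ∀ (K Ω : Type) [Field K] [Field Ω] [Algebra K Ω] [IsGalois K Ω]
  [IsSepClosed Ω] (f : K[X]) (hg : Good 2 (-1 : K) f), Irreducible f →
  ∀ (c c' : (Ω ≃ₐ[K] Ω) → Jac 2 f Ω) (h h' : K[X]) (b b' : Ω → Ω) (R : Jac 2 f Ω),
  (∀ σ, Tor hg (c σ)) → (∀ σ, Tor hg (c' σ)) → KumD hg c h b → KumD hg c' h' b' → Tor hg R →
  (∀ σ, c σ = c' σ + (jm 2 f (ak σ) R - R)) → ∃ s : K[X], f ∣ h * h' - s ^ 2

/-- **K5** (about 350 lines, the converse of `S_LOC`, compare N424/JB/Pts.lean and its `loc`). If `h(θ)` is the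
image of a point over `E`, then the cocycle becomes a coboundary over `E`.

Proof. Let `(u_i, v_i)`, `s` be as in `LocIm`, `G = ∏ u_i`, `P₀` in `J(E)` the class of the product of the ideals
`(u_i(x), y - v_i(x))` (norm `u_i`), `P` in `J(Ω')` with `2 P = P₀` (`S_DBL`). `kcJ` gives `t` with
`t(β) ^ 2 ∏_{β'} G(β') = G(β) ^ n` and `τ(t(β)) = chi(τ β)(τ P - P) t(τ β)`. `n` is odd and the norm of `(-1) ^ deg G G(θ)` is a
square (`S_LPN`), so `t(β) ^ 2 = (-1) ^ deg G G(β) r(β) ^ 2` with `r` in `E[X]`. As `h(β) (-1) ^ deg G G(β) = s(β) ^ 2`,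
`ε(β) = b(β) t(β) / (s(β) r(β))` is a sign (`b` of the root of `f` in `Ω`, `β = ι e`). If `∏ ε = -1` replace `s` by `- s` (`n` is
odd). So `ε(β) = chi(β)(R)`, `R` in `Tor`, and `P + R` (or `P - R`) works: compare `chi` of both sides. -/
def P_K5 : Prop := ∀ (K Ω E Ω' : Type) [Field K] [Field Ω] [Algebra K Ω] [IsGalois K Ω]
  [IsSepClosed Ω] [Field E] [Algebra K E] [Field Ω'] [Algebra E Ω'] [Algebra K Ω']
  [IsScalarTower K E Ω'] [IsGalois E Ω'] [IsSepClosed Ω'] (f : K[X]) (hg : Good 2 (-1 : K) f),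
  Odd f.natDegree → ∀ (c : (Ω ≃ₐ[K] Ω) → Jac 2 f Ω), (∀ σ, Tor hg (c σ)) →
  ∀ (h : K[X]) (b : Ω → Ω), IsSquare (Algebra.norm K (AdjoinRoot.mk f h)) → KumD hg c h b →
  LocIm E (f.map (algebraMap K E)) (h.map (algebraMap K E)) →
  ∀ ι : Ω →ₐ[K] Ω', ∃ P : Jac 2 f Ω',
  ∀ (τ : Ω' ≃ₐ[E] Ω') (σ : Ω ≃ₐ[K] Ω), (∀ x, τ (ι x) = ι (σ x)) →
    jm 2 f ι (c σ) = jm 2 f (rs K τ) P - P

section defs

variable {K : Type} [Field K] (f : K[X])

/-- The cocycles of the absolute Galois group with values in `J[2]`, `J` the Jacobian of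
`y ^ 2 = f(x)`, which are coboundaries of points of `J` over all the fields in `Pl`. -/
structure SelCoc (Pl : ∀ (E : Type) [Field E] [Algebra K E], Prop) (c : Cochain 2 f) : Prop where
  coc : IsCocycle 2 f c
  two : ∀ σ, c σ ^ 2 = 1
  loc : ∀ (E : Type) [Field E] [Algebra K E], Pl E → IsTrivialOver 2 f E c

/-- Two cocycles with values in `J[2]` have the same class in `H ^ 1 (K, J[2])`. -/
def Cohom (c c' : Cochain 2 f) : Prop :=
  ∃ R : J 2 f (SeparableClosure K), R ^ 2 = 1 ∧ ∀ σ, c σ = c' σ * (mapJ 2 f σ.toAlgHom R / R)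

/-- The 2-Selmer group of `J`, as the set of the classes in `H ^ 1 (K, J[2])` which are trivial in
`H ^ 1 (E, J)` for the `E` in `Pl`. -/
def SelH (Pl : ∀ (E : Type) [Field E] [Algebra K E], Prop) : Type :=
  Quot fun c c' : {c : Cochain 2 f // SelCoc f Pl c} => Cohom f c.1 c'.1

/-- The explicit 2-Selmer group in `K[x] / (f)`. -/
noncomputable def SelE (Pl : ∀ (E : Type) [Field E] [Algebra K E], Prop) :
    Subgroup (AdjoinRoot f)ˣ :=
  Subgroup.closure {α | IsSquare (Algebra.norm K (α : AdjoinRoot f)) ∧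
    ∃ h : K[X], AdjoinRoot.mk f h = α ∧ ∀ (E : Type) [Field E] [Algebra K E], Pl E →
      LocIm E (f.map (algebraMap K E)) (h.map (algebraMap K E))}

end defs

/-- **K6** (about 300 lines, from K3, K4, K5, `S_KUM`, `S_LOC`, `S_COB`, `S_DBL`; the translation between
`Jac`, `jm` (additive) and `J`, `mapJ` (multiplicative) is in `N106/JB/Sha.lean`, `N424/JB/Pts.lean`,
`N352/JB/Fin.lean`). The explicit 2-Selmer group has the order of the cohomological one.

Proof. `c ↦` the class of `h(θ)` (`S_KUM`, in `SelE` by `S_LOC`); `h` is unique up to squares by K4 (`R = 0`), the map is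
well defined on classes by K4, injective by `S_COB` (for `c - c'`, `h h'`), surjective by K3 and K5 (the set in the
definition of `SelE` is a group which contains the squares: lists can be concatenated). Both sides are the
number of classes (`Subgroup.relIndex` of the squares; if infinite both are zero). -/
def P_K6 : Prop := ∀ (K : Type) [Field K] (f : K[X]), (2 : K) ≠ 0 → f.Monic → Irreducible f →
  f.Separable → Odd f.natDegree → ∀ (Pl : ∀ (E : Type) [Field E] [Algebra K E], Prop),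
  Nat.card (SelH f Pl) =
    ((powMonoidHom 2 : (AdjoinRoot f)ˣ →* _).range).relIndex (SelE f Pl)

/-- **MWB** (about 200 lines, from `S_DBL`, `S_INJ`, `fixed_class`, as in `N424.JB.pts`). `J(K) / 2 J(K)` embeds in the
2-Selmer group: for `P` in `J(K)` the cocycle `σ ↦ σ Q - Q`, `2 Q = P`; if it is the coboundary of `R` in `J[2]`, then
`Q - R` is fixed by the Galois group, so it is in `J(K)` and `P = 2 (Q - R)`. -/
def P_MWB : Prop := ∀ (K : Type) [Field K] (f : K[X]), (2 : K) ≠ 0 → f.Monic → Irreducible f →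
  f.Separable → Odd f.natDegree → ∀ (Pl : ∀ (E : Type) [Field E] [Algebra K E], Prop),
  (∀ P : J 2 f K, P ^ 2 = 1 → P = 1) ∧
  (Finite (SelH f Pl) → (powMonoidHom 2 : J 2 f K →* _).range.index ≠ 0 ∧
    (powMonoidHom 2 : J 2 f K →* _).range.index ≤ Nat.card (SelH f Pl))

end Run7.h286.PLC
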