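import Pool.Agent.Run7.h286.PL.StmS
import Pool.Agent.Run7.h286.PL.StmC

/-!
# Project PRL (helper286), extension C, second part: the place at infinity and the true Selmer group
-/

set_option autoImplicit false
set_option linter.all false

open Polynomial IsDedekindDomain
open scoped Classical

namespace Run7.h286.PLC

open Pool.Agent.N874.PP (Ov Ev Sq1)
open Pool.Agent.N352.PJ (IsGen Crd SelZero Fam GoodR Ht dsc)
open Run7.h875.TS (prD sqf)
open Pool.Agent.TH115.GD (CompInf)
open Run7.h784.TG (Fm)
open Run7.h286.PL (rkJ dimS sqF)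
open Pool.Agent.Y713.Jac (J)

/-- All places of `K = k(t)`: the completions at the maximal ideals of `k[t]` and at infinity. -/
inductive AllPl (k K : Type) [Field k] [Field K] [Algebra k[X] K] [IsFractionRing k[X] K] :
    ∀ (E : Type) [Field E] [Algebra K E], Prop
  | fin (v : HeightOneSpectrum k[X]) : AllPl k K (v.adicCompletion K)
  | inf : AllPl k K (CompInf k K)

/-- **INF** (about 300 lines). There is no condition at infinity: every class of square norm is a square over
the completion `E` at infinity.

Proof. `E` is complete for `|x| = q ^ deg x`, residue field `k`. `f.scaleRoots D = ∏ (x - D θ)`; with `x = D t ^ (2 N) z` it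
becomes `z ^ n + ..` congruent to the irreducible `r` modulo the maximal ideal (`Fam.inf`, `Ht.ht`), so
`A = E[x] / (f.scaleRoots D)` is an unramified extension field of odd degree `n`, with residue field of degree `n`
over `k`. Every element of `A` is a unit times a power of `t`; a unit is a square iff its reduction is (Hensel; for
`E`: `Pool.Agent.TH115.GD.sqrt_one_unit` or similar, see the uses of `CompInf` in the tree), and a reduction which
is not a square is a nonsquare `ν` of `k` times a square (`n` is odd). So `h = t ^ i ν ^ j s ^ 2` in `A`, `i`, `j` in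
`{0, 1}`, and its norm is `t ^ i ν ^ j` times a square of `E` (`n` odd), a square: `i = j = 0`. -/
def P_INF : Prop := ∀ (k : Type) [Field k] [Finite k] (g N : ℕ) (r : k[X]) (f : k[X][X]),
  Fm g N r f → ∀ (K : Type) [Field K] [Algebra k[X] K] [IsFractionRing k[X] K] (D : k[X]), D ≠ 0 →
  ∀ h : K[X], IsCoprime h ((f.scaleRoots D).map (algebraMap k[X] K)) →
    IsSquare (Algebra.norm K (AdjoinRoot.mk ((f.scaleRoots D).map (algebraMap k[X] K)) h)) →
    ∃ s : (CompInf k K)[X], ((f.scaleRoots D).map (algebraMap k[X] K)).map
      (algebraMap K (CompInf k K)) ∣ h.map (algebraMap K (CompInf k K)) - s ^ 2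

/-- **TRU** (about 150 lines, from K6, INF, BRG (finiteness), MWB). The 2-Selmer group of the Jacobian of the
twist, with the conditions at all places, has `2 ^ rkJ` elements, and the rank of `J(K)` is at most `rkJ`.
(`Pool.Agent.N352.PJ.LocIm v f h` is `Pool.Agent.N352.JB.LocIm (v.adicCompletion K)` of the images, see
`selTriv_of` in N352/JB/Fin.lean; `f.scaleRoots D` is irreducible and separable over `K`:
`Pool.Agent.N134.PJ.irk`.) -/
def P_TRU : Prop := ∀ (k : Type) [Field k] [Finite k] (g N : ℕ) (r : k[X]) (f : k[X][X]),
  Fm g N r f → ∀ (K : Type) [Field K] [Algebra k[X] K] [IsFractionRing k[X] K] (D : k[X]), D.Monic →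
  Squarefree D → IsCoprime D (dsc g f) →
  Nat.card (SelH ((f.scaleRoots D).map (algebraMap k[X] K)) (AllPl k K)) =
    2 ^ rkJ K (f.scaleRoots D) ∧
  (∀ P : J 2 ((f.scaleRoots D).map (algebraMap k[X] K)) K, P ^ 2 = 1 → P = 1) ∧
  (powMonoidHom 2 : J 2 ((f.scaleRoots D).map (algebraMap k[X] K)) K →* _).range.index ≠ 0 ∧
  (powMonoidHom 2 : J 2 ((f.scaleRoots D).map (algebraMap k[X] K)) K →* _).range.index ≤
    2 ^ rkJ K (f.scaleRoots D)

end Run7.h286.PLC
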