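import Pool.Agent.Run7.h286.PL.FINM
import Pool.Agent.Run7.h286.PL.StmD
import Pool.Agent.Run7.h784.TG.Scl
import Pool.Agent.N134.PJ.Irk
import Pool.Agent.N352.JB.All

/-!
# Project PRL (helper286): the final theorem for all leading coefficients
-/

set_option autoImplicit false
set_option linter.all false

open Polynomial IsDedekindDomain Filter
open scoped Classical Topology

namespace Run7.h286.PL

open Pool.Agent.N352.PJ (IsGen Crd LocIm SelZero Fam GoodR Ht dsc)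
open Run7.h875.TS (sqf)
open Run7.h784.TG
open Pool.Agent.Y713.Jac (J)
open Pool.Agent.N352.Sha (UniquelyDivisible ShaTrivial)
open Run7.h286.PLC (SelH AllPl)

section defs

variable {k : Type} [Field k]

/-- The squarefree `D` of degree `m` with leading coefficient `u`, prime to the discriminant. -/
def Twu (g : ℕ) (f : k[X][X]) (u : k) (m : ℕ) : Set k[X] :=
  {D | D.leadingCoeff = u ∧ D.natDegree = m ∧ Squarefree D ∧ IsCoprime D (dsc g f)}

theorem unit_C {u : k} (hu : u ≠ 0) : IsUnit (C u : k[X]) := isUnit_C.2 (isUnit_iff_ne_zero.2 hu)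

/-- Monic `D` and `u D`. -/
theorem twu_eq {g : ℕ} {f : k[X][X]} (hm : f.Monic) (hd : f.natDegree = 2 * g + 1) {u : k}
    (hu : u ≠ 0) (m : ℕ) :
    Twu g f u m = (fun D : k[X] => C u * D) '' sqf (dsc g (f.scaleRoots (C u))) m := by
  have hCu : (C u : k[X]) ≠ 0 := C_ne_zero.2 hu
  have hunit := unit_C hu
  have hds := dsc_scale hm hd hCu
  have hcop : ∀ D : k[X], IsCoprime D (dsc g (f.scaleRoots (C u))) ↔ IsCoprime D (dsc g f) := by
    intro D
    rw [hds]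
    exact isCoprime_mul_unit_left_right (hunit.pow _) _ _
  have hsq : ∀ D : k[X], Squarefree (C u * D) ↔ Squarefree D := fun D =>
    (Associated.squarefree_iff ⟨hunit.unit, by rw [IsUnit.unit_spec, mul_comm]⟩).symm
  ext E
  constructor
  · rintro ⟨h1, h2, h3, h4⟩
    have hE : C u * (C u⁻¹ * E) = E := by
      rw [← mul_assoc, ← C_mul, mul_inv_cancel₀ hu, C_1, one_mul]
    refine ⟨C u⁻¹ * E, ⟨?_, ?_, ?_, ?_⟩, hE⟩
    · rw [Monic, leadingCoeff_mul, leadingCoeff_C, h1, inv_mul_cancel₀ hu]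
    · rw [natDegree_C_mul (inv_ne_zero hu), h2]
    · rw [← hsq, hE]; exact h3
    · rw [hcop]
      have h5 : IsCoprime (C u * (C u⁻¹ * E)) (dsc g f) := by rw [hE]; exact h4
      exact h5.of_mul_left_right
  · rintro ⟨D, ⟨h1, h2, h3, h4⟩, rfl⟩
    refine ⟨?_, ?_, (hsq D).2 h3, ?_⟩
    · show (C u * D).leadingCoeff = u
      rw [leadingCoeff_mul, leadingCoeff_C, h1.leadingCoeff, mul_one]
    · show (C u * D).natDegree = m
      rw [natDegree_C_mul hu, h2]
    · exact (isCoprime_mul_unit_left_left hunit _ _).2 ((hcop D).1 h4)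

theorem C_mul_inj {u : k} (hu : u ≠ 0) : Function.Injective (fun D : k[X] => C u * D) :=
  mul_right_injective₀ (C_ne_zero.2 hu)

theorem coe_sqF [Finite k] (h2 : (2 : k) ≠ 0) {B : k[X]} (hB : B ≠ 0) (m : ℕ) :
    (sqF B m : Set k[X]) = sqf B m := by
  ext D
  rw [Finset.mem_coe]
  exact mem_sqF h2 hB m D

theorem finsum_tw [Finite k] {g N : ℕ} {r : k[X]} {f : k[X][X]} (hf : Fm g N r f) {u : k}
    (hu : u ≠ 0) (m : ℕ) (Φ : k[X] → ℝ) :
    ∑ᶠ D ∈ Twu g f u m, Φ D =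
      ∑ D ∈ sqF (dsc g (f.scaleRoots (C u))) m, Φ (C u * D) := by
  have hf' := fm_scale hf hu
  have hB : dsc g (f.scaleRoots (C u)) ≠ 0 := hf'.fam.sq.ne_zero
  rw [twu_eq hf.fam.ht.mon hf.fam.ht.deg hu, finsum_mem_image (C_mul_inj hu).injOn,
    ← coe_sqF hf'.two hB, finsum_mem_coe_finset]

theorem ncard_tw [Finite k] {g N : ℕ} {r : k[X]} {f : k[X][X]} (hf : Fm g N r f) {u : k}
    (hu : u ≠ 0) (m : ℕ) :
    (Twu g f u m).ncard = (sqF (dsc g (f.scaleRoots (C u))) m).card := by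
  have hf' := fm_scale hf hu
  have hB : dsc g (f.scaleRoots (C u)) ≠ 0 := hf'.fam.sq.ne_zero
  rw [twu_eq hf.fam.ht.mon hf.fam.ht.deg hu, Set.ncard_image_of_injective _ (C_mul_inj hu),
    ← coe_sqF hf'.two hB, Set.ncard_coe_finset]

theorem twu_fin [Finite k] {g N : ℕ} {r : k[X]} {f : k[X][X]} (hf : Fm g N r f) {u : k}
    (hu : u ≠ 0) (m : ℕ) : (Twu g f u m).Finite := by
  have hf' := fm_scale hf hu
  have hB : dsc g (f.scaleRoots (C u)) ≠ 0 := hf'.fam.sq.ne_zero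
  rw [twu_eq hf.fam.ht.mon hf.fam.ht.deg hu, ← coe_sqF hf'.two hB]
  exact (Finset.finite_toSet _).image _

/-- The mean of a function of the dimension. -/
theorem mean_tw (hM : P_FINM) [Finite k] {g N : ℕ} {r : k[X]} {f : k[X][X]} (hf : Fm g N r f)
    (K : Type) [Field K] [Algebra k[X] K] [IsFractionRing k[X] K] {u : k} (hu : u ≠ 0)
    (φ : ℕ → ℝ) (hφ : ∃ C y : ℝ, ∀ d, |φ d| ≤ C * y ^ d) :
    Tendsto (fun m => (∑ᶠ D ∈ Twu g f u m, φ (rkJ K (f.scaleRoots D))) / ((Twu g f u m).ncard : ℝ))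
      atTop (𝓝 (Lw φ)) := by
  refine (hM k g N _ _ (fm_scale hf hu) K φ hφ).congr fun m => ?_
  rw [finsum_tw hf hu, ncard_tw hf hu]
  congr 1
  refine Finset.sum_congr rfl fun D _ => ?_
  rw [scaleRoots_mul]

/-- The proportion of the `D` with given dimension. -/
theorem prop_tw (hL : P_FINL) [Finite k] {g N : ℕ} {r : k[X]} {f : k[X][X]} (hf : Fm g N r f)
    (K : Type) [Field K] [Algebra k[X] K] [IsFractionRing k[X] K] {u : k} (hu : u ≠ 0) (d : ℕ) :
    Tendsto (fun m => (({D ∈ Twu g f u m | rkJ K (f.scaleRoots D) = d} : Set k[X]).ncard : ℝ) /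
      ((Twu g f u m).ncard : ℝ)) atTop (𝓝 (wt d / ∑' i, wt i)) := by
  refine (hL k g N _ _ (fm_scale hf hu) K d).congr fun m => ?_
  have hf' := fm_scale hf hu
  have hB : dsc g (f.scaleRoots (C u)) ≠ 0 := hf'.fam.sq.ne_zero
  rw [ncard_tw hf hu]
  congr 2
  have h1 : ({D ∈ Twu g f u m | rkJ K (f.scaleRoots D) = d} : Set k[X]) =
      (fun D : k[X] => C u * D) '' (((sqF (dsc g (f.scaleRoots (C u))) m).filter fun D =>
        rkJ K ((f.scaleRoots (C u)).scaleRoots D) = d : Finset k[X]) : Set k[X]) := by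
    ext E
    rw [Set.mem_setOf_eq, twu_eq hf.fam.ht.mon hf.fam.ht.deg hu]
    constructor
    · rintro ⟨⟨D, hD, rfl⟩, hE⟩
      refine ⟨D, ?_, rfl⟩
      rw [Finset.mem_coe, Finset.mem_filter, ← scaleRoots_mul]
      exact ⟨(mem_sqF hf'.two hB m D).2 hD, hE⟩
    · rintro ⟨D, hD, rfl⟩
      rw [Finset.mem_coe, Finset.mem_filter, ← scaleRoots_mul] at hD
      exact ⟨⟨D, (mem_sqF hf'.two hB m D).1 hD.1, rfl⟩, hD.2⟩
  rw [h1, Set.ncard_image_of_injective _ (C_mul_inj hu), Set.ncard_coe_finset]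

/-- Properties of one twist. -/
theorem one_tw (hT : Run7.h286.PLC.P_TRU)
    (hZ : ∀ (k : Type) [Field k] [Finite k] (g N : ℕ) (r : k[X]) (f : k[X][X]), Fm g N r f →
      ∀ (K : Type) [Field K] [Algebra k[X] K] [IsFractionRing k[X] K] (D : k[X]), D.Monic →
      Squarefree D → IsCoprime D (dsc g f) → rkJ K (f.scaleRoots D) = 0 → SelZero K (f.scaleRoots D))
    [Finite k] {g N : ℕ} {r : k[X]} {f : k[X][X]} (hf : Fm g N r f)
    (K : Type) [Field K] [Algebra k[X] K] [IsFractionRing k[X] K] {u : k} (hu : u ≠ 0) {m : ℕ}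
    {D : k[X]} (hD : D ∈ Twu g f u m) :
    Nat.card (SelH ((f.scaleRoots D).map (algebraMap k[X] K)) (AllPl k K)) =
      2 ^ rkJ K (f.scaleRoots D) ∧
    (∀ P : J 2 ((f.scaleRoots D).map (algebraMap k[X] K)) K, P ^ 2 = 1 → P = 1) ∧
    (powMonoidHom 2 : J 2 ((f.scaleRoots D).map (algebraMap k[X] K)) K →* _).range.index ≠ 0 ∧
    (powMonoidHom 2 : J 2 ((f.scaleRoots D).map (algebraMap k[X] K)) K →* _).range.index ≤
      2 ^ rkJ K (f.scaleRoots D) ∧
    (rkJ K (f.scaleRoots D) = 0 →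
      UniquelyDivisible 2 (J 2 ((f.scaleRoots D).map (algebraMap k[X] K)) K) ∧
      ShaTrivial 2 ((f.scaleRoots D).map (algebraMap k[X] K)) k[X]) := by
  have hD' := hD
  rw [twu_eq hf.fam.ht.mon hf.fam.ht.deg hu] at hD'
  obtain ⟨E, ⟨h1, h2, h3, h4⟩, rfl⟩ := hD'
  have hE0 : C u * E ≠ 0 := mul_ne_zero (C_ne_zero.2 hu) h1.ne_zero
  have e1 : f.scaleRoots (C u * E) = (f.scaleRoots (C u)).scaleRoots E := by
    rw [scaleRoots_mul]
  show Nat.card (SelH ((f.scaleRoots (C u * E)).map (algebraMap k[X] K)) (AllPl k K)) =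
      2 ^ rkJ K (f.scaleRoots (C u * E)) ∧
    (∀ P : J 2 ((f.scaleRoots (C u * E)).map (algebraMap k[X] K)) K, P ^ 2 = 1 → P = 1) ∧
    (powMonoidHom 2 : J 2 ((f.scaleRoots (C u * E)).map (algebraMap k[X] K)) K →* _).range.index ≠ 0 ∧
    (powMonoidHom 2 : J 2 ((f.scaleRoots (C u * E)).map (algebraMap k[X] K)) K →* _).range.index ≤
      2 ^ rkJ K (f.scaleRoots (C u * E)) ∧
    (rkJ K (f.scaleRoots (C u * E)) = 0 →
      UniquelyDivisible 2 (J 2 ((f.scaleRoots (C u * E)).map (algebraMap k[X] K)) K) ∧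
      ShaTrivial 2 ((f.scaleRoots (C u * E)).map (algebraMap k[X] K)) k[X])
  have hf' := fm_scale hf hu
  have h2K : (2 : K) ≠ 0 := by
    intro h0
    apply hf.two
    have h1 : Function.Injective ((algebraMap k[X] K).comp (C : k →+* k[X])) :=
      RingHom.injective _
    apply h1
    rw [map_zero, map_ofNat, h0]
  have hirk := Pool.Agent.N134.PJ.irk g k K f N r (C u * E) hf.fam.ht hf.gr hf.fam.inf hE0
  have hmon : (f.scaleRoots (C u * E)).Monic := (monic_scaleRoots_iff _).2 hf.fam.ht.mon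
  obtain ⟨t1, t2, t3, t4⟩ := hT k g N _ _ hf' K E h1 h3 h4
  have hz := hZ k g N _ _ hf' K E h1 h3 h4
  rw [← e1] at t1 t2 t3 t4 hz
  exact ⟨t1, t2, t3, t4, fun h0 => Pool.Agent.N352.JB.fin h2K hmon hirk.2.1
    (hirk.2.2 hf.fam.sq.ne_zero).2 (by rw [natDegree_scaleRoots, hf.fam.ht.deg]; exact ⟨g, rfl⟩)
    (hz h0)⟩

end defs

end Run7.h286.PL
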