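import Pool.Agent.Run7.h286.PL.StmS

/-!
# Project PRL (helper286), extension M: all moments of the 2-Selmer groups

With these pieces the exact law becomes: for every function `φ` of at most exponential growth the
average of `φ (dim Sel_2 (J_D))` over the squarefree `D` of degree `m` tends to the expectation of `φ`
for the Poonen-Rains law (`q` fixed, any genus). In particular the average order of the 2-Selmer group is
`3`, its `j`-th moment is `(1 + 2) (1 + 4) .. (1 + 2 ^ j)`, the average dimension is `∑ 1 / (1 + 2 ^ j)`, and half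
of the dimensions are even.
-/

set_option autoImplicit false
set_option linter.all false

open Polynomial IsDedekindDomain
open scoped Classical

namespace Run7.h286.PL

open Pool.Agent.N874.PP (Ov Ev Sq1)
open Pool.Agent.N352.PJ (IsGen Crd LocIm SelZero Fam GoodR Ht dsc)
open Run7.h875.TS (chi cd IsPC GSq irrD dg NRs uT sqf prD sqL sz Tr)
open Run7.h784.TG

/-- **ONE2** (about 250 lines, from W, STK, `S_TRS`, DIC, STEP, GRP, REP: variant of `T_ONE`, Run7/h784/TG/One*.lean).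
For most `Q` the group becomes smaller by the factor `2 ^ (nr - 1)`.

Proof. Notation of ONE: `s = sz G`, `ρ = nr - 1`, `X(t) ≥ 0` up to the error term `ZZ`, `2 ^ ρ sz (G ⊓ T) = s + X(t)`. Both
`sz G` and `sz (G ⊓ T)` are powers of two, so either `X(t) = 0`, and then `sz G' s ≤ 2 ^ ρ sz (G ⊓ T) ^ 2 = s ^ 2 / 2 ^ ρ`,
`Q` is not counted; or `X(t) ≥ s`. The sum of the `X(t)` over `t` is `≤ g cd F + C (1 + dg S) s √(cd F)` (`sum_XX`). -/
def P_ONE2 : Prop := ∀ (k K L O : Type) [Field k] [Finite k] [Field K] [Algebra k[X] K]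
  [IsFractionRing k[X] K]
  [Field L] [Algebra K L] [Algebra k[X] L] [IsScalarTower k[X] K L] [CommRing O]
  [IsDedekindDomain O] [Algebra O L] [IsFractionRing O L] [Algebra k[X] O]
  [IsScalarTower k[X] O L] [IsIntegralClosure O k[X] L] (g N : ℕ) (r : k[X]) (f : k[X][X]) (θ : L),
  Fm g N r f → Full f → IsGen g K f θ →
  ∃ C₀ : ℕ, ∀ (S : Finset k[X]) (u : k[X] → k[X]), GoodT g f S u → ∀ w : k[X] → k[X],
    (∀ Q : k[X], Irreducible Q → ¬ Q ∣ w Q) → ∀ m : ℕ, 0 < m →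
    (m : ℝ) * (((irrD k m).filter (fun Q => Q ∉ S ∧ ¬ Q ∣ dsc g f ∧
        sz (SelG O K f θ S u) < 2 ^ (nr O Q - 1) *
          sz (SelG O K f θ (insert Q S) (Function.update u Q (w Q))))).card : ℝ) *
        sz (SelG O K f θ S u) ≤
      C₀ * (Nat.card k : ℝ) ^ m +
        C₀ * (1 + dg S) * √((Nat.card k : ℝ) ^ m) * sz (SelG O K f θ S u)

/-- **TRB** (about 120 lines, from STEP, GRP, REP, DIC; the proof is in `Run7.h382.TG.AVG` (`key`, `nr_le`)). Trivial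
bounds. (`sz (SelG ∅ u)` does not depend on `u`.) -/
def P_TRB : Prop := ∀ (k K L O : Type) [Field k] [Finite k] [Field K] [Algebra k[X] K]
  [IsFractionRing k[X] K]
  [Field L] [Algebra K L] [Algebra k[X] L] [IsScalarTower k[X] K L] [CommRing O]
  [IsDedekindDomain O] [Algebra O L] [IsFractionRing O L] [Algebra k[X] O]
  [IsScalarTower k[X] O L] [IsIntegralClosure O k[X] L] (g N : ℕ) (r : k[X]) (f : k[X][X]) (θ : L),
  Fm g N r f → IsGen g K f θ →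
  (∀ (S : Finset k[X]) (u : k[X] → k[X]), GoodT g f S u → ∀ Q : k[X], Q.Monic → Irreducible Q → Q ∉ S →
    ¬ Q ∣ dsc g f → ∀ w : k[X], ¬ Q ∣ w →
    ld (SelG O K f θ (insert Q S) (Function.update u Q w)) ≤ ld (SelG O K f θ S u) + 2 * g) ∧
  ∃ C₁ : ℕ, ∀ (S : Finset k[X]) (u : k[X] → k[X]), GoodT g f S u →
    ld (SelG O K f θ S u) ≤ C₁ + 2 * g * S.card

/-- **AVM** (about 400 lines, from ONE2, TRB, LAST2 (`S = ∅`), STEP, GRP, REP: adapt `Run7/h382/TG/AVG.lean`). All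
exponential moments of the dimension are bounded (average over all local classes).

Proof. `τ(N) = q ^ (-N) ∑_{D ∈ sqF N} av (y ^ ·) (prD D)`. `N τ(N) = ∑_{m ≤ N} f N m`, `f N m` the sum of `m ∑_Q av (y ^ ·) (insert Q ..)`
over `D ∈ sqF (N - m)`, divided by `q ^ N`. For fixed `D`, `T`, `d = ld G`: if `Q` is not exceptional in ONE2,
`y ^ ld G' ≤ y ^ d (1[nr = 1] + y⁻¹ 1[nr ≥ 2])`, otherwise `y ^ ld G' ≤ y ^ (2 g) y ^ d` (TRB). So
`m ∑_Q y ^ ld G' ≤ (del0 + (1 - del0) / y) y ^ d q ^ m + C y ^ d q ^ m / 2 ^ d + C (1 + N) √q ^ m y ^ d`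
(`m |irrD m| ≤ q ^ m`, LAST2 for the number with `nr = 1`), and `y ^ d / 2 ^ d ≤ η y ^ d + C_η`. For `y > 1` the factor
`ρ = del0 + (1 - del0) / y + η` is `< 1`: `f N m ≤ ρ τ(N - m) + A + C (1 + N) / √q ^ m τ(N - m)` and
`f N m ≤ M τ(N - m)`: the renewal lemma (`Run7.h382.TG.AVG.renewal` with `ρ` in place of `3 / 4`). -/
def P_AVM : Prop := ∀ (k K L O : Type) [Field k] [Finite k] [Field K] [Algebra k[X] K]
  [IsFractionRing k[X] K]
  [Field L] [Algebra K L] [Algebra k[X] L] [IsScalarTower k[X] K L] [CommRing O]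
  [IsDedekindDomain O] [Algebra O L] [IsFractionRing O L] [Algebra k[X] O]
  [IsScalarTower k[X] O L] [IsIntegralClosure O k[X] L] (g N : ℕ) (r : k[X]) (f : k[X][X]) (θ : L),
  Fm g N r f → Full f → IsGen g K f θ → ∀ nrs : k[X] → k[X], NRs nrs → ∀ y : ℝ, 1 ≤ y →
  ∃ B : ℝ, ∀ N' : ℕ,
    ∑ D ∈ sqF (dsc g f) N', av O K f θ nrs (fun d => y ^ d) (prD D) ≤ B * (Nat.card k : ℝ) ^ N'

/-- **LSA** (about 250 lines). Primes with prescribed quadratic characters (all primes, upper bound; compare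
LAST2 and `Run7.h973.TG.T_LAST`).

Proof. `#{Q ..} ≤ ∑_Q ∏_{P ∈ S} (1 + ε_P (Q / P)) / 2`, expand; for `A ⊆ S` not empty
`m ∑_{deg Q = m} (Q / D_A) = ± ∑_t χ(D_A(t))`, `D_A = ∏_{P ∈ A} P` (quadratic reciprocity, `S_TRS`), of absolute value at
most `C (1 + dg S) √(q ^ m)` by Weil (`S_DOUBLE` with `H = X`, proved in Run7/h984/TS/Double.lean; as in
`Run7.h824.PL.T_FF`, which has all of this). -/
def P_LSA : Prop := ∀ (k : Type) [Field k] [Finite k], (2 : k) ≠ 0 → ∃ C₀ : ℕ,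
  ∀ (S : Finset k[X]) (η : k[X] → Prop), (∀ P ∈ S, P.Monic ∧ Irreducible P) → ∀ m : ℕ, 0 < m →
    (((irrD k m).filter fun Q => Q ∉ S ∧ ∀ P ∈ S, (∃ z : k[X], P ∣ z ^ 2 - Q) ↔ η P).card : ℝ) ≤
      (1 / 2) ^ S.card * (Nat.card k : ℝ) ^ m / m + C₀ * (1 + dg S) * √((Nat.card k : ℝ) ^ m)

/-- **OMG** (about 120 lines, from REM). The sum of `x ^ ω(D)`.

Proof. `a_N = q ^ (-N) ∑_{D ∈ sqF N} x ^ ω(D)`; `N a_N ≤ x ∑_{j < N} a_j` (REM for `F D Q = deg Q`, `m |irrD m| ≤ q ^ m`), so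
`a_N ≤ (N + x - 1).choose N` by induction (hockey stick), `≤ (N + x) ^ x`. -/
def P_OMG : Prop := ∀ (k : Type) [Field k] [Finite k] (B : k[X]), (2 : k) ≠ 0 → B ≠ 0 →
  ∀ x : ℕ, 1 ≤ x → ∀ N : ℕ,
    ∑ D ∈ sqF B N, (x : ℝ) ^ (prD D).card ≤ ((N : ℝ) + x) ^ x * (Nat.card k : ℝ) ^ N

/-- **NTM** (about 400 lines, from AVM, TRB, LSA, OMG, CLSU, REM; compare S0, NAT of helper908). All exponential
moments of the dimension are bounded, natural ordering.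

Proof. `L = log m`. (1) The `D` with `ω(D) > κ L`: `y ^ dimS D ≤ y ^ C₁ (y ^ (2 g)) ^ ω(D) ≤ y ^ C₁ (e y ^ (2 g)) ^ ω(D) m ^ (-κ)`; OMG with
`x ≥ e y ^ (2 g)`, `κ ≥ x`. (2) The others: the primes of degree `≤ M = C L` dividing `D` have total degree
`≤ κ L C L ≤ m / 2`, so `m ≤ 2 ∑_{Q ∣ D, deg Q > M} deg Q` and (REM, `τ Q = (M < deg Q)`)
`m ∑_D y ^ dimS D ≤ 2 ∑_{M < n ≤ m} n ∑_{D' ∈ sqF (m - n), ω(D') ≤ κ L} ∑_{Q} y ^ dimS(D' Q)`. For fixed `D'`, `S = prD D'`: by TRB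
`y ^ dimS(D' Q) ≤ y ^ (2 g) y ^ (ld (SelG S (fun P => D' Q / P)))`, which is `ld (SelG S (uT nrs T))` for the set `T` of the `P` for
which `(D' / P) Q` is not a square modulo `P` (CLSU, as in S0), and each `T` occurs for at most
`2 ^ (-ω) q ^ n / n + C (1 + m) √q ^ n` of the `Q` (LSA). So `n ∑_Q y ^ dimS(D' Q) ≤ y ^ (2 g) av (y ^ ·) S (q ^ n + n 2 ^ ω C (1 + m) √q ^ n)`,
and `n 2 ^ ω C (1 + m) ≤ √q ^ n` if `n > C L` with `C` large. Sum with AVM. (Small `m`: the sum is finite.) -/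
def P_NTM : Prop := ∀ (k K L O : Type) [Field k] [Finite k] [Field K] [Algebra k[X] K]
  [IsFractionRing k[X] K]
  [Field L] [Algebra K L] [Algebra k[X] L] [IsScalarTower k[X] K L] [CommRing O]
  [IsDedekindDomain O] [Algebra O L] [IsFractionRing O L] [Algebra k[X] O]
  [IsScalarTower k[X] O L] [IsIntegralClosure O k[X] L] (g N : ℕ) (r : k[X]) (f : k[X][X]) (θ : L),
  Fm g N r f → Full f → IsGen g K f θ → ∀ y : ℝ, 1 ≤ y → ∃ B : ℝ, ∀ m : ℕ,
    ∑ D ∈ sqF (dsc g f) m, y ^ dimS O K f θ D ≤ B * (Nat.card k : ℝ) ^ m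

/-- **QID** (about 200 lines; continues `Run7.h160.PL.num`). Values of the limit law.

Proof. `W(x) = ∑ wt d x ^ d` is entire (ratio test), `W(x) = (1 + x) W(x / 2)`; `W(2 ^ j) = (1 + 2 ^ j) W(2 ^ (j-1))`, `W(-1) = 0`,
`W'(1) / W(1) = ∑_j 2 ^ (-j) / (1 + 2 ^ (-j))` (or: `A(x) = ∑ d wt d x ^ d` satisfies `A(x) = (1 + x) A(x / 2) + x W(x / 2)`; iterate at
`x = 1`, `A(2 ^ (-j)) → 0`). -/
def P_QID : Prop :=
  (∀ y : ℝ, Summable (fun d => wt d * y ^ d)) ∧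
  (∀ j : ℕ, Lw (fun d => ((2 : ℝ) ^ j) ^ d) = ∏ i ∈ Finset.Icc 1 j, (1 + (2 : ℝ) ^ i)) ∧
  Lw (fun d => (-1 : ℝ) ^ d) = 0 ∧
  HasSum (fun j : ℕ => 1 / ((2 : ℝ) ^ j + 1)) (Lw fun d => d) ∧
  |Lw (fun d => (d : ℝ)) - 1.2645| < 0.0001

/-- **MEA** (about 150 lines, from LAW, NTM, QID (summability), SQF3). The means of all functions of at
most exponential growth.

Proof. `|φ(d)| ≤ C y ^ d`, `y ≥ 1`. For `R` let `φ_R = φ 1[d ≤ R]`, bounded: LAW (divide by `C y ^ R`). The rest is at most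
`C ∑_D y ^ d 1[d > R] ≤ C 2 ^ (-R) ∑_D (2 y) ^ d ≤ C 2 ^ (-R) B q ^ m` (NTM), `|sqF m| ≥ c q ^ m` (SQF3), and `Lw φ_R → Lw φ`. -/
def P_MEA : Prop := ∀ (k K L O : Type) [Field k] [Finite k] [Field K] [Algebra k[X] K]
  [IsFractionRing k[X] K]
  [Field L] [Algebra K L] [Algebra k[X] L] [IsScalarTower k[X] K L] [CommRing O]
  [IsDedekindDomain O] [Algebra O L] [IsFractionRing O L] [Algebra k[X] O]
  [IsScalarTower k[X] O L] [IsIntegralClosure O k[X] L] (g N : ℕ) (r : k[X]) (f : k[X][X]) (θ : L),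
  Fm g N r f → Full f → IsGen g K f θ → ∀ φ : ℕ → ℝ, (∃ C y : ℝ, ∀ d, |φ d| ≤ C * y ^ d) →
    Filter.Tendsto (fun m => (∑ D ∈ sqF (dsc g f) m, φ (dimS O K f θ D)) /
      ((sqF (dsc g f) m).card : ℝ)) Filter.atTop (nhds (Lw φ))

/-- **FINM** (helper286, from MEA, BRG, EQ1, EQ2, FULL). The means for the true 2-Selmer groups. -/
def P_FINM : Prop := ∀ (k : Type) [Field k] [Finite k] (g N : ℕ) (r : k[X]) (f : k[X][X]),
  Fm g N r f → ∀ (K : Type) [Field K] [Algebra k[X] K] [IsFractionRing k[X] K], ∀ φ : ℕ → ℝ,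
  (∃ C y : ℝ, ∀ d, |φ d| ≤ C * y ^ d) →
  Filter.Tendsto (fun m => (∑ D ∈ sqF (dsc g f) m, φ (rkJ K (f.scaleRoots D))) /
    ((sqF (dsc g f) m).card : ℝ)) Filter.atTop (nhds (Lw φ))

end Run7.h286.PL
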