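import Pool.Agent.Run7.h286.PL.All
import Pool.Agent.Run7.h704.PL.AVM
import Pool.Agent.Run7.h711.PL.NTM
import Pool.Agent.Run7.h416.PL.LSA
import Pool.Agent.Run7.h209.PL.ONE2

/-!
# Assembly of project PRL, extension M: all moments

`aNTM : P_NTM` (all exponential moments are bounded, natural ordering) and `fMOM : P_FINM` (all
moments of the true Selmer groups converge to those of the limit law), without hypotheses.
-/

set_option autoImplicit false

open Polynomial
open Run7.h784.TG

namespace Run7.h286.PL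

theorem aTRB : P_TRB := Run7.h216.PL.T_TRB aSTEP aGRP aREP aDIC

theorem aONE2 : P_ONE2 := Run7.h209.PL.T_ONE2 aW Run7.h760.TG.stk Run7.h437.TS.trs aDIC aSTEP aREP aGRP

theorem aAVM : P_AVM := Run7.h704.PL.T_AVM aONE2 aTRB aLAST2 aSTEP aREP aGRP

theorem aNTM : P_NTM :=
  Run7.h711.PL.T_NTM aAVM aTRB Run7.h416.PL.T_LSA Run7.h547.PL.omg aCLSU Run7.h704.PL.T_REM

theorem fMOM : P_FINM := fMEA aNTM

end Run7.h286.PL
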