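import Pool.Agent.Run7.h286.PL.Sha2
import Pool.Agent.N352.JB.ShaDef

/-!
# The 2-Selmer group and `Sha[2]` of the Jacobian of `y ^ 2 = F(x)` over `K = k(t)`

The definitions of `StmC.lean` and `Run7/h886/PL/Two.lean` with a variable separable closure `Ω`; they print
in a shorter form (compare `N352/JB/ShaDef.lean`).
-/

set_option autoImplicit false
set_option linter.all false

namespace Run7.h286.SelDef

open Polynomial IsDedekindDomain
open Pool.Agent.Y713.Jac (J)
open Pool.Agent.N352.Sha (Cochain act IsCocycle IsCoboundary IsZeroOver UniquelyDivisible ShaTrivial)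
open Pool.Agent.TH115.GD (CompInf)

section

variable (k : Type) {K : Type} [Field k] [Field K] [Algebra k[X] K] [IsFractionRing k[X] K]
  {F : K[X]} {Ω : Type} [Field Ω] [Algebra K Ω]

/-- The restriction of the class of the cocycle `c` to `H ^ 1 (E, J)` is zero for the completion `E` of
`K` at each maximal ideal of `k[t]` and for the completion at infinity, that is at all places. -/
structure IsZeroEverywhere (c : Cochain 2 F Ω) : Prop where
  finite : ∀ v : HeightOneSpectrum k[X], IsZeroOver c (v.adicCompletion K)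
  infinite : IsZeroOver c (CompInf k K)

/-- The continuous cocycle `c` has values in `J[2]`, `J` the Jacobian of `y ^ 2 = F(x)`, and its class in
`H ^ 1 (E, J)` is zero for the completions `E` of `K` at all places. -/
structure IsSelmer (c : Cochain 2 F Ω) : Prop where
  cocycle : IsCocycle c
  twoTorsion : ∀ σ, c σ ^ 2 = 1
  everywhere : IsZeroEverywhere k c

/-- The continuous cocycle `c` with values in `J(Ω)` represents an element of the Tate-Shafarevich
group which is killed by two. -/
structure IsShaTwo (c : Cochain 2 F Ω) : Prop where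
  cocycle : IsCocycle c
  double : IsCoboundary (c.pow 2)
  everywhere : IsZeroEverywhere k c

variable (F Ω)

/-- The classes in `H ^ 1 (K, J[2])` of the cocycles in `IsSelmer`, where `Ω` is the separable closure of
`K`. -/
def SelmerFor : Type :=
  Quot fun c c' : {c : Cochain 2 F Ω // IsSelmer k c} =>
    ∃ R : J 2 F Ω, R ^ 2 = 1 ∧ ∀ σ, c.1 σ = c'.1 σ * (act 2 F σ R / R)

/-- The classes in `H ^ 1 (K, J)` of the cocycles in `IsShaTwo`, where `Ω` is the separable closure of
`K`. -/
def ShaTwoFor : Type :=
  Quot fun c c' : {c : Cochain 2 F Ω // IsShaTwo k c} =>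
    ∃ R : J 2 F Ω, ∀ σ, c.1 σ = c'.1 σ * (act 2 F σ R / R)

end

section

variable (k : Type) {K : Type} [Field k] [Field K] [Algebra k[X] K] [IsFractionRing k[X] K]

/-- The 2-Selmer group of the Jacobian `J` of `y ^ 2 = F(x)` over `K = k(t)`: the set of the classes in
`H ^ 1 (K, J[2])` which are zero in `H ^ 1 (K_v, J)` for all places `v` of `K`. -/
def Selmer (F : K[X]) : Type := SelmerFor k F (SeparableClosure K)

/-- The 2-torsion of the Tate-Shafarevich group of the Jacobian `J` of `y ^ 2 = F(x)` over `K = k(t)`. -/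
def ShaTwo (F : K[X]) : Type := ShaTwoFor k F (SeparableClosure K)

/-- The dimension of the 2-Selmer group over the field with two elements. -/
noncomputable def selmerRank (F : K[X]) : ℕ := Nat.log 2 (Nat.card (Selmer k F))

end

/-- The group `G` has no element of order two. -/
def NoTwoTorsion (G : Type) [CommGroup G] : Prop := ∀ P : G, P ^ 2 = 1 → P = 1

/-- The order of `G / 2 G` (zero if it is infinite). -/
noncomputable def twoIndex (G : Type) [CommGroup G] : ℕ := (powMonoidHom 2 : G →* G).range.index

section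

variable (k : Type) {K : Type} [Field k] [Field K] [Algebra k[X] K] [IsFractionRing k[X] K]

/-- Properties of the 2-Selmer group of the Jacobian `J` of the curve `y ^ 2 = F(x)`: its order is a power
of two; `J(K)` has no element of order two; `J(K) / 2 J(K)` is finite; the order of the 2-Selmer group
is the product of the orders of `J(K) / 2 J(K)` and of `Sha(J)[2]`; if it is trivial, then `J(K)` is
uniquely divisible by two and the 2-primary part of `Sha(J)` is zero. -/
structure Meaning (F : K[X]) : Prop where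
  order : Nat.card (Selmer k F) = 2 ^ selmerRank k F
  torsion : NoTwoTorsion (J 2 F K)
  finite : twoIndex (J 2 F K) ≠ 0
  sequence : Nat.card (Selmer k F) = twoIndex (J 2 F K) * Nat.card (ShaTwo k F)
  divisible : Nat.card (Selmer k F) = 1 → UniquelyDivisible 2 (J 2 F K)
  sha : Nat.card (Selmer k F) = 1 → ShaTrivial 2 F k[X]

theorem zero_iff {F : K[X]} {c : Cochain 2 F (SeparableClosure K)} : IsZeroEverywhere k c ↔
    ∀ (E : Type) [Field E] [Algebra K E], Run7.h286.PLC.AllPl k K E → IsZeroOver c E := by
  refine ⟨?_, fun h => ⟨fun v => h _ (.fin v), h _ .inf⟩⟩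
  intro h E _ _ hE
  cases hE with
  | fin v => exact h.finite v
  | inf => exact h.infinite

theorem card_selmer (F : K[X]) :
    Nat.card (Selmer k F) = Nat.card (Run7.h286.PLC.SelH F (Run7.h286.PLC.AllPl k K)) := by
  have h : ∀ c : Cochain 2 F (SeparableClosure K), IsSelmer k c ↔
      Run7.h286.PLC.SelCoc F (Run7.h286.PLC.AllPl k K) c := by
    intro c
    refine ⟨fun h => ⟨h.cocycle, h.twoTorsion, fun E _ _ hE => (zero_iff k).1 h.everywhere E hE⟩,
      fun h => ⟨h.coc, h.two, (zero_iff k).2 h.loc⟩⟩
  exact Nat.card_congr (Quot.congr (Equiv.subtypeEquivRight h) fun _ _ => Iff.rfl)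

theorem card_shaTwo (F : K[X]) :
    Nat.card (ShaTwo k F) = Nat.card (Run7.h886.PL.ShaH F (Run7.h286.PLC.AllPl k K)) := by
  have h : ∀ c : Cochain 2 F (SeparableClosure K), IsShaTwo k c ↔
      Run7.h886.PL.ShaCoc F (Run7.h286.PLC.AllPl k K) c := by
    intro c
    refine ⟨fun h => ⟨h.cocycle, h.double, fun E _ _ hE => (zero_iff k).1 h.everywhere E hE⟩,
      fun h => ⟨h.coc, h.two, (zero_iff k).2 h.loc⟩⟩
  exact Nat.card_congr (Quot.congr (Equiv.subtypeEquivRight h) fun _ _ => Iff.rfl)

end

/-- Properties of one twist. -/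
theorem one_tw {k : Type} [Field k] [Finite k] {g N : ℕ} {r : k[X]} {f : k[X][X]}
    (hf : Run7.h784.TG.Fm g N r f) (K : Type) [Field K] [Algebra k[X] K] [IsFractionRing k[X] K]
    {u : k} (hu : u ≠ 0) {m : ℕ} {D : k[X]} (hD : D ∈ Run7.h286.PL.Twu g f u m) :
    selmerRank k ((f.scaleRoots D).map (algebraMap k[X] K)) =
      Run7.h286.PL.rkJ K (f.scaleRoots D) ∧
    Meaning k ((f.scaleRoots D).map (algebraMap k[X] K)) := by
  obtain ⟨h1, h2, h3, h4, h5⟩ := Run7.h286.PL.one_tw Run7.h286.PL.fTRU Run7.h286.PL.fZER hf K hu hD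
  rw [← card_selmer] at h1
  have h6 : selmerRank k ((f.scaleRoots D).map (algebraMap k[X] K)) =
      Run7.h286.PL.rkJ K (f.scaleRoots D) := by
    unfold selmerRank
    rw [h1, Nat.log_pow (by norm_num)]
  have hD0 : D ≠ 0 := by
    rintro rfl
    exact hu (by rw [← hD.1, leadingCoeff_zero])
  have h7 : Nat.card (Selmer k ((f.scaleRoots D).map (algebraMap k[X] K))) = 1 →
      Run7.h286.PL.rkJ K (f.scaleRoots D) = 0 := by
    intro h0
    rw [h1] at h0
    by_contra h8
    exact absurd h0 (ne_of_gt (Nat.one_lt_pow h8 (by norm_num)))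
  refine ⟨h6, ⟨by rw [h1, h6], h2, h3, ?_, fun h0 => (h5 (h7 h0)).1, fun h0 => (h5 (h7 h0)).2⟩⟩
  rw [card_shaTwo, card_selmer]
  exact Run7.h286.PL.seq_tw hf K hD0

end Run7.h286.SelDef
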