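import Mathlib

/-!
# Euler: `∏_{j ≥ 1} (1 + x ^ j) ∏_{i ≥ 0} (1 - x ^ (2 i + 1)) = 1` for `x = 1 / 2`
-/

set_option autoImplicit false

open Filter Topology

namespace Run7.h286.Euler

theorem fin1 (n : ℕ) : (∏ j ∈ Finset.range n, (1 + (1 / 2 : ℝ) ^ (j + 1))) *
    (∏ j ∈ Finset.range n, (1 - (1 / 2 : ℝ) ^ (j + 1))) =
    ∏ j ∈ Finset.range n, (1 - (1 / 4 : ℝ) ^ (j + 1)) := by
  rw [← Finset.prod_mul_distrib]
  refine Finset.prod_congr rfl fun j _ => ?_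
  have : (1 / 4 : ℝ) ^ (j + 1) = ((1 / 2 : ℝ) ^ (j + 1)) ^ 2 := by
    rw [← pow_mul, mul_comm, pow_mul]
    norm_num
  rw [this]
  ring

theorem fin2 (n : ℕ) : (∏ j ∈ Finset.range (2 * n), (1 - (1 / 2 : ℝ) ^ (j + 1))) =
    (∏ i ∈ Finset.range n, (1 - (1 / 2 : ℝ) ^ (2 * i + 1))) *
      ∏ j ∈ Finset.range n, (1 - (1 / 4 : ℝ) ^ (j + 1)) := by
  induction n with
  | zero => simp
  | succ n ih =>
    rw [show 2 * (n + 1) = 2 * n + 1 + 1 by ring, Finset.prod_range_succ, Finset.prod_range_succ,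
      ih, Finset.prod_range_succ, Finset.prod_range_succ]
    have : (1 / 4 : ℝ) ^ (n + 1) = (1 / 2 : ℝ) ^ (2 * n + 1 + 1) := by
      rw [show 2 * n + 1 + 1 = 2 * (n + 1) by ring, pow_mul]
      norm_num
    rw [this]
    ring

theorem low (n : ℕ) : 2 / 3 ≤ ∏ j ∈ Finset.range n, (1 - (1 / 4 : ℝ) ^ (j + 1)) := by
  have h : ∀ n : ℕ, 2 / 3 + (1 / 3) * (1 / 4 : ℝ) ^ n ≤
      ∏ j ∈ Finset.range n, (1 - (1 / 4 : ℝ) ^ (j + 1)) ∧
      ∏ j ∈ Finset.range n, (1 - (1 / 4 : ℝ) ^ (j + 1)) ≤ 1 := by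
    intro n
    induction n with
    | zero => norm_num
    | succ n ih =>
      obtain ⟨h1, h2⟩ := ih
      rw [Finset.prod_range_succ]
      have h3 : (0 : ℝ) < (1 / 4) ^ n := by positivity
      have h4 : (1 / 4 : ℝ) ^ n ≤ 1 := pow_le_one₀ (by norm_num) (by norm_num)
      rw [pow_succ]
      constructor <;> nlinarith
  have h3 : (0 : ℝ) < (1 / 4) ^ n := by positivity
  linarith [(h n).1]

theorem mult (a : ℕ → ℝ) (ha : Summable a) (h0 : ∀ i, 0 ≤ a i) :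
    Multipliable fun i => 1 - a i := by
  have h := Real.multipliable_one_add_of_summable (f := fun i => - a i) ha.neg
  simpa [sub_eq_add_neg] using h

theorem euler {Z : ℝ} (hZ : HasProd (fun j : ℕ => 1 + (1 / 2 : ℝ) ^ j) Z) :
    Z⁻¹ = 1 / 2 * ∏' i : ℕ, (1 - (1 / 2 : ℝ) ^ (2 * i + 1)) := by
  have s1 : Summable fun i : ℕ => (1 / 2 : ℝ) ^ (2 * i + 1) := by
    have h := (summable_geometric_of_lt_one (by norm_num : (0 : ℝ) ≤ 1 / 4)
      (by norm_num)).mul_left (1 / 2 : ℝ)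
    refine h.congr fun i => ?_
    rw [pow_succ, pow_mul]
    norm_num
    ring
  have s2 : Summable fun i : ℕ => (1 / 4 : ℝ) ^ (i + 1) := by
    have h := (summable_geometric_of_lt_one (by norm_num : (0 : ℝ) ≤ 1 / 4)
      (by norm_num)).mul_left (1 / 4 : ℝ)
    refine h.congr fun i => ?_
    rw [pow_succ]
    ring
  have m1 := (mult _ s1 fun i => by positivity).hasProd.tendsto_prod_nat
  have m2 := (mult _ s2 fun i => by positivity).hasProd.tendsto_prod_nat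
  have m3 := hZ.tendsto_prod_nat
  set Y := ∏' i : ℕ, (1 - (1 / 2 : ℝ) ^ (2 * i + 1)) with hY
  set V := ∏' i : ℕ, (1 - (1 / 4 : ℝ) ^ (i + 1)) with hV
  have hV0 : 2 / 3 ≤ V := ge_of_tendsto' m2 low
  have m4 : Tendsto (fun n => ∏ j ∈ Finset.range (2 * n + 1), (1 + (1 / 2 : ℝ) ^ j)) atTop
      (𝓝 Z) := m3.comp (tendsto_atTop_mono (fun n => by omega : ∀ n : ℕ, n ≤ 2 * n + 1) tendsto_id)
  have m5 : Tendsto (fun n => ∏ j ∈ Finset.range (2 * n), (1 - (1 / 4 : ℝ) ^ (j + 1))) atTop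
      (𝓝 V) := m2.comp (tendsto_atTop_mono (fun n => by omega : ∀ n : ℕ, n ≤ 2 * n) tendsto_id)
  have m6 := (m4.mul m1).mul m2
  have e : (fun n : ℕ => (∏ j ∈ Finset.range (2 * n + 1), (1 + (1 / 2 : ℝ) ^ j)) *
      (∏ i ∈ Finset.range n, (1 - (1 / 2 : ℝ) ^ (2 * i + 1))) *
      ∏ j ∈ Finset.range n, (1 - (1 / 4 : ℝ) ^ (j + 1))) =
      fun n => 2 * ∏ j ∈ Finset.range (2 * n), (1 - (1 / 4 : ℝ) ^ (j + 1)) := by
    funext n
    rw [Finset.prod_range_succ', pow_zero, mul_assoc, ← fin2, mul_right_comm, fin1]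
    ring
  rw [e] at m6
  have h := tendsto_nhds_unique m6 (m5.const_mul 2)
  have hV1 : V ≠ 0 := by linarith
  have h2 : Z * Y = 2 := by
    have : (Z * Y - 2) * V = 0 := by linarith
    rcases mul_eq_zero.1 this with h | h
    · linarith
    · exact absurd h hV1
  have hZ0 : Z ≠ 0 := by
    rintro rfl
    norm_num at h2
  field_simp
  linarith

end Run7.h286.Euler
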