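import Pool.Agent.Run7.h784.TG.Scl

/-!
# Project PRL (helper286): elliptic curves as the case `g = 1` of the families
-/

set_option autoImplicit false
set_option linter.all false

open Polynomial

namespace Run7.h286.PL.Ell

open Pool.Agent.N352.PJ (Fam GoodR Ht dsc)
open Run7.h784.TG (Fm)

variable {k : Type} [Field k]

/-- `x ^ 3 + a x + b`. -/
noncomputable def pol {R : Type} [CommRing R] (a b : R) : R[X] := X ^ 3 + C a * X + C b

variable {R : Type} [CommRing R]

theorem coeff_pol (a b : R) (i : ℕ) : (pol a b).coeff i =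
    if i = 3 then 1 else if i = 1 then a else if i = 0 then b else 0 := by
  unfold pol
  rw [coeff_add, coeff_add, coeff_X_pow, coeff_C_mul, coeff_X, coeff_C]
  rcases eq_or_ne i 3 with h | h
  · subst h; norm_num
  rcases eq_or_ne i 1 with h1 | h1
  · subst h1; norm_num
  rcases eq_or_ne i 0 with h0 | h0
  · subst h0; norm_num
  · simp only [if_neg h, if_neg (Ne.symm h1), if_neg h0, if_neg h1]
    ring

theorem natDegree_pol [Nontrivial R] (a b : R) : (pol a b).natDegree = 3 := by
  unfold pol
  compute_degree!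

theorem monic_pol (a b : R) : (pol a b).Monic := by
  unfold pol
  monicity!

theorem dsc_pol (a b : k[X]) : dsc 1 (pol a b) = 4 * a ^ 3 + 27 * b ^ 2 := by
  have hdeg : (pol a b).degree = 3 := by
    rw [degree_eq_natDegree (monic_pol a b).ne_zero, natDegree_pol]
    rfl
  have h1 := resultant_deriv (f := pol a b) (by rw [hdeg]; norm_num)
  rw [natDegree_pol] at h1
  have h2 := discr_of_degree_eq_three hdeg
  rw [h2, (monic_pol a b).leadingCoeff] at h1
  simp only [coeff_pol] at h1
  have h4 : dsc 1 (pol a b) = (pol a b).resultant (derivative (pol a b)) 3 2 := rfl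
  rw [h4]
  refine h1.trans ?_
  norm_num
  ring

theorem fm_pol {N : ℕ} (hN : 1 ≤ N) (h2 : (2 : k) ≠ 0) {a b : k[X]} (ha : a.natDegree ≤ 4 * N)
    (hb : b.natDegree ≤ 6 * N) (hs : Squarefree (4 * a ^ 3 + 27 * b ^ 2))
    (hi : Irreducible (pol (a.coeff (4 * N)) (b.coeff (6 * N)))) :
    Fm 1 N (pol (a.coeff (4 * N)) (b.coeff (6 * N))) (pol a b) := by
  refine ⟨le_rfl, hN, h2, ⟨monic_pol _ _, hi, natDegree_pol _ _, ?_⟩,
    ⟨⟨monic_pol a b, natDegree_pol a b, ?_, ?_⟩, ?_, ?_, ?_⟩⟩
  · rw [coeff_pol]
    norm_num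
  · rw [coeff_pol]
    norm_num
  · intro j hj
    rw [coeff_pol]
    interval_cases j
    · norm_num
      omega
    · norm_num
      omega
    · norm_num
  · intro j hj
    rw [coeff_pol, coeff_pol]
    interval_cases j
    · norm_num
      congr 1
      ring
    · norm_num
      congr 1
      ring
    · norm_num
  · intro Q hQ
    exact absurd hQ (Finset.notMem_empty Q)
  · rw [dsc_pol]
    exact hs

theorem scale_pol (a b D : k[X]) : (pol a b).scaleRoots D = pol (a * D ^ 2) (b * D ^ 3) := by
  ext1 i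
  rw [coeff_scaleRoots, natDegree_pol, coeff_pol, coeff_pol]
  split_ifs with h1 h2 h3
  · rw [h1]; norm_num
  · rw [h2]
  · rw [h3]
  · rw [zero_mul]

theorem map_pol {S : Type} [CommRing S] (φ : R →+* S) (a b : R) :
    (pol a b).map φ = pol (φ a) (φ b) := by
  unfold pol
  simp

end Run7.h286.PL.Ell
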