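import Pool.Agent.Run7.h286.PL.AllE
import Pool.Agent.Run7.h286.PL.Core
import Pool.Agent.Run7.h212.PL.EXI
import Pool.Agent.Run7.h382.PL.K3
import Pool.Agent.Run7.h760.PL.K4
import Pool.Agent.Run7.h803.PL.K5
import Pool.Agent.Run7.h215.PL.K6
import Pool.Agent.Run7.h215.PL.TRU
import Pool.Agent.Run7.h270.PL.INF
import Pool.Agent.Run7.h270.PL.MWB
import Pool.Agent.Run7.h216.PL.MEA
import Pool.Agent.Run7.h216.PL.TRB
import Pool.Agent.Run7.h547.PL.OMG
import Pool.Agent.Run7.h547.PL.QID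

/-!
# Assembly of project PRL
-/

set_option autoImplicit false

open Polynomial
open Run7.h784.TG

namespace Run7.h286.PL

open Pool.Agent.N352.PJ (SelZero dsc)

theorem aEXI : P_EXI :=
  Run7.h212.PL.T_EXI aADP aBIL aLIN aUNI aAUX aLOCQ aGRP aREP

theorem fLAW : P_LAW := aLAW aEXI

theorem fINI : P_FINI := aFINI aEXI

theorem fINL : P_FINL := aFINL aEXI

theorem aK6 : Run7.h286.PLC.P_K6 :=
  Run7.h215.PLC.T_K6 Run7.h382.PL.T_K3 Run7.h760.PLC.k4
    (Run7.h803.K5.T_K5 Pool.Agent.N27.JB.Lpn.lpn Pool.Agent.N615.JB.dbl)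

theorem fTRU : Run7.h286.PLC.P_TRU :=
  Run7.h215.PLC.T_TRU aK6 Run7.h270.PL.T_INF Run7.h270.PL.MWB.T_MWB aLOCW aGRP aREP

theorem fZER (k : Type) [Field k] [Finite k] (g N : ℕ) (r : k[X]) (f : k[X][X])
    (hf : Fm g N r f) (K : Type) [Field K] [Algebra k[X] K] [IsFractionRing k[X] K] (D : k[X])
    (hDm : D.Monic) (hDs : Squarefree D) (hDc : IsCoprime D (dsc g f))
    (h0 : rkJ K (f.scaleRoots D) = 0) : SelZero K (f.scaleRoots D) :=
  selZero_of_rkJ aBRG aEQ1 aEQ2 aREP aGRP aCONC hf K hDm hDs hDc h0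

/-- From the piece NTM: the means of all functions of exponential growth. -/
theorem fMEA (h : P_NTM) : P_FINM :=
  T_FINM (Run7.h216.PL.T_MEA fLAW h Run7.h547.PL.qid.1) aBRG aEQ1 aEQ2 Run7.h781.TG.T_FULL

end Run7.h286.PL
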