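import Pool.Agent.Run7.h286.PL.Def

/-!
# Project PRL (helper286): statements of the pieces, algebraic side

Every piece is a `def P_X : Prop`; please prove `theorem T_X : P_X` (or `T_X (h : P_Y) .. : P_X` with the
dependencies named in the docstring) in `Pool/Agent/Run7/h<you>/PL/X.lean`.
`n = 2 g + 1` throughout. All pieces of project TG are proved (table `h784_tg` has the names), they
may be used as hypotheses or directly.
-/

set_option autoImplicit false
set_option linter.all false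

open Polynomial IsDedekindDomain
open scoped Classical

namespace Run7.h286.PL

open Pool.Agent.N874.PP (Ov Ev Sq1)
open Pool.Agent.N352.PJ (IsGen Crd LocIm SelZero Fam GoodR Ht dsc)
open Run7.h875.TS (chi cd IsPC GSq irrD dg NRs uT sqf prD sqL sz Tr)
open Run7.h784.TG

/-- **ADP** (about 400 lines). Adapted factorisations at a prime `Q ∤ dsc`; `cls` is the class of `LocW`.

Proof. (1) Let `T` be the set of the `𝔓` over `Q` where `x` is odd, `a` a lift of the product of the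
irreducible factors of `f` modulo `Q` which belong to the `𝔓` in `T` (`LocA`, `LocB` of h646/TG: `fs`,
`PF`, `ex_prime`, `prime_fac`), `b` the rest. `deg a` is even: it is `∑_{T} [residue degree]`, and the valuation
of the norm of `x` at `Q` is `∑_𝔓 deg(𝔓) v_𝔓(x)`; or: divide `x` by elements with even valuations and use
`Run7.h811.TG.IDG.exact_norm` (`ζ` with valuation one at the `𝔓` in `T`, zero at the others has norm
`Q ^ (deg a)` times a unit at `Q`; there `A`, `B` exchange roles).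
(2) Even valuation: `cls` has valuation `1` (`Q w b(θ)`) at the `𝔓` in `T`, `0` at the others. Parity: let
`f = a b + Q c`; as `a`, `b` are coprime modulo `Q`, `a` and `b` can be changed by multiples of `Q` (this
does not change the classes, see (3)) so that `c ≡ w` modulo `Q`. Then `a(θ) b(θ) = - Q c(θ)`, so `a(θ)` has the
class of `- Q w b(θ)` at the `𝔓` in `T`: `cls ~ a(θ)` at ALL `𝔓` over `Q`. The norm of `a(θ)` is
`∏_{a(τ) = 0} f(τ)` (resultant, `deg a` is even) `= ∏_{a(τ)=0} Q c(τ) = (Q w) ^ (deg a) (1 + Q ..)`, so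
`s = x a(θ)` is even at all `𝔓` over `Q` and its norm is a square times an element of `1 + Q k[X]_Q`; the proof of
LOCQ (4) (`Run7.h646.TG.LOCQ.parity`: the norm of a unit `s` modulo `Q` is the product of the norms of its
residue classes) works for such a norm.
(3) This is the computation in `Run7.h779.TG.locW_mul` (GRP): the odd set of `x y` is the symmetric
difference, `a'' ≡ a a' / gcd(a, a') ^ 2` modulo `Q`, and `cls cls' cls''` is a square times `1 + ..` in all four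
cases; all three products `x cls`, .. are even, then `Pool.Agent.N539.PP.sq1_mul_iff`. (With `y = 1`,
`a' = 1`, `b' = f` this is the independence of the choice of `a`, `b`.)
(4) LOCQ (3): `a(θ)` is a unit at `𝔓` or in `𝔓`; if `x * cls` is a square at `𝔓` then `x` is odd at the `𝔓` in
`T` and even at the others. (5) `c` = residue degrees over `Q`, see (1). -/
def P_ADP : Prop := ∀ (k K L O : Type) [Field k] [Finite k] [Field K] [Algebra k[X] K]
  [IsFractionRing k[X] K]
  [Field L] [Algebra K L] [Algebra k[X] L] [IsScalarTower k[X] K L] [CommRing O]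
  [IsDedekindDomain O] [Algebra O L] [IsFractionRing O L] [Algebra k[X] O]
  [IsScalarTower k[X] O L] [IsIntegralClosure O k[X] L] (g N : ℕ) (r : k[X]) (f : k[X][X]) (θ : L),
  Fm g N r f → IsGen g K f θ →
  ∀ Q : k[X], Q.Monic → Irreducible Q → ¬ Q ∣ dsc g f → ∀ w : k[X], ¬ Q ∣ w →
  (∀ x : L, x ≠ 0 → IsSquare (Algebra.norm K x) → ∃ a b : k[X][X], Adp O f θ Q x a b) ∧
  (∀ (x : L) (a b : k[X][X]), x ≠ 0 → IsSquare (Algebra.norm K x) → Adp O f θ Q x a b →
    (∀ 𝔓 : HeightOneSpectrum O, Ov Q 𝔓 → Ev 𝔓 (x * cls θ (Q * w) 𝔓 a b)) ∧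
    Even {𝔓 : HeightOneSpectrum O | Ov Q 𝔓 ∧ ¬ Sq1 𝔓 (x * cls θ (Q * w) 𝔓 a b)}.ncard) ∧
  (∀ (x y : L) (a b a' b' a'' b'' : k[X][X]), x ≠ 0 → y ≠ 0 →
    Adp O f θ Q x a b → Adp O f θ Q y a' b' → Adp O f θ Q (x * y) a'' b'' →
    ∀ 𝔓 : HeightOneSpectrum O, Ov Q 𝔓 →
      (Sq1 𝔓 (x * y * cls θ (Q * w) 𝔓 a'' b'') ↔
        (Sq1 𝔓 (x * cls θ (Q * w) 𝔓 a b) ↔ Sq1 𝔓 (y * cls θ (Q * w) 𝔓 a' b')))) ∧
  (∀ x : L, x ≠ 0 → (LocW O f θ Q (Q * w) x ↔ ∃ a b : k[X][X], Adp O f θ Q x a b ∧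
    ∀ 𝔓 : HeightOneSpectrum O, Ov Q 𝔓 → Sq1 𝔓 (x * cls θ (Q * w) 𝔓 a b))) ∧
  (∃ c : HeightOneSpectrum O → ℕ, ∑ᶠ 𝔓 ∈ {𝔓 : HeightOneSpectrum O | Ov Q 𝔓}, c 𝔓 = 2 * g + 1 ∧
    ∀ x : L, x ≠ 0 → IsSquare (Algebra.norm K x) →
      Even (∑ᶠ 𝔓 ∈ {𝔓 : HeightOneSpectrum O | Ov Q 𝔓 ∧ ¬ Ev 𝔓 x}, c 𝔓))

/-- **BIL** (about 300 lines, from ADP and `Run7.h286.TG.recg` (with `Run7.h811.TG.glg'`), see the end of
Run7/h286/TG/REC.lean for the use of `recg`). The quadratic and the bilinear reciprocity law.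

Proof. The first part is `recg` for `α = x`, `T` the set of the `𝔓` over the `P` in `S₁` where `x` is odd (`𝔓` lies
over exactly one `P` in `S₁`, so the number in `recg` is the sum over `P`); it is trivial for `S₁ = ∅`. The
second part: apply the first part to `x` and to `s * x`. At the `P` in `S`: `s` satisfies `LocW`, so by ADP (3), (4)
`x cls` and `s x cls''` are squares at the same `𝔓`, and `s x` is odd at `𝔓` iff exactly one of `s`, `x` is. At the `P`
in `S₁ \ S`: `s` is even, the same `a`, `b` are adapted to `s x`, and `s x cls` is a square iff (`x cls` is iff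
`s` is). Add the two sums modulo two. -/
def P_BIL : Prop := ∀ (k K L O : Type) [Field k] [Finite k] [Field K] [Algebra k[X] K]
  [IsFractionRing k[X] K]
  [Field L] [Algebra K L] [Algebra k[X] L] [IsScalarTower k[X] K L] [CommRing O]
  [IsDedekindDomain O] [Algebra O L] [IsFractionRing O L] [Algebra k[X] O]
  [IsScalarTower k[X] O L] [IsIntegralClosure O k[X] L] (g N : ℕ) (r : k[X]) (f : k[X][X]) (θ : L),
  Fm g N r f → IsGen g K f θ →
  ∀ (S₁ : Finset k[X]) (u : k[X] → k[X]), GoodT g f S₁ u → ∀ (x : L) (a b : k[X] → k[X][X]),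
  RelC O K S₁ x → (∀ P ∈ S₁, Adp O f θ P x (a P) (b P)) →
  Even (∑ P ∈ S₁, {𝔓 : HeightOneSpectrum O | Ov P 𝔓 ∧ ¬ Ev 𝔓 x ∧
    ¬ Sq1 𝔓 (x * cls θ (P * u P) 𝔓 (a P) (b P))}.ncard) ∧
  ∀ S : Finset k[X], S ⊆ S₁ → ∀ s : L, SelC O K f θ S u s →
    Even (∑ P ∈ S, {𝔓 : HeightOneSpectrum O | Ov P 𝔓 ∧ ¬ Ev 𝔓 s ∧
        ¬ Sq1 𝔓 (x * cls θ (P * u P) 𝔓 (a P) (b P))}.ncard +
      ∑ P ∈ S₁ \ S, {𝔓 : HeightOneSpectrum O | Ov P 𝔓 ∧ ¬ Ev 𝔓 x ∧ ¬ Sq1 𝔓 s}.ncard)

/-- **LIN** (about 150 lines, compare Run7/h779/TG/Lin.lean: `exists_image`, `orth_rank`). Linear algebra.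

Proof. `W₁` = image of `R` under `Λ`, `W₂` = image of `H` under `m`, `W₃` = the span of the vectors
`c_b = c` on the block `b`, `0` outside, of dimension `|β|`. `W₂ ⊓ W₃ = 0` and both are orthogonal to `W₁`, so
`dim W₁ + dim W₂ ≤ |ι| - |β|`. `[R : M] ≤ 2 ^ dim W₁`, `[H : sq] ≤ 2 ^ dim W₂`. -/
def P_LIN : Prop := ∀ (A : Type) [CommGroup A] (ι β : Type) [Fintype ι] [Fintype β]
  (sq H R M : Subgroup A) (Λ m : A → ι → ZMod 2) (π : ι → β) (c : ι → ZMod 2),
  sq ≤ H → sq ≤ M → M ≤ R → sq.relIndex R ≠ 0 → sq.relIndex H ≠ 0 →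
  (∀ x ∈ R, ∀ y ∈ R, Λ (x * y) = Λ x + Λ y) → (∀ x ∈ R, Λ x = 0 → x ∈ M) →
  (∀ x ∈ H, ∀ y ∈ H, m (x * y) = m x + m y) → (∀ x ∈ sq, m x = 0) →
  (∀ b : β, ∃ i, π i = b ∧ c i ≠ 0) →
  (∀ x ∈ R, ∀ b : β, ∑ i ∈ Finset.univ.filter (fun i => π i = b), c i * Λ x i = 0) →
  (∀ s ∈ H, ∀ x ∈ R, ∑ i, m s i * Λ x i = 0) →
  (∀ s ∈ H, ∀ t : β → ZMod 2, (∀ i, m s i = t (π i) * c i) → s ∈ sq) →
  sq.relIndex R * sq.relIndex H ≤ 2 ^ (Fintype.card ι - Fintype.card β) * sq.relIndex M

/-- **UNI** (about 450 lines). Many classes with even valuations outside `S` (units and class group).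

Proof. The group `E` of all `α ≠ 0` which are even outside `S` (no condition on the norm): the map
`α ↦` (valuations modulo 2 at the `r` primes over `S`) has as image the kernel of
`F_2 ^ r → Cl(O) / 2 Cl(O)`, `(e_𝔓) ↦ ∏ 𝔓 ^ e_𝔓`, of order `≥ 2 ^ r / |Cl / 2 Cl|`, and its kernel
`{(α) = 𝔟 ^ 2}` maps onto `Cl(O)[2]`, `α ↦ 𝔟`; in the kernel of this are the squares and the nonsquare
constants (`ν` in `k` is not a square in `L`, `n` is odd). `Cl(O)` is finite (Mathlib: class numbers of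
function fields, or search the tree for `ClassGroup` / `Finite (ClassGroup`), so
`|Cl / 2 Cl| = |Cl[2]|` and `[E : squares] ≥ 2 ^ (r + 1)` (or infinite). The norm maps `E` to the classes
in `K` which are even outside `S`: at most `2 ^ (1 + |S|)` classes modulo squares. So the subgroup `RelG`
has index at least `2 ^ (r + 1 - 1 - |S|)`. Finite: REP (its second half) for `S = ∅` (`SelC .. ∅ u` is
`RelC ∅`), and `RelG S` modulo `RelG ∅` embeds in `F_2 ^ r`. `nr O P ≥ 1`. -/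
def P_UNI : Prop := ∀ (k K L O : Type) [Field k] [Finite k] [Field K] [Algebra k[X] K]
  [IsFractionRing k[X] K]
  [Field L] [Algebra K L] [Algebra k[X] L] [IsScalarTower k[X] K L] [CommRing O]
  [IsDedekindDomain O] [Algebra O L] [IsFractionRing O L] [Algebra k[X] O]
  [IsScalarTower k[X] O L] [IsIntegralClosure O k[X] L] (g N : ℕ) (r : k[X]) (f : k[X][X]) (θ : L),
  Fm g N r f → IsGen g K f θ →
  ∀ S : Finset k[X], (∀ P ∈ S, P.Monic ∧ Irreducible P) →
  (∀ α : Lˣ, α ∈ (RelG O K S : Subgroup Lˣ) ↔ RelC O K S (α : L)) ∧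
    sqL L ≤ (RelG O K S : Subgroup Lˣ) ∧ sz (RelG O K S : Subgroup Lˣ) ≠ 0 ∧
    2 ^ (∑ P ∈ S, (nr O P - 1)) ≤ sz (RelG O K S : Subgroup Lˣ)

/-- **AUX** (about 150 lines, from KILL and REP). Finitely many primes at which all everywhere even
classes are detected.

Proof. `RelC ∅` is `SelC` for `S = ∅`: finitely many classes modulo squares (REP), so finitely many
representatives with coordinates (`Crd`) of bounded degree; by KILL every nonsquare one is not trivial
at some prime `Q` of every large degree (`KILL` gives a positive number for `m` large). Choose the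
degrees larger than those of the elements of `S`. -/
def P_AUX : Prop := ∀ (k K L O : Type) [Field k] [Finite k] [Field K] [Algebra k[X] K]
  [IsFractionRing k[X] K]
  [Field L] [Algebra K L] [Algebra k[X] L] [IsScalarTower k[X] K L] [CommRing O]
  [IsDedekindDomain O] [Algebra O L] [IsFractionRing O L] [Algebra k[X] O]
  [IsScalarTower k[X] O L] [IsIntegralClosure O k[X] L] (g N : ℕ) (r : k[X]) (f : k[X][X]) (θ : L),
  Fm g N r f → Full f → IsGen g K f θ → ∀ S : Finset k[X],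
  ∃ A : Finset k[X], (∀ P ∈ A, P.Monic ∧ Irreducible P ∧ ¬ P ∣ dsc g f ∧ P ∉ S) ∧
    ∀ α : L, RelC O K (∅ : Finset k[X]) α → (∀ P ∈ A, Tr O P α) → IsSquare α

/-- **EXI** (about 400 lines, from ADP, BIL, LIN, UNI, AUX, LOCQ, GRP, REP). The group `M` of the elements
with the Selmer conditions at all places but `Q` is large.

Proof. `A` as in AUX for `insert Q S`, `S₁ = insert Q (S ∪ A)`, extended by `u = 1` on `A ∪ {Q}` (`P ∤ 1`).
Apply LIN with `sq = sqL L`, `H = SelG S u ⊓ T`, `R = RelG S₁`, `M' =` {`x` in `R` with `LocW` at the `P` in `S`, even at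
the `P` in `A`} `≤ M`, `ι` the primes over `S ∪ A`, `β = S ∪ A`, `Λ(x)_𝔓 = 1` iff `x * cls` is not a square at `𝔓`
(for `P` in `S`, with an adapted factorisation chosen for each `x`), iff `x` is odd at `𝔓` (for `P` in `A`);
`m(s)_𝔓 = 1` iff `s` is odd at `𝔓` (`P` in `S`), iff `s` is not a square at `𝔓` (`P` in `A`); `c = 1` for `P` in `S`,
`c_𝔓` that of ADP (5) modulo 2 for `P` in `A`. The conditions: ADP (2) (parity for `P` in `S`); ADP (5) (`P` in
`A`; some `c_𝔓` is odd as `n` is); BIL (the term of `Q` vanishes as `s` is trivial at `Q`). If `m(s) = t c`: for `P` in `S`, `s` is odd at all or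
none of the `𝔓` over `P`, by LOCQ (5) at none; for `P` in `A`: LOCQ (4) says `∑ m(s)_𝔓 = 0`, so `t ∑ c = 0`,
`t = 0`. So `s` is even everywhere and trivial at the `P` in `A`: a square by AUX. Result:
`sz R * sz H ≤ 2 ^ (∑_{S ∪ A} (nr - 1)) sz M'`, and `sz R ≥ 2 ^ (∑_{S₁} (nr - 1))` by UNI. -/
def P_EXI : Prop := ∀ (k K L O : Type) [Field k] [Finite k] [Field K] [Algebra k[X] K]
  [IsFractionRing k[X] K]
  [Field L] [Algebra K L] [Algebra k[X] L] [IsScalarTower k[X] K L] [CommRing O]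
  [IsDedekindDomain O] [Algebra O L] [IsFractionRing O L] [Algebra k[X] O]
  [IsScalarTower k[X] O L] [IsIntegralClosure O k[X] L] (g N : ℕ) (r : k[X]) (f : k[X][X]) (θ : L),
  Fm g N r f → Full f → IsGen g K f θ →
  ∀ (S : Finset k[X]) (u : k[X] → k[X]), GoodT g f S u →
  ∀ Q : k[X], Q.Monic → Irreducible Q → Q ∉ S → ¬ Q ∣ dsc g f →
  ∃ T M : Subgroup Lˣ, (∀ α : Lˣ, α ∈ T ↔ Tr O Q (α : L)) ∧
    (∀ α : Lˣ, α ∈ M ↔ (RelC O K (insert Q S) (α : L) ∧
      ∀ P ∈ S, LocW O f θ P (P * u P) (α : L))) ∧ sqL L ≤ M ∧ sz M ≠ 0 ∧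
    2 ^ (nr O Q - 1) * sz (SelG O K f θ S u ⊓ T) ≤ sz M

/-- **EXS** (about 300 lines, from EXI, STEP, BIL, ADP, LOCQ, GRP, REP). The exact effect of one more prime.

Proof. `nr = 1`: `≤` is in STEP; an element of `SelG S u` is even at the only prime over `Q`, so by LOCQ (4) it is
a square there, `LocW` holds with `a = 1`, `b = f`.
`nr = 2`, `G = SelG S u ≤ T`: STEP gives `sz G' ≤ 2 sz G`, and `G ≤ G'` (`a = 1`). By EXI there is `x` in `M`, not in
`G`; it is odd at some `𝔓` over `Q`, so it has `a`, `b` adapted to `x` at `Q` with `deg a` even, positive, less than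
`n`: exactly one `𝔓₂` with `a(θ)` in `𝔓₂`. BIL (first part, for `insert Q S`, `update u Q w`; the terms of `P` in `S`
vanish, ADP (4)) says that `x cls` is a square at `𝔓₂`, and ADP (2) then gives the other prime. So `x` is in
`G'`, `G < G'`; the index `sz G' / sz G` is at least two (`Subgroup.relIndex` of a proper subgroup).
`nr = 2`, not `G ≤ T`: STEP: `sz G ≤ 2 sz (G ⊓ T)`, so `= ` (as `G ⊓ T < G`), `sz G' sz G ≤ 2 sz (G ⊓ T) ^ 2`, so
`2 sz G' ≤ sz G`; and `G ⊓ T ≤ G'`. -/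
def P_EXS : Prop := ∀ (k K L O : Type) [Field k] [Finite k] [Field K] [Algebra k[X] K]
  [IsFractionRing k[X] K]
  [Field L] [Algebra K L] [Algebra k[X] L] [IsScalarTower k[X] K L] [CommRing O]
  [IsDedekindDomain O] [Algebra O L] [IsFractionRing O L] [Algebra k[X] O]
  [IsScalarTower k[X] O L] [IsIntegralClosure O k[X] L] (g N : ℕ) (r : k[X]) (f : k[X][X]) (θ : L),
  Fm g N r f → Full f → IsGen g K f θ →
  ∀ (S : Finset k[X]) (u : k[X] → k[X]), GoodT g f S u →
  ∀ Q : k[X], Q.Monic → Irreducible Q → Q ∉ S → ¬ Q ∣ dsc g f → ∀ w : k[X], ¬ Q ∣ w →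
  (nr O Q = 1 →
    SelG O K f θ (insert Q S) (Function.update u Q w) = SelG O K f θ S u) ∧
  (nr O Q = 2 → (∀ α ∈ SelG O K f θ S u, Tr O Q (α : L)) →
    sz (SelG O K f θ (insert Q S) (Function.update u Q w)) = 2 * sz (SelG O K f θ S u)) ∧
  (nr O Q = 2 → ¬ (∀ α ∈ SelG O K f θ S u, Tr O Q (α : L)) →
    2 * sz (SelG O K f θ (insert Q S) (Function.update u Q w)) = sz (SelG O K f θ S u))

/-- **POW** (about 60 lines). The order of a finite Selmer group is a power of two. (`G / squares` is killed by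
two: `IsPGroup`, `IsPGroup.iff_card`.) -/
def P_POW : Prop := ∀ (L : Type) [Field L] (G : Subgroup Lˣ), sqL L ≤ G → sz G ≠ 0 →
  sz G = 2 ^ ld G

end Run7.h286.PL
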