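import Pool.Agent.Run7.h286.PL.FIN
import Pool.Agent.Run7.h784.TG.All
import Pool.Agent.Run7.h847.PL.ADPC
import Pool.Agent.Run7.h957.PL.AuxP
import Pool.Agent.Run7.h212.PL.BIL
import Pool.Agent.Run7.h502.PL.UNI
import Pool.Agent.Run7.h711.PL.LIN
import Pool.Agent.Run7.h957.PL.EXS
import Pool.Agent.Run7.h957.PL.S1
import Pool.Agent.Run7.h908.PL.S0
import Pool.Agent.Run7.h908.PL.KILL2
import Pool.Agent.Run7.h908.PL.LAST2
import Pool.Agent.Run7.h908.PL.NAT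
import Pool.Agent.Run7.h704.PL.REM
import Pool.Agent.Run7.h704.PL.RAN
import Pool.Agent.Run7.h160.PL.MC
import Pool.Agent.Run7.h160.PL.NUM
import Pool.Agent.Run7.h303.PL.STP
import Pool.Agent.Run7.h303.PL.ITRb
import Pool.Agent.Run7.h303.PL.LAW
import Pool.Agent.Run7.h824.PL.FF
import Pool.Agent.Run7.h824.PL.HFC
import Pool.Agent.Run7.h209.PL.EQ1
import Pool.Agent.Run7.h711.PL.BRG
import Pool.Agent.Run7.h711.PL.EQ2

/-!
# Assembly of project PRL (from the piece EXI)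
-/

set_option autoImplicit false

open Polynomial
open Run7.h784.TG

namespace Run7.h286.PL

theorem aADP : P_ADP := Run7.h847.PL.T_ADP

theorem aKILL2 : P_KILL2 :=
  Run7.h908.PL.T_KILL2 aW Run7.h760.TG.stk aDIC Run7.h779.TG.T_COMB

theorem aLAST2 : P_LAST2 :=
  Run7.h908.PL.T_LAST2 aW aDIC Run7.h779.TG.T_COMB Run7.h760.TG.stk

theorem aAUX : P_AUX := Run7.h957.PL.T_AUX (aKILL aW) aREP

theorem aBIL : P_BIL := Run7.h212.PL.T_BIL aADP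

theorem aUNI : P_UNI := Run7.h502.PL.T_UNI

theorem aLIN : P_LIN := Run7.h711.PL.T_LIN

theorem aPOW : P_POW := Run7.h711.PL.T_POW

theorem aEQ1 : P_EQ1 := Run7.h209.PL.T_EQ1 Run7.h824.PL.T_FF Run7.h824.PL.T_HSQ

theorem aEQ2 : P_EQ2 := Run7.h711.PL.T_EQ2

theorem aLOCW : P_LOCW := Pool.Agent.Run7.h711.TG.T_LOCW Run7.h81.TG.e3

theorem aBRG : P_BRG := Run7.h711.PL.T_BRG aLOCW aGRP aREP

theorem aEXS (hE : P_EXI) : P_EXS :=
  Run7.h957.PL.T_EXS hE aSTEP aBIL aADP aLOCQ aGRP aREP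

theorem aS1 (hE : P_EXI) : P_S1 :=
  Run7.h957.PL.T_S1 aKILL2 aLAST2 (aEXS hE) aPOW aSTEP aREP aGRP

theorem aS0 (hE : P_EXI) : P_S0 := Run7.h908.PL.T_S0 aLAST2 aCLSU (aEXS hE)

theorem aNAT (hE : P_EXI) : P_NAT :=
  Run7.h908.PL.T_NAT (aS0 hE) (aS1 hE) Run7.h704.PL.T_REM Run7.h704.PL.T_RAN Run7.h704.PL.T_DIV

theorem aSTP (hE : P_EXI) : P_STP := Run7.h303.PL.T_STP (aS1 hE) Run7.h704.PL.T_REM

theorem aITR (hE : P_EXI) : P_ITR :=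
  Run7.h303.PL.T_ITR (aSTP hE) Run7.h160.PL.mc (aAVG aW) Run7.h704.PL.T_RAN aKILL2 aLAST2

theorem aLAW (hE : P_EXI) : P_LAW := Run7.h303.PL.T_LAW (aNAT hE) (aITR hE)

theorem aFINI (hE : P_EXI) : P_FINI :=
  T_FINI (aLAW hE) aBRG Run7.h781.TG.T_FULL aREP aGRP aCONC

theorem aFINL (hE : P_EXI) : P_FINL :=
  T_FINL (aLAW hE) aBRG aEQ1 aEQ2 Run7.h781.TG.T_FULL

end Run7.h286.PL
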