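import Pool.Agent.Run7.h784.TG.StmA

/-!
# Project PRL: the exact law of the 2-Selmer ranks in the families of project TG: definitions

Project PRL (helper286). `k` is a finite field of odd characteristic, `K = Frac k[X]`, `L = K(θ)` of
degree `n = 2 g + 1`, `f(θ) = 0`, `f` in the family `Fm` of project TG (helper784), `O` the integral
closure of `k[X]` in `L`.
-/

set_option autoImplicit false
set_option linter.all false

open Polynomial IsDedekindDomain
open scoped Classical

namespace Run7.h286.PL

open Pool.Agent.N874.PP (Ov Ev Sq1)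
open Pool.Agent.N352.PJ (IsGen Crd LocIm SelZero Fam GoodR Ht dsc)
open Run7.h875.TS (chi cd IsPC GSq irrD dg NRs uT sqf prD sqL sz Tr)
open Run7.h784.TG

section sel

variable {k L : Type} [Field k] [Field L] [Algebra k[X] L] (O : Type) [CommRing O]
  [IsDedekindDomain O] [Algebra O L] [IsFractionRing O L] [Algebra k[X] O]

/-- Square norm and even valuations outside `S`. -/
structure RelC (K : Type) [Field K] [Algebra K L] (S : Finset k[X]) (α : L) : Prop where
  ne : α ≠ 0
  nsq : IsSquare (Algebra.norm K α)
  ev : ∀ P : k[X], P.Monic → Irreducible P → P ∉ S → ∀ 𝔓 : HeightOneSpectrum O, Ov P 𝔓 → Ev 𝔓 α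

/-- The group of these elements (it contains the squares). -/
def RelG (K : Type) [Field K] [Algebra K L] (S : Finset k[X]) : Subgroup Lˣ :=
  Subgroup.closure {α : Lˣ | RelC O K S (α : L)}

/-- The factorisation `f ≡ a b` modulo `P` which is adapted to `x`: `a(θ)` is in `𝔓` if and only if `x` is
odd at `𝔓`. -/
structure Adp (f : k[X][X]) (θ : L) (P : k[X]) (x : L) (a b : k[X][X]) : Prop where
  am : a.Monic
  bm : b.Monic
  ae : Even a.natDegree
  cong : ∀ j, P ∣ (f - a * b).coeff j
  odd : ∀ 𝔓 : HeightOneSpectrum O, Ov P 𝔓 →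
    (𝔓.valuation L (eval₂ (algebraMap k[X] L) θ a) < 1 ↔ ¬ Ev 𝔓 x)

variable {O}

/-- The class of `LocW` at `𝔓` for the factorisation `a b`, for the twist by `D`. -/
noncomputable def cls (θ : L) (D : k[X]) (𝔓 : HeightOneSpectrum O) (a b : k[X][X]) : L :=
  if 𝔓.valuation L (eval₂ (algebraMap k[X] L) θ a) < 1 then
    algebraMap k[X] L (-D) * eval₂ (algebraMap k[X] L) θ b
  else eval₂ (algebraMap k[X] L) θ a

/-- The dimension of the Selmer group: binary logarithm of its order modulo squares. -/
noncomputable def ld (G : Subgroup Lˣ) : ℕ := Nat.log 2 (sz G)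

end sel

/-! ### Densities and the Markov chain -/

/-- The density of the primes with `nr = 1`. -/
noncomputable def del0 (g : ℕ) : ℝ := 1 / (2 * g + 1)

/-- The density of the primes with `nr = 2`. -/
noncomputable def del1 (g : ℕ) : ℝ :=
  ∑ e ∈ Finset.Icc 1 g, 1 / ((2 * e : ℝ) * (2 * g + 1 - 2 * e))

/-- The weights of the limit law. -/
noncomputable def wt (d : ℕ) : ℝ := ∏ i ∈ Finset.range d, (2 : ℝ) / (2 ^ (i + 1) - 1)

/-- The expectation of `φ` for the limit law. -/
noncomputable def Lw (φ : ℕ → ℝ) : ℝ := (∑' d, wt d * φ d) / ∑' d, wt d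

/-- The transition operator: `d ↦ d + 1` with probability `2 ^ (-d)`, otherwise `d ↦ d - 1`. -/
noncomputable def Mk (φ : ℕ → ℝ) (d : ℕ) : ℝ :=
  (1 / 2 : ℝ) ^ d * φ (d + 1) + (1 - (1 / 2 : ℝ) ^ d) * φ (d - 1)

/-- The lazy transition operator. -/
noncomputable def Mz (ρ : ℝ) (φ : ℕ → ℝ) (d : ℕ) : ℝ := (1 - ρ) * φ d + ρ * Mk φ d

/-! ### Averages -/

section av

variable {k L : Type} [Field k] [Field L] [Algebra k[X] L] (O : Type) [CommRing O]
  [IsDedekindDomain O] [Algebra O L] [IsFractionRing O L] [Algebra k[X] O]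

/-- The average of `φ (dimension)` over all choices of the local classes at the primes in `S`. -/
noncomputable def av (K : Type) [Field K] [Algebra K L] (f : k[X][X]) (θ : L) (nrs : k[X] → k[X])
    (φ : ℕ → ℝ) (S : Finset k[X]) : ℝ :=
  (1 / 2 : ℝ) ^ S.card * ∑ T ∈ S.powerset, φ (ld (SelG O K f θ S (uT nrs T)))

/-- The dimension of the Selmer group of the twist by `D`. -/
noncomputable def dimS (K : Type) [Field K] [Algebra K L] (f : k[X][X]) (θ : L) (D : k[X]) : ℕ :=
  ld (SelG O K f θ (prD D) (fun P => D / P))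

/-- The number of the primes `Q` dividing `D` of degree greater than `M` with `nr Q ≤ l`. -/
noncomputable def bD (l M : ℕ) (D : k[X]) : ℕ :=
  ((prD D).filter fun Q => nr O Q ≤ l ∧ M < Q.natDegree).card

end av

/-- The monic squarefree polynomials of degree `N` prime to `B`, as a finite set. -/
noncomputable def sqF {k : Type} [Field k] (B : k[X]) (N : ℕ) : Finset k[X] :=
  if h : (sqf B N).Finite then h.toFinset else ∅

/-- The descending factorial weights `1 / ((b + i) .. (b + 1))` for `b + i ≥ B₁`. -/
noncomputable def wD (B₁ i b : ℕ) : ℝ :=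
  if B₁ ≤ b + i then 1 / ((b + i).descFactorial i : ℝ) else 0

/-! ### The 2-Selmer group -/

section true

variable {k : Type} [Field k]

/-- The 2-Selmer group of the Jacobian of `y ^ 2 = f(x)`, `f` monic of odd degree over `k[X]`, as a
subgroup of `K[x] / (f)` (it contains the squares): the `α` with square norm whose class is the image of
a point over the completion at `v` for all finite places `v`. (There is no condition at infinity.) -/
noncomputable def SelJ (K : Type) [Field K] [Algebra k[X] K] [IsFractionRing k[X] K] (f : k[X][X]) :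
    Subgroup (AdjoinRoot (f.map (algebraMap k[X] K)))ˣ :=
  Subgroup.closure {α | IsSquare (Algebra.norm K (α : AdjoinRoot (f.map (algebraMap k[X] K)))) ∧
    ∃ h : K[X], AdjoinRoot.mk (f.map (algebraMap k[X] K)) h = α ∧
      ∀ v : HeightOneSpectrum k[X], LocIm v f h}

/-- The dimension of the 2-Selmer group of the Jacobian of `y ^ 2 = f(x)`. -/
noncomputable def rkJ (K : Type) [Field K] [Algebra k[X] K] [IsFractionRing k[X] K] (f : k[X][X]) :
    ℕ :=
  Nat.log 2 (((powMonoidHom 2 : (AdjoinRoot (f.map (algebraMap k[X] K)))ˣ →* _).range).relIndex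
    (SelJ K f))

end true

end Run7.h286.PL
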