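import Pool.Agent.Run7.h286.PL.SelDef
import Pool.Agent.Run7.h286.PL.Ell
import Pool.Agent.N415.PJ.MAIN
import Pool.Agent.N615.JM.FamT2
import Pool.Agent.N738.PJ.Exs

/-!
# The law and all the moments of the 2-Selmer groups of the quadratic twists of an elliptic curve
over `k(t)` (project PRL, the case `g = 1` in terms of `a`, `b`)
-/

set_option autoImplicit false
set_option linter.all false

namespace Run7.h286.EllLaw

open Polynomial Filter IsDedekindDomain
open scoped Classical Topology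
open Run7.h286.SelDef (Selmer selmerRank Meaning)

section defs

variable {k : Type} [Field k]

/-- `deg a ≤ 4 N`, `deg b ≤ 6 N`. -/
def HasHeight (N : ℕ) (a b : k[X]) : Prop := a.natDegree ≤ 4 * N ∧ b.natDegree ≤ 6 * N

/-- The family of the curves `y ^ 2 = x ^ 3 + a x + b`: squarefree discriminant, irreducible reduction at
infinity. -/
structure InFamily (N : ℕ) (a b : k[X]) : Prop where
  height : HasHeight N a b
  squarefree : Squarefree (4 * a ^ 3 + 27 * b ^ 2)
  inert : Irreducible (X ^ 3 + C (a.coeff (4 * N)) * X + C (b.coeff (6 * N)))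

/-- The squarefree polynomials `D` of degree `m` with leading coefficient `u`, prime to the
discriminant. -/
def Twists (a b : k[X]) (u : k) (m : ℕ) : Set k[X] :=
  {D | D.leadingCoeff = u ∧ D.natDegree = m ∧ Squarefree D ∧ IsCoprime D (4 * a ^ 3 + 27 * b ^ 2)}

variable (K : Type) [Field K] [Algebra k[X] K] [IsFractionRing k[X] K]

/-- The quadratic twist `D y ^ 2 = x ^ 3 + a x + b`, in the form `y ^ 2 = x ^ 3 + a D ^ 2 x + b D ^ 3`. -/
noncomputable def twist (a b D : k[X]) : K[X] :=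
  X ^ 3 + C (algebraMap k[X] K (a * D ^ 2)) * X + C (algebraMap k[X] K (b * D ^ 3))

end defs

/-- The law of Poonen and Rains. -/
noncomputable def prob (d : ℕ) : ℝ :=
  (∏' j : ℕ, (1 + (1 / 2 : ℝ) ^ j))⁻¹ * ∏ i ∈ Finset.range d, (2 : ℝ) / (2 ^ (i + 1) - 1)

section statements

variable {k : Type} [Field k] (K : Type) [Field K] [Algebra k[X] K] [IsFractionRing k[X] K]

/-- The mean of `F` over the twists of degree `m` tends to `l`. -/
def MeanTendsTo (a b : k[X]) (u : k) (F : k[X] → ℝ) (l : ℝ) : Prop :=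
  Tendsto (fun m => (∑ᶠ D ∈ Twists a b u m, F D) / ((Twists a b u m).ncard : ℝ)) atTop (𝓝 l)

/-- The 2-Selmer group has order `2 ^ d` for the proportion `prob d` of the twists. -/
def HasLaw (a b : k[X]) (u : k) : Prop :=
  ∀ d : ℕ, Tendsto (fun m => (({D ∈ Twists a b u m | Nat.card (Selmer k (twist K a b D)) = 2 ^ d} :
    Set k[X]).ncard : ℝ) / ((Twists a b u m).ncard : ℝ)) atTop (𝓝 (prob d))

/-- The moments of the order of the 2-Selmer groups. -/
def HasMoments (a b : k[X]) (u : k) : Prop :=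
  ∀ j : ℕ, MeanTendsTo a b u (fun D => (Nat.card (Selmer k (twist K a b D)) : ℝ) ^ j)
    (∏ i ∈ Finset.Icc 1 j, (1 + (2 : ℝ) ^ i))

/-- The averages of the functions of exponential growth of the dimension. -/
def HasMeans (a b : k[X]) (u : k) : Prop :=
  ∀ φ : ℕ → ℝ, (∃ C y : ℝ, ∀ d, |φ d| ≤ C * y ^ d) →
    MeanTendsTo a b u (fun D => φ (selmerRank k (twist K a b D))) (∑' d, prob d * φ d)

/-- The law and all the moments of the 2-Selmer groups of the twists. -/
structure ExactLaw (a b : k[X]) (u : k) : Prop where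
  moments : HasMoments K a b u
  law : HasLaw K a b u
  means : HasMeans K a b u
  meaning : ∀ m, ∀ D ∈ Twists a b u m, Meaning k (twist K a b D)

end statements

/-- Numerical values for the law. -/
structure Values : Prop where
  sum : HasSum prob 1
  zero : 0.2097 < prob 0
  zeroOne : 0.629 < prob 0 + prob 1
  mean : HasSum (fun j : ℕ => 1 / ((2 : ℝ) ^ j + 1)) (∑' d, prob d * d)
  meanLt : ∑' d, prob d * (d : ℝ) < 1.2646
  parity : ∑' d, prob d * (-1) ^ d = 0

/-- A positive proportion of the pairs `(a, b)` with `deg a ≤ 4 N`, `deg b ≤ 6 N` is in the family, as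
`N → ∞`. -/
def PositiveProportion (k : Type) [Field k] : Prop :=
  ∃ c : ℝ, 0 < c ∧ ∀ᶠ N : ℕ in atTop, 0 < {p : k[X] × k[X] | HasHeight N p.1 p.2}.ncard ∧
    c * ({p : k[X] × k[X] | HasHeight N p.1 p.2}.ncard : ℝ) ≤
      ({p : k[X] × k[X] | InFamily N p.1 p.2}.ncard : ℝ)

section lemmas

theorem prob_eq (d : ℕ) : prob d = Run7.h286.PL.wt d / ∑' i, Run7.h286.PL.wt i := by
  rw [prob, Run7.h160.PL.num.2.2.1.tprod_eq, mul_comm, div_eq_mul_inv]
  rfl

theorem Lw_eq (φ : ℕ → ℝ) : Run7.h286.PL.Lw φ = ∑' d, prob d * φ d := by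
  rw [Run7.h286.PL.Lw, ← tsum_div_const]
  refine tsum_congr fun d => ?_
  rw [prob_eq]
  ring

end lemmas

section main

open Run7.h286.PL.Ell (pol)

theorem twist_eq {k : Type} [Field k] (K : Type) [Field K] [Algebra k[X] K]
    [IsFractionRing k[X] K] (a b D : k[X]) :
    twist K a b D = ((pol a b).scaleRoots D).map (algebraMap k[X] K) := by
  rw [Run7.h286.PL.Ell.scale_pol, Run7.h286.PL.Ell.map_pol]
  rfl

theorem twists_eq {k : Type} [Field k] (a b : k[X]) (u : k) (m : ℕ) :
    Twists a b u m = Run7.h286.PL.Twu 1 (pol a b) u m := by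
  unfold Twists Run7.h286.PL.Twu
  rw [Run7.h286.PL.Ell.dsc_pol]

theorem InFamily.fm {k : Type} [Field k] {N : ℕ} {a b : k[X]} (h : InFamily N a b) (hN : 1 ≤ N)
    (h2 : (2 : k) ≠ 0) :
    Run7.h784.TG.Fm 1 N (pol (a.coeff (4 * N)) (b.coeff (6 * N))) (pol a b) :=
  Run7.h286.PL.Ell.fm_pol hN h2 h.height.1 h.height.2 h.squarefree h.inert

/-- The number of curves of the family. -/
theorem many {k : Type} [Field k] [Finite k] (h6 : (6 : k) ≠ 0) : PositiveProportion k := by
  have hp : ((2 * 1 + 1).factorial : k) ≠ 0 := by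
    have h : ((2 * 1 + 1).factorial : k) = 6 := by
      have : (2 * 1 + 1).factorial = 6 := rfl
      rw [this]
      norm_num
    rw [h]
    exact h6
  obtain ⟨r, hr⟩ := Pool.Agent.N738.PJ.gr 1 k hp
  obtain ⟨c, hc, h⟩ := Pool.Agent.N615.JM.fam 1 k le_rfl hp r hr
  obtain ⟨N₀, hN₀⟩ := h ∅ (fun _ => 0) (fun Q hQ => absurd hQ (Finset.notMem_empty Q))
  have hq : (0 : ℝ) < Nat.card k := by exact_mod_cast Nat.card_pos
  have hinj : Function.Injective (fun p : k[X] × k[X] => pol p.1 p.2) := by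
    intro p p' hpp
    have h1 := congrArg (fun f : k[X][X] => f.coeff 1) hpp
    have h0 := congrArg (fun f : k[X][X] => f.coeff 0) hpp
    simp only [Run7.h286.PL.Ell.coeff_pol] at h1 h0
    norm_num at h1 h0
    exact Prod.ext h1 h0
  have hpol : ∀ (N : ℕ) (f : k[X][X]), Pool.Agent.N352.PJ.Ht 1 (2 * N) f →
      f = pol (f.coeff 1) (f.coeff 0) := by
    intro N f hf
    ext1 i
    rw [Run7.h286.PL.Ell.coeff_pol]
    have h3 := hf.mon.coeff_natDegree
    rw [hf.deg] at h3
    have h2 := hf.tr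
    rcases lt_trichotomy i 3 with hi | hi | hi
    · interval_cases i
      · norm_num
      · norm_num
      · norm_num
        exact h2
    · subst hi
      norm_num
      exact h3
    · rw [if_neg (by omega), if_neg (by omega), if_neg (by omega)]
      exact coeff_eq_zero_of_natDegree_lt (by rw [hf.deg]; omega)
  refine ⟨c / (Nat.card k : ℝ) ^ (2 * 1), by positivity, ?_⟩
  filter_upwards [eventually_ge_atTop N₀] with N hN
  have h1 := hN₀ N hN
  rw [Finset.prod_empty, Nat.cast_one, one_mul] at h1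
  have hset : (fun p : k[X] × k[X] => pol p.1 p.2) '' {p | HasHeight N p.1 p.2} =
      {f : k[X][X] | Pool.Agent.N352.PJ.Ht 1 (2 * N) f} := by
    ext f
    constructor
    · rintro ⟨p, ⟨h3, h4⟩, rfl⟩
      refine ⟨Run7.h286.PL.Ell.monic_pol _ _, Run7.h286.PL.Ell.natDegree_pol _ _, ?_, ?_⟩
      · show (pol p.1 p.2).coeff _ = 0
        rw [Run7.h286.PL.Ell.coeff_pol]
        norm_num
      · intro j hj
        show ((pol p.1 p.2).coeff j).natDegree ≤ _
        rw [Run7.h286.PL.Ell.coeff_pol]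
        interval_cases j
        · norm_num
          omega
        · norm_num
          omega
        · norm_num
    · intro hf
      refine ⟨(f.coeff 1, f.coeff 0), ⟨?_, ?_⟩, (hpol N f hf).symm⟩
      · have := hf.ht 1 (by norm_num)
        show (f.coeff 1).natDegree ≤ 4 * N
        omega
      · have := hf.ht 0 (by norm_num)
        show (f.coeff 0).natDegree ≤ 6 * N
        omega
  obtain ⟨hfin, hle⟩ := Pool.Agent.N415.PJMAIN.ht_card (k := k) 1 (2 * N)
  have hsub : {f : k[X][X] | Pool.Agent.N352.PJ.Fam 1 N r ∅ (fun _ => 0) f} ⊆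
      (fun p : k[X] × k[X] => pol p.1 p.2) '' {p | InFamily N p.1 p.2} := by
    intro f hf
    have e1 := hpol N f hf.ht
    refine ⟨(f.coeff 1, f.coeff 0), ⟨⟨?_, ?_⟩, ?_, ?_⟩, e1.symm⟩
    · have := hf.ht.ht 1 (by norm_num)
      show (f.coeff 1).natDegree ≤ 4 * N
      omega
    · have := hf.ht.ht 0 (by norm_num)
      show (f.coeff 0).natDegree ≤ 6 * N
      omega
    · show Squarefree (4 * f.coeff 1 ^ 3 + 27 * f.coeff 0 ^ 2)
      rw [← Run7.h286.PL.Ell.dsc_pol, ← e1]
      exact hf.sq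
    · have i1 := hf.inf 1 (by norm_num)
      have i0 := hf.inf 0 (by norm_num)
      have i2 := hf.inf 2 (by norm_num)
      have hr3 := hr.1.coeff_natDegree
      rw [hr.2.2.1] at hr3
      have hr' : X ^ 3 + C ((f.coeff 1).coeff (4 * N)) * X + C ((f.coeff 0).coeff (6 * N)) = r := by
        show pol _ _ = r
        ext1 i
        rw [Run7.h286.PL.Ell.coeff_pol]
        rcases lt_trichotomy i 3 with hi | hi | hi
        · interval_cases i
          · norm_num
            rw [← i0]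
            congr 1
            omega
          · norm_num
            rw [← i1]
            congr 1
            omega
          · norm_num
            exact hr.2.2.2.symm
        · subst hi
          norm_num
          exact hr3.symm
        · rw [if_neg (by omega), if_neg (by omega), if_neg (by omega)]
          exact (coeff_eq_zero_of_natDegree_lt (by rw [hr.2.2.1]; omega)).symm
      show Irreducible _
      rw [hr']
      exact hr.2.1
  have hFH : {p : k[X] × k[X] | InFamily N p.1 p.2} ⊆ {p | HasHeight N p.1 p.2} :=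
    fun p hp => hp.height
  have hfinP : {p : k[X] × k[X] | HasHeight N p.1 p.2}.Finite :=
    Set.Finite.of_finite_image (by rw [hset]; exact hfin) hinj.injOn
  have h2 := Set.ncard_le_ncard hsub ((hfinP.subset hFH).image _)
  rw [Set.ncard_image_of_injective _ hinj] at h2
  have h3 := Set.ncard_le_ncard hFH hfinP
  have hcard : {p : k[X] × k[X] | HasHeight N p.1 p.2}.ncard =
      {f : k[X][X] | Pool.Agent.N352.PJ.Ht 1 (2 * N) f}.ncard := by
    rw [← hset, Set.ncard_image_of_injective _ hinj]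
  have h4 : (0 : ℝ) < c * (Nat.card k : ℝ) ^ (2 * N * Pool.Agent.N352.PJ.dd 1) := by positivity
  have h5 : (({f : k[X][X] | Pool.Agent.N352.PJ.Fam 1 N r ∅ (fun _ => 0) f}.ncard : ℕ) : ℝ) ≤
      ({p : k[X] × k[X] | InFamily N p.1 p.2}.ncard : ℝ) := by exact_mod_cast h2
  refine ⟨?_, ?_⟩
  · have h6 : (0 : ℝ) < ({p : k[X] × k[X] | InFamily N p.1 p.2}.ncard : ℝ) := by linarith
    have h7 : 0 < {p : k[X] × k[X] | InFamily N p.1 p.2}.ncard := by exact_mod_cast h6
    omega
  · refine le_trans ?_ (h1.trans h5)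
    rw [hcard]
    have h8 : ({f : k[X][X] | Pool.Agent.N352.PJ.Ht 1 (2 * N) f}.ncard : ℝ) ≤
        (Nat.card k : ℝ) ^ (2 * N * Pool.Agent.N352.PJ.dd 1 + 2 * 1) := by exact_mod_cast hle
    refine (mul_le_mul_of_nonneg_left h8 (by positivity)).trans (le_of_eq ?_)
    rw [pow_add]
    field_simp

variable {k : Type} [Field k] [Finite k] (K : Type) [Field K] [Algebra k[X] K]
  [IsFractionRing k[X] K]

/-- Properties of one twist. -/
theorem one {N : ℕ} {r : k[X]} {a b : k[X]} (hf : Run7.h784.TG.Fm 1 N r (pol a b)) {u : k}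
    (hu : u ≠ 0) {m : ℕ} {D : k[X]} (hD : D ∈ Twists a b u m) :
    Nat.card (Selmer k (twist K a b D)) =
      2 ^ Run7.h286.PL.rkJ K ((pol a b).scaleRoots D) ∧
    selmerRank k (twist K a b D) = Run7.h286.PL.rkJ K ((pol a b).scaleRoots D) ∧
    Meaning k (twist K a b D) := by
  rw [twists_eq] at hD
  obtain ⟨h1, h2⟩ := Run7.h286.SelDef.one_tw hf K hu hD
  rw [← twist_eq] at h1 h2
  exact ⟨by rw [← h1]; exact h2.order, h1, h2⟩

theorem mean {N : ℕ} {r : k[X]} {a b : k[X]}
    (hf : Run7.h784.TG.Fm 1 N r (pol a b)) {u : k} (hu : u ≠ 0) (φ : ℕ → ℝ)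
    (hφ : ∃ C y : ℝ, ∀ d, |φ d| ≤ C * y ^ d) :
    Tendsto (fun m => (∑ᶠ D ∈ Twists a b u m, φ (selmerRank k (twist K a b D))) /
      ((Twists a b u m).ncard : ℝ)) atTop (𝓝 (∑' d, prob d * φ d)) := by
  rw [← Lw_eq]
  refine (Run7.h286.PL.mean_tw Run7.h286.PL.fMOM hf K hu φ hφ).congr fun m => ?_
  rw [twists_eq]
  congr 1
  refine finsum_mem_congr rfl fun D hD => ?_
  rw [(one K hf hu (by rw [twists_eq]; exact hD)).2.1]

theorem law {N : ℕ} {r : k[X]} {a b : k[X]}
    (hf : Run7.h784.TG.Fm 1 N r (pol a b)) {u : k} (hu : u ≠ 0) (d : ℕ) :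
    Tendsto (fun m => (({D ∈ Twists a b u m | Nat.card (Selmer k (twist K a b D)) = 2 ^ d} :
      Set k[X]).ncard : ℝ) / ((Twists a b u m).ncard : ℝ)) atTop (𝓝 (prob d)) := by
  rw [prob_eq]
  refine (Run7.h286.PL.prop_tw Run7.h286.PL.fINL hf K hu d).congr fun m => ?_
  have h : ({D ∈ Twists a b u m | Nat.card (Selmer k (twist K a b D)) = 2 ^ d} : Set k[X]) =
      {D ∈ Run7.h286.PL.Twu 1 (pol a b) u m |
        Run7.h286.PL.rkJ K ((pol a b).scaleRoots D) = d} := by
    ext D
    constructor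
    · intro hD
      have h1 := (one K hf hu hD.1).1
      have h2 := hD.2
      rw [h1] at h2
      have h3 := hD.1
      rw [twists_eq] at h3
      exact ⟨h3, Nat.pow_right_injective le_rfl h2⟩
    · intro hD
      have h3 := hD.1
      rw [← twists_eq] at h3
      exact ⟨h3, by rw [(one K hf hu h3).1, hD.2]⟩
  rw [h, twists_eq]

theorem moment {N : ℕ} {r : k[X]} {a b : k[X]}
    (hf : Run7.h784.TG.Fm 1 N r (pol a b)) {u : k} (hu : u ≠ 0) (j : ℕ) :
    Tendsto (fun m => (∑ᶠ D ∈ Twists a b u m, (Nat.card (Selmer k (twist K a b D)) : ℝ) ^ j) /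
      ((Twists a b u m).ncard : ℝ)) atTop (𝓝 (∏ i ∈ Finset.Icc 1 j, (1 + (2 : ℝ) ^ i))) := by
  rw [← Run7.h547.PL.qid.2.1 j, Lw_eq]
  refine (mean K hf hu (fun d => ((2 : ℝ) ^ j) ^ d) ⟨1, 2 ^ j, fun d => ?_⟩).congr fun m => ?_
  · rw [one_mul, abs_of_nonneg (by positivity)]
  · congr 1
    refine finsum_mem_congr rfl fun D hD => ?_
    obtain ⟨h1, h2, -⟩ := one K hf hu hD
    rw [h1, h2]
    push_cast
    rw [← pow_mul, ← pow_mul, mul_comm]

end main

/-- The values of the law. -/
theorem values : Values := by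
  obtain ⟨n1, n2, n3, n4, n5⟩ := Run7.h160.PL.num
  obtain ⟨q1, q2, q3, q4, q5⟩ := Run7.h547.PL.qid
  have hZ := abs_lt.1 n4
  have hZ0 : 0 < ∑' i, Run7.h286.PL.wt i := by linarith
  have hw0 : Run7.h286.PL.wt 0 = 1 := by simp [Run7.h286.PL.wt]
  have hw1 : Run7.h286.PL.wt 1 = 2 := by norm_num [Run7.h286.PL.wt]
  have hLd := Lw_eq fun d => (d : ℝ)
  have hLm := Lw_eq fun d => (-1 : ℝ) ^ d
  refine ⟨?_, ?_, ?_, ?_, ?_, ?_⟩
  · have h1 := n2.hasSum.div_const (∑' i, Run7.h286.PL.wt i)
    rw [div_self hZ0.ne'] at h1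
    have h7 : prob = fun d => Run7.h286.PL.wt d / ∑' i, Run7.h286.PL.wt i := funext prob_eq
    rw [h7]
    exact h1
  · rw [prob_eq, hw0, lt_div_iff₀ hZ0]
    linarith
  · rw [prob_eq, prob_eq, hw0, hw1, ← add_div, lt_div_iff₀ hZ0]
    linarith
  · rw [← hLd]
    exact q4
  · rw [← hLd]
    linarith [(abs_lt.1 q5).2]
  · rw [← hLm]
    exact q3

/-- The main theorem for elliptic curves. -/
theorem main (k : Type) [Field k] [Finite k] (h6 : (6 : k) ≠ 0)
    (K : Type) [Field K] [Algebra k[X] K] [IsFractionRing k[X] K] :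
    (∀ (N : ℕ) (a b : k[X]) (u : k), 1 ≤ N → InFamily N a b → u ≠ 0 → ExactLaw K a b u) ∧
    Values ∧ PositiveProportion k := by
  have h2 : (2 : k) ≠ 0 := by
    intro h
    apply h6
    rw [show (6 : k) = 2 * 3 by norm_num, h, zero_mul]
  refine ⟨fun N a b u hN hf hu => ?_, values, many h6⟩
  have hF := hf.fm hN h2
  exact ⟨moment K hF hu, law K hF hu, fun φ hφ => mean K hF hu φ hφ,
    fun m D hD => (one K hF hu hD).2.2⟩

end Run7.h286.EllLaw
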