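import Pool.Agent.Run7.h286.PL.StmS
import Pool.Agent.Run7.h68.TG.FIN

/-!
# Project PRL (helper286): the final theorems FINI, FINL
-/

set_option autoImplicit false
set_option linter.all false

open Polynomial IsDedekindDomain Filter
open scoped Classical Topology

namespace Run7.h286.PL

open Pool.Agent.N874.PP (Ov Ev Sq1)
open Pool.Agent.N352.PJ (IsGen Crd LocIm SelZero Fam GoodR Ht dsc)
open Run7.h875.TS (chi cd IsPC GSq irrD dg NRs uT sqf prD sqL sz Tr mem_prD ndvd_div)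
open Run7.h784.TG
open Run7.h68.TG (exists_pack psi_zero Pack)

theorem mem_sqF {k : Type} [Field k] [Finite k] (h2 : (2 : k) ≠ 0) {B : k[X]} (hB : B ≠ 0) (N : ℕ)
    (D : k[X]) : D ∈ sqF B N ↔ D ∈ sqf B N := by
  have h := (T_SQF3 k h2 B hB).1 N
  rw [sqF, dif_pos h, Set.Finite.mem_toFinset]

theorem tsum_ind (s : Finset ℕ) : ∑' d, wt d * (if d ∈ s then (1 : ℝ) else 0) = ∑ i ∈ s, wt i := by
  rw [tsum_eq_sum (s := s)]
  · exact Finset.sum_congr rfl fun i hi => by rw [if_pos hi, mul_one]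
  · intro b hb
    rw [if_neg hb, mul_zero]

theorem Lw_ind (s : Finset ℕ) : Lw (fun d => if d ∈ s then (1 : ℝ) else 0) =
    (∑ i ∈ s, wt i) / ∑' i, wt i := by
  rw [Lw, tsum_ind]

theorem ind_le (s : Finset ℕ) (d : ℕ) : |(if d ∈ s then (1 : ℝ) else 0)| ≤ 1 := by
  split_ifs <;> simp

section one

variable {k K : Type} [Field k] [Finite k] [Field K] [Algebra k[X] K] [IsFractionRing k[X] K]
  {g N : ℕ} {r : k[X]} {f : k[X][X]}

theorem ndvd {D : k[X]} (h : IsCoprime D (dsc g f)) (P : k[X]) (hP : Irreducible P) (hd : P ∣ D) :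
    ¬ P ∣ dsc g f := fun h1 => hP.not_isUnit (h.isUnit_of_dvd' hd h1)

theorem selZero_of (hREP : P_REP) (hGRP : P_GRP) (hCONC : P_CONC) (hf : Fm g N r f)
    (pk : Pack k K g f) (D : k[X]) (hDm : D.Monic) (hDs : Squarefree D)
    (hDc : ∀ P : k[X], Irreducible P → P ∣ D → ¬ P ∣ dsc g f)
    (h0 : dimS pk.O K f pk.θ D = 0) : SelZero K (f.scaleRoots D) := by
  have hG : GoodT g f (prD D) (fun P => D / P) := by
    refine ⟨fun P hP => ((mem_prD hDm.ne_zero).1 hP).1, fun P hP => ((mem_prD hDm.ne_zero).1 hP).2.1,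
      fun P hP h1 => ?_, fun P hP => ?_⟩
    · have h2 := (mem_prD hDm.ne_zero).1 hP
      exact hDc P h2.2.1 h2.2.2 h1
    · have h2 := (mem_prD hDm.ne_zero).1 hP
      exact ndvd_div h2.2.1 hDs h2.2.2
  exact hCONC k K pk.L pk.O g N r f pk.θ hf pk.gen D hDm hDs hDc
    fun α hα => psi_zero hREP hGRP hf pk.gen hG h0 hα

end one

/-- The proportion for a finite set of dimensions. -/
theorem law_set (hLAW : P_LAW) (hFULL : P_FULL) {k K : Type} [Field k] [Finite k] [Field K]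
    [Algebra k[X] K] [IsFractionRing k[X] K] {g N : ℕ} {r : k[X]} {f : k[X][X]} (hf : Fm g N r f)
    (pk : Pack k K g f) (s : Finset ℕ) :
    Tendsto (fun m => (((sqF (dsc g f) m).filter fun D => dimS pk.O K f pk.θ D ∈ s).card : ℝ) /
      ((sqF (dsc g f) m).card : ℝ)) atTop (𝓝 ((∑ i ∈ s, wt i) / ∑' i, wt i)) := by
  have h := hLAW k K pk.L pk.O g N r f pk.θ hf (hFULL k g N r f hf) pk.gen _ (ind_le s)
  rw [Lw_ind] at h
  refine h.congr fun m => ?_
  rw [Finset.card_filter]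
  push_cast
  rfl

theorem T_FINI (hLAW : P_LAW) (hBRG : P_BRG) (hFULL : P_FULL) (hREP : P_REP) (hGRP : P_GRP)
    (hCONC : P_CONC) : P_FINI := by
  intro k _ _ g N r f hf K _ _ _
  obtain ⟨pk⟩ := exists_pack k K hf
  have hB : dsc g f ≠ 0 := hf.fam.sq.ne_zero
  have key : ∀ (s : Finset ℕ) (p : k[X] → Prop),
      (∀ D : k[X], D.Monic → Squarefree D → (∀ P : k[X], Irreducible P → P ∣ D → ¬ P ∣ dsc g f) →
        dimS pk.O K f pk.θ D ∈ s → p D) → ∀ ε : ℝ, 0 < ε → ∃ N₀ : ℕ, ∀ m ≥ N₀,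
      ((∑ i ∈ s, wt i) / (∑' i, wt i) - ε) * ((sqF (dsc g f) m).card : ℝ) ≤
        (((sqF (dsc g f) m).filter p).card : ℝ) := by
    intro s p hp ε hε
    have h1 := law_set hLAW hFULL hf pk s
    have h2 := h1.eventually (lt_mem_nhds (show (∑ i ∈ s, wt i) / (∑' i, wt i) - ε <
      (∑ i ∈ s, wt i) / (∑' i, wt i) by linarith))
    obtain ⟨N₀, h3⟩ := eventually_atTop.1 h2
    refine ⟨N₀, fun m hm => ?_⟩
    have h4 := h3 m hm
    have h5 : (((sqF (dsc g f) m).filter fun D => dimS pk.O K f pk.θ D ∈ s).card : ℝ) ≤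
        (((sqF (dsc g f) m).filter p).card : ℝ) := by
      exact_mod_cast Finset.card_le_card fun D hD => by
        rw [Finset.mem_filter] at hD ⊢
        refine ⟨hD.1, ?_⟩
        have h6 := (mem_sqF hf.two hB m D).1 hD.1
        exact hp D h6.1 h6.2.2.1 (ndvd h6.2.2.2) hD.2
    rcases Nat.eq_zero_or_pos (sqF (dsc g f) m).card with h0 | h0
    · rw [h0, Nat.cast_zero, mul_zero]
      positivity
    · have h0' : (0 : ℝ) < ((sqF (dsc g f) m).card : ℝ) := by exact_mod_cast h0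
      rw [lt_div_iff₀ h0'] at h4
      linarith
  refine ⟨fun d ε hε => ?_, fun ε hε => ?_⟩
  · have h0 := key (Finset.range (d + 1)) (fun D => rkJ K (f.scaleRoots D) ≤ d)
      (fun D h1 h2 h3 h4 => by
        have h5 := (hBRG k K pk.L pk.O g N r f pk.θ hf pk.gen D h1 h2 h3).1
        rw [Finset.mem_range] at h4
        exact h5.trans (Nat.lt_succ_iff.1 h4)) ε hε
    convert h0
  · have h1 := key {0} (fun D => SelZero K (f.scaleRoots D))
      (fun D h1 h2 h3 h4 => selZero_of hREP hGRP hCONC hf pk D h1 h2 h3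
        (Finset.mem_singleton.1 h4)) ε hε
    simpa [wt] using h1

theorem T_FINL (hLAW : P_LAW) (hBRG : P_BRG) (hEQ1 : P_EQ1) (hEQ2 : P_EQ2) (hFULL : P_FULL) :
    P_FINL := by
  intro k _ _ g N r f hf K _ _ _ d
  obtain ⟨pk⟩ := exists_pack k K hf
  have hB : dsc g f ≠ 0 := hf.fam.sq.ne_zero
  have h1 := law_set hLAW hFULL hf pk {d}
  rw [Finset.sum_singleton] at h1
  refine h1.congr fun m => ?_
  have h2 : (sqF (dsc g f) m).filter (fun D => dimS pk.O K f pk.θ D ∈ ({d} : Finset ℕ)) =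
      (sqF (dsc g f) m).filter fun D => rkJ K (f.scaleRoots D) = d := by
    refine Finset.filter_congr fun D hD => ?_
    have h6 := (mem_sqF hf.two hB m D).1 hD
    rw [Finset.mem_singleton, (hBRG k K pk.L pk.O g N r f pk.θ hf pk.gen D h6.1 h6.2.2.1
      (ndvd h6.2.2.2)).2 hEQ1 hEQ2]
  rw [h2]

end Run7.h286.PL
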