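import Pool.Agent.Run7.h286.PL.StmM
import Pool.Agent.Run7.h286.PL.FIN

/-!
# Project PRL (helper286): the final theorem FINM and trivial 2-Selmer groups
-/

set_option autoImplicit false
set_option linter.all false

open Polynomial IsDedekindDomain Filter
open scoped Classical Topology

namespace Run7.h286.PL

open Pool.Agent.N874.PP (Ov Ev Sq1)
open Pool.Agent.N352.PJ (IsGen Crd LocIm SelZero Fam GoodR Ht dsc)
open Run7.h875.TS (chi cd IsPC GSq irrD dg NRs uT sqf prD sqL sz Tr mem_prD ndvd_div)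
open Run7.h784.TG
open Run7.h68.TG (exists_pack psi_zero Pack)

theorem T_FINM (hMEA : P_MEA) (hBRG : P_BRG) (hEQ1 : P_EQ1) (hEQ2 : P_EQ2) (hFULL : P_FULL) :
    P_FINM := by
  intro k _ _ g N r f hf K _ _ _ φ hφ
  obtain ⟨pk⟩ := exists_pack k K hf
  have hB : dsc g f ≠ 0 := hf.fam.sq.ne_zero
  have h1 := hMEA k K pk.L pk.O g N r f pk.θ hf (hFULL k g N r f hf) pk.gen φ hφ
  refine h1.congr fun m => ?_
  have h2 : ∑ D ∈ sqF (dsc g f) m, φ (dimS pk.O K f pk.θ D) =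
      ∑ D ∈ sqF (dsc g f) m, φ (rkJ K (f.scaleRoots D)) := by
    refine Finset.sum_congr rfl fun D hD => ?_
    have h6 := (mem_sqF hf.two hB m D).1 hD
    rw [(hBRG k K pk.L pk.O g N r f pk.θ hf pk.gen D h6.1 h6.2.2.1
      (ndvd h6.2.2.2)).2 hEQ1 hEQ2]
  rw [h2]

/-- If the dimension is zero, the 2-Selmer group is trivial in the sense of project JB. -/
theorem selZero_of_rkJ (hBRG : P_BRG) (hEQ1 : P_EQ1) (hEQ2 : P_EQ2) (hREP : P_REP) (hGRP : P_GRP)
    (hCONC : P_CONC) {k : Type} [Field k] [Finite k] {g N : ℕ} {r : k[X]} {f : k[X][X]}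
    (hf : Fm g N r f) (K : Type) [Field K] [Algebra k[X] K] [IsFractionRing k[X] K] {D : k[X]}
    (hDm : D.Monic) (hDs : Squarefree D) (hDc : IsCoprime D (dsc g f))
    (h0 : rkJ K (f.scaleRoots D) = 0) : SelZero K (f.scaleRoots D) := by
  obtain ⟨pk⟩ := exists_pack k K hf
  refine selZero_of hREP hGRP hCONC hf pk D hDm hDs (ndvd hDc) ?_
  rw [← (hBRG k K pk.L pk.O g N r f pk.θ hf pk.gen D hDm hDs (ndvd hDc)).2 hEQ1 hEQ2, h0]

end Run7.h286.PL
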