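import Pool.Agent.Run7.h908.JP.Fib

/-!
# The joint law of the Selmer groups of the twists of `n` hyperelliptic curves, in helper form

The definitions and the theorem of `Results/MP_40dc3c_ag/ModelsOfFibreProducts.lean` (helper908; project JPL of
helper784), so that a port to another page is short.
-/

set_option autoImplicit false
set_option linter.all false

namespace Run7.h286.JointLaw

open Polynomial Filter IsDedekindDomain
open scoped Classical Topology
open Pool.Agent.N874.Jac (J mapJ Cochain Cocycle Coboundary power TrivialAtPrimes TrivialOver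
  UniquelyTwoDivisible ShaTwoTrivial)
open Pool.Agent.TH115.GD (CompInf)
open Run7.h784.JPH (discriminant HasHeight atInfinity InFamily twist Twists weight alpha)

section groups

variable (k : Type) [Field k] {K : Type} [Field K] [Algebra k[X] K] [IsFractionRing k[X] K] (F : K[X])

/-- The continuous cocycles of the absolute Galois group of `K = k(t)` with values in `J[n]`, `J` the
Jacobian of `y ^ 2 = F(x)` (written multiplicatively), whose class in `H ^ 1 (K_v, J)` is zero for all the
places `v` of `K`. -/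
structure SelmerCocycle (n : ℕ) (c : Cochain F) : Prop where
  cocycle : Cocycle c
  torsion : ∀ σ, c σ ^ n = 1
  finite : TrivialAtPrimes k[X] c
  infinite : TrivialOver (CompInf k K) c

/-- The Selmer group `Sel(J, n)` in `H ^ 1 (K, J[n])` (as a set): the classes of these cocycles. -/
def Selmer (n : ℕ) : Type :=
  Quot fun c c' : {c : Cochain F // SelmerCocycle k F n c} =>
    ∃ P : J F (SeparableClosure K), P ^ n = 1 ∧ ∀ σ, c.1 σ = c'.1 σ * (mapJ F σ.toAlgHom P / P)

/-- The binary logarithm of the order of `Sel(J, 2)`. -/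
noncomputable def dim : ℕ := Nat.log 2 (Nat.card (Selmer k F 2))

/-- `J(K)` has no points of order two and, for all `l`, the group `Sel(J, 2 ^ l)` is finite with at most
`2 ^ (l d)` elements, `2 ^ d = #Sel(J, 2)`. -/
structure Bounded : Prop where
  torsion : ∀ P : J F K, P ^ 2 = 1 → P = 1
  order : Nat.card (Selmer k F 2) = 2 ^ dim k F
  finite : ∀ l : ℕ, Finite (Selmer k F (2 ^ l))
  le : ∀ l : ℕ, Nat.card (Selmer k F (2 ^ l)) ≤ 2 ^ (l * dim k F)

/-- All the groups are zero: `J(K)` is uniquely divisible by two; the 2-primary part of the group of the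
classes in `H ^ 1 (K, J)` which are zero over the completions at all maximal ideals of `k[t]` is zero; and
every continuous cocycle with values in `J[2 ^ l]` whose class in `H ^ 1 (K, J)` is zero over these
completions is the coboundary of an element of `J[2 ^ l]`, for all `l`. -/
structure Zero : Prop where
  points : UniquelyTwoDivisible F
  sha : ShaTwoTrivial F k[X]
  selmer : ∀ (l : ℕ) (c : Cochain F), Cocycle c → (∀ σ, c σ ^ 2 ^ l = 1) → TrivialAtPrimes k[X] c →
    ∃ P : J F (SeparableClosure K), P ^ 2 ^ l = 1 ∧ ∀ σ, c σ = mapJ F σ.toAlgHom P / P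

end groups

section statements

variable {k : Type} [Field k] (K : Type) [Field K] [Algebra k[X] K] [IsFractionRing k[X] K] {n : ℕ}

/-- The equations `y ^ 2 = F_i(x)` of the `n` curves `D y ^ 2 = f_i(x)` over `K = k(t)`; their Jacobians are
the `J_i`. -/
noncomputable def curves (f : Fin n → k[X][X]) (D : k[X]) : Fin n → K[X] := fun i => twist K (f i) D

/-- The numbers `d_i(D)`, `#Sel(J_i, 2) = 2 ^ (d_i(D))`. -/
noncomputable def dims (f : Fin n → k[X][X]) (D : k[X]) (i : Fin n) : ℕ := dim k (curves K f D i)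

variable (g : Fin n → ℕ) (f : Fin n → k[X][X]) (u : k)

/-- The mean of `F` over the twists of degree `m` tends to `l`. -/
def MeanTendsTo (F : k[X] → ℝ) (l : ℝ) : Prop :=
  Tendsto (fun m => (∑ᶠ D ∈ Twists g f u m, F D) / ((Twists g f u m).ncard : ℝ)) atTop (𝓝 l)

/-- The vector `d(D)` has the value `d` for the proportion `α(d_1) ⋯ α(d_n)` of the twists. -/
def HasLaw : Prop :=
  ∀ d : Fin n → ℕ, Tendsto (fun m => (({D ∈ Twists g f u m | dims K f D = d} : Set k[X]).ncard : ℝ) /
    ((Twists g f u m).ncard : ℝ)) atTop (𝓝 (∏ i, alpha (d i)))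

/-- The means of the functions of exponential growth of `d(D)`. -/
def HasMeans : Prop :=
  ∀ φ : (Fin n → ℕ) → ℝ, (∃ C y : ℝ, ∀ d, |φ d| ≤ C * y ^ (∑ i, d i)) →
    MeanTendsTo g f u (fun D => φ (dims K f D)) (∑' d : Fin n → ℕ, φ d * ∏ i, alpha (d i))

/-- The theorem for `f_1, ..., f_n` and the leading coefficient `u`. -/
structure Statement : Prop where
  many : ∃ c : ℝ, 0 < c ∧ ∀ᶠ m : ℕ in atTop,
    c * (Nat.card k : ℝ) ^ m ≤ ((Twists g f u m).ncard : ℝ)
  each : ∀ (m : ℕ), ∀ D ∈ Twists g f u m, ∀ i, Bounded k (curves K f D i)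
  often : ∀ᶠ m : ℕ in atTop, (0.2097 : ℝ) ^ n * ((Twists g f u m).ncard : ℝ) ≤
    (({D ∈ Twists g f u m | ∀ i, Zero k (curves K f D i)} : Set k[X]).ncard : ℝ)
  means : HasMeans K g f u
  law : HasLaw K g f u
  average : MeanTendsTo g f u (fun D => ((∑ i, dims K f D i : ℕ) : ℝ))
    (n * ∑' d : ℕ, (d : ℝ) * alpha d)

end statements

/-- A positive proportion of the polynomials `f` of genus `g` and height `2 N` is in the family and has
discriminant prime to `Δ`, as `N → ∞`. -/
def PositiveProportion (g : ℕ) {k : Type} [Field k] (Δ : k[X]) : Prop :=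
  ∃ c : ℝ, 0 < c ∧ ∀ᶠ N : ℕ in atTop, 0 < {f : k[X][X] | HasHeight g (2 * N) f}.ncard ∧
    c * ({f : k[X][X] | HasHeight g (2 * N) f}.ncard : ℝ) ≤
      ({f : k[X][X] | InFamily g N f ∧ IsCoprime Δ (discriminant g f)}.ncard : ℝ)

/-- The sum of the means. -/
theorem mean_sum {k : Type} [Field k] [Finite k] {n : ℕ} {g : Fin n → ℕ} {f : Fin n → k[X][X]} {u : k}
    (F : Fin n → k[X] → ℝ) (l : ℝ) (h : ∀ i, MeanTendsTo g f u (F i) l) :
    MeanTendsTo g f u (fun D => ∑ i, F i D) (n * l) := by
  have h1 : Tendsto (fun m => ∑ i : Fin n, (∑ᶠ D ∈ Twists g f u m, F i D) /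
      ((Twists g f u m).ncard : ℝ)) atTop (𝓝 (∑ _i : Fin n, l)) := tendsto_finsetSum _ fun i _ => h i
  rw [Finset.sum_const, Finset.card_univ, Fintype.card_fin, nsmul_eq_mul] at h1
  refine h1.congr fun m => ?_
  have hfin : (Twists g f u m).Finite := (Run7.h875.TS.fin_deg k m).subset fun D hD => hD.2.1
  rw [← Finset.sum_div]
  congr 1
  rw [finsum_mem_eq_finite_toFinset_sum _ hfin, Finset.sum_comm]
  exact Finset.sum_congr rfl fun i _ => finsum_mem_eq_finite_toFinset_sum _ hfin

/-- Let `k` be a finite field of odd characteristic with `q` elements, `K = k(t)`.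
(I) Let `f_1, ..., f_n` be polynomials of the families of genus `g_i ≥ 1` and height `2 N_i`, `N_i ≥ 1`
(monic of degree `2 g_i + 1` over `k[t]` without next term, squarefree discriminant, irreducible
reduction at infinity) with pairwise coprime discriminants, and `u ≠ 0` in `k`. For `D` in `Twists`
(squarefree of degree `m` with leading coefficient `u`, prime to the discriminants) let `J_i` be the
Jacobian of `D y ^ 2 = f_i(x)` over `K`. Then
(many) there are at least `c q ^ m` such `D`, `c > 0`;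
(each) `J_i(K)` has no points of order two, `#Sel(J_i, 2) = 2 ^ (d_i)`, and `Sel(J_i, 2 ^ l)` has at most
`2 ^ (l d_i)` elements for all `l`;
(often) for all large `m` for at least `0.2097 ^ n` of the `D` all the groups `Sel(J_i, 2 ^ l)` are zero,
`J_i(K)` is uniquely divisible by two and the 2-primary part of the Tate-Shafarevich group of `J_i` is
zero, for all `i`;
(means) the average over the `D` of every function `φ` of exponential growth of `(d_1, ..., d_n)` tends to
its expectation for the product of the laws of Poonen and Rains;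
(law) in particular the proportion of the `D` with a given vector tends to `α(d_1) ⋯ α(d_n)`;
(average) the average of `d_1 + ... + d_n` tends to `n` times the expectation of the law.
(II) This expectation is `1.2645` up to `0.0001`.
(III) If the characteristic is larger than `2 g + 1`, `g ≥ 1` and `Δ ≠ 0`, a positive proportion of
all `f` of genus `g` and height `2 N` is in the family and has discriminant prime to `Δ`. -/
theorem main (k : Type) [Field k] [Finite k] (h2 : (2 : k) ≠ 0)
    (K : Type) [Field K] [Algebra k[X] K] [IsFractionRing k[X] K] :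
    (∀ (n : ℕ), 1 ≤ n → ∀ (g N : Fin n → ℕ), (∀ i, 1 ≤ g i) → (∀ i, 1 ≤ N i) →
      ∀ f : Fin n → k[X][X], (∀ i, InFamily (g i) (N i) (f i)) →
      (∀ i j, i ≠ j → IsCoprime (discriminant (g i) (f i)) (discriminant (g j) (f j))) →
      ∀ u : k, u ≠ 0 → Statement K g f u) ∧
    |∑' d : ℕ, (d : ℝ) * alpha d - 1.2645| < 0.0001 ∧
    ∀ g : ℕ, 1 ≤ g → ((2 * g + 1).factorial : k) ≠ 0 → ∀ Δ : k[X], Δ ≠ 0 →
      PositiveProportion g Δ := by
  refine ⟨fun n hn g N hg hN f hf hc u hu => ?_, Run7.h908.JP.Fib.mean_value,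
    fun g hg hp Δ hΔ => Run7.h908.JP.Fib.many g hg hp Δ hΔ⟩
  haveI : Nonempty (Fin n) := ⟨⟨0, hn⟩⟩
  have hF : Run7.h784.JP.JF g N (fun i => atInfinity (g i) (2 * N i) (f i)) f :=
    ⟨h2, fun i => (hf i).fm (hg i) (hN i) h2, hc⟩
  have hTw : ∀ m, Twists g f u m = Run7.h784.JP.TwJ g f u m := fun m => rfl
  have hsel : ∀ (F : K[X]) (l : ℕ), Nonempty (Selmer k F l ≃
      Run7.h886.PL.SelN F l (Run7.h286.PLC.AllPl k K)) := fun F l =>
    ⟨Quot.congr (Equiv.subtypeEquivRight fun c =>
      ⟨fun h => ⟨h.cocycle, h.torsion, Run7.h886.PL.loc_iff.2 ⟨h.finite, h.infinite⟩⟩,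
        fun h => ⟨h.coc, h.tor, (Run7.h886.PL.loc_iff.1 h.loc).1,
          (Run7.h886.PL.loc_iff.1 h.loc).2⟩⟩) fun c c' => Iff.rfl⟩
  have hsel2 : ∀ F : K[X], Nat.card (Selmer k F 2) =
      Nat.card (Run7.h286.PLC.SelH F (Run7.h286.PLC.AllPl k K)) := fun F => by
    obtain ⟨e⟩ := hsel F 2
    rw [Nat.card_congr e, Run7.h886.PL.card_selN]
  have hone : ∀ (m : ℕ), ∀ D ∈ Twists g f u m, ∀ i,
      Nat.card (Selmer k (twist K (f i) D) 2) = 2 ^ Run7.h286.PL.rkJ K ((f i).scaleRoots D) ∧
      (∀ P : J (twist K (f i) D) K, P ^ 2 = 1 → P = 1) ∧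
      (Run7.h286.PL.rkJ K ((f i).scaleRoots D) = 0 → Zero k (twist K (f i) D)) := by
    intro m D hD i
    obtain ⟨t1, t2, t3, t4⟩ := Run7.h886.PL.one K hF hu hD i
    exact ⟨(hsel2 _).trans t1, t2, fun h0 => ⟨(t4 h0).1, (t4 h0).2.1, (t4 h0).2.2⟩⟩
  have hdim : ∀ (m : ℕ), ∀ D ∈ Twists g f u m, ∀ i,
      dims K f D i = Run7.h286.PL.rkJ K ((f i).scaleRoots D) := by
    intro m D hD i
    unfold dims dim curves
    rw [(hone m D hD i).1, Nat.log_pow (by norm_num)]
  have hmeans : HasMeans K g f u := fun φ hφ =>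
    Run7.h886.PL.mean_of K hF hu (dims K f) hdim φ hφ
  have hfin : ∀ m, (Twists g f u m).Finite := fun m => Run7.h784.JP.twJ_fin hF hu m
  obtain ⟨c, hc0, hc1⟩ := Run7.h886.PL.size_one hF hu
  refine ⟨⟨c, hc0, hc1⟩, fun m D hD i => ?_, ?_, hmeans, fun d => ?_, ?_⟩
  · obtain ⟨e2⟩ := hsel (twist K (f i) D) 2
    have h5 := (hone m D hD i).1
    have hd : dim k (twist K (f i) D) = Run7.h286.PL.rkJ K ((f i).scaleRoots D) := hdim m D hD i
    have hfin2 : Finite (Run7.h886.PL.SelN (twist K (f i) D) 2 (Run7.h286.PLC.AllPl k K)) := by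
      refine Nat.finite_of_card_ne_zero ?_
      rw [← Nat.card_congr e2, h5]
      exact pow_ne_zero _ (by norm_num)
    have hgd : Pool.Agent.Y160.SE.Good 2 (-1 : K) (twist K (f i) D) :=
      Run7.h886.PL.good_tw K (hF.fm i) hD.2.2.1.ne_zero
    show Bounded k (twist K (f i) D)
    refine ⟨(hone m D hD i).2.1, by rw [hd]; exact h5, fun l => ?_, fun l => ?_⟩
    · obtain ⟨e⟩ := hsel (twist K (f i) D) (2 ^ l)
      obtain ⟨h6, h7⟩ := Run7.h886.PL.card_pow hgd (Run7.h286.PLC.AllPl k K) hfin2 l
      exact Finite.of_equiv _ e.symm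
    · obtain ⟨e⟩ := hsel (twist K (f i) D) (2 ^ l)
      obtain ⟨h6, h7⟩ := Run7.h886.PL.card_pow hgd (Run7.h286.PLC.AllPl k K) hfin2 l
      rw [Nat.card_congr e, hd]
      refine h7.trans (le_of_eq ?_)
      rw [← Nat.card_congr e2, h5, ← pow_mul, mul_comm]
  · filter_upwards [Run7.h886.PL.zero_prop K Run7.h886.PL.jfinm hF hu] with m hm
    rw [Fintype.card_fin] at hm
    refine hm.trans ?_
    have hsub : ({D ∈ Run7.h784.JP.TwJ g f u m |
        ∀ i, Run7.h286.PL.rkJ K ((f i).scaleRoots D) = 0} : Set k[X]) ⊆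
        {D ∈ Twists g f u m | ∀ i, Zero k (curves K f D i)} := fun D hD =>
      ⟨hD.1, fun i => (hone m D hD.1 i).2.2 (hD.2 i)⟩
    exact_mod_cast Set.ncard_le_ncard hsub ((hfin m).subset fun D hD => hD.1)
  · have h := hmeans (fun x => if x = d then (1 : ℝ) else 0) ⟨1, 1, fun x => by
      split_ifs <;> simp⟩
    have h1 : ∑' x : Fin n → ℕ, (if x = d then (1 : ℝ) else 0) * ∏ i, alpha (x i) =
        ∏ i, alpha (d i) := by
      rw [tsum_eq_single d (fun x hx => by rw [if_neg hx, zero_mul]), if_pos rfl, one_mul]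
    rw [h1] at h
    refine Tendsto.congr (fun m => ?_) h
    rw [Run7.h784.JPH.ncard_sep (hfin m)]
    congr 1
    refine finsum_mem_congr rfl fun D _ => ?_
    by_cases hh : dims K f D = d
    · rw [if_pos hh, if_pos hh]
    · rw [if_neg hh, if_neg hh]
  · have h := mean_sum (g := g) (f := f) (u := u) (fun i D => ((dims K f D i : ℕ) : ℝ))
      (∑' d : ℕ, (d : ℝ) * alpha d) fun i => ?_
    · refine Tendsto.congr (fun m => ?_) h
      congr 1
      refine finsum_mem_congr rfl fun D _ => ?_
      push_cast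
      rfl
    · have h3 := hmeans (fun d => (d i : ℝ)) ⟨1, 2, fun d => by
        rw [one_mul, abs_of_nonneg (Nat.cast_nonneg _)]
        have h4 : d i ≤ ∑ i, d i := Finset.single_le_sum (f := d) (fun j _ => Nat.zero_le _)
          (Finset.mem_univ i)
        have h5 : d i ≤ 2 ^ (∑ i, d i) := h4.trans (Nat.lt_two_pow_self).le
        exact_mod_cast h5⟩
      rw [Run7.h908.JP.Fib.tsum_coord i] at h3
      exact h3

end Run7.h286.JointLaw
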