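import Pool.Agent.Run7.h286.PL.AllM
import Pool.Agent.Run7.h286.PL.Core
import Pool.Agent.Run7.h886.PL.Seq

/-!
# `#Sel(J_D, 2) = (J_D(K) : 2 J_D(K)) * #Sha(J_D)[2]` for all the twists (project PRL)
-/

set_option autoImplicit false

open Polynomial IsDedekindDomain
open scoped Classical
open Run7.h784.TG
open Run7.h286.PLC
open Pool.Agent.Y713.Jac (J)

namespace Run7.h286.PL

theorem seq_tw {k : Type} [Field k] [Finite k] {g N : ℕ} {r : k[X]} {f : k[X][X]}
    (hf : Fm g N r f) (K : Type) [Field K] [Algebra k[X] K] [IsFractionRing k[X] K]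
    {D : k[X]} (hD0 : D ≠ 0) :
    Nat.card (SelH ((f.scaleRoots D).map (algebraMap k[X] K)) (AllPl k K)) =
      (powMonoidHom 2 : J 2 ((f.scaleRoots D).map (algebraMap k[X] K)) K →* _).range.index *
      Nat.card (Run7.h886.PL.ShaH ((f.scaleRoots D).map (algebraMap k[X] K)) (AllPl k K)) := by
  have hF := hf.fam
  have hinj : Function.Injective (algebraMap k[X] K) := IsFractionRing.injective _ _
  obtain ⟨q1, q2, q3⟩ := Pool.Agent.N134.PJ.irk g k K f N r D hF.ht hf.gr hF.inf hD0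
  have hmon : ((f.scaleRoots D).map (algebraMap k[X] K)).Monic :=
    ((monic_scaleRoots_iff D).2 hF.ht.mon).map _
  have hsep : ((f.scaleRoots D).map (algebraMap k[X] K)).Separable := (q3 hF.sq.ne_zero).2
  have hodd : Odd ((f.scaleRoots D).map (algebraMap k[X] K)).natDegree := by
    rw [((monic_scaleRoots_iff D).2 hF.ht.mon).natDegree_map, natDegree_scaleRoots, hF.ht.deg]
    exact ⟨g, rfl⟩
  have h2 : (2 : K) ≠ 0 := by
    have h3 : (C (2 : k) : k[X]) ≠ 0 := C_ne_zero.2 hf.two
    have h4 : algebraMap k[X] K (C (2 : k)) ≠ 0 := (map_ne_zero_iff _ hinj).2 h3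
    rwa [show (C (2 : k) : k[X]) = 2 from map_ofNat C 2, map_ofNat] at h4
  exact Run7.h886.PL.card_sel h2 hmon hsep hodd _

end Run7.h286.PL
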