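import Pool.Agent.Run7.h286.PL.Stm

/-!
# Project PRL (helper286): statements of the pieces, counting side
-/

set_option autoImplicit false
set_option linter.all false

open Polynomial IsDedekindDomain
open scoped Classical

namespace Run7.h286.PL

open Pool.Agent.N874.PP (Ov Ev Sq1)
open Pool.Agent.N352.PJ (IsGen Crd LocIm SelZero Fam GoodR Ht dsc)
open Run7.h875.TS (chi cd IsPC GSq irrD dg NRs uT sqf prD sqL sz Tr)
open Run7.h784.TG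

/-- **KILL2** (helper908; two-sided KILL). -/
def P_KILL2 : Prop := ∀ (k : Type) [Field k] [Finite k] (g N : ℕ) (r : k[X]) (f : k[X][X]),
  Fm g N r f → Full f → ∃ C₀ : ℕ,
    ∀ (K L O : Type) [Field K] [Algebra k[X] K] [IsFractionRing k[X] K]
    [Field L] [Algebra K L] [Algebra k[X] L] [IsScalarTower k[X] K L] [CommRing O]
    [IsDedekindDomain O] [Algebra O L] [IsFractionRing O L] [Algebra k[X] O]
    [IsScalarTower k[X] O L] [IsIntegralClosure O k[X] L] (θ : L), IsGen g K f θ →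
    (∀ m : ℕ, 0 < m → |(((irrD k m).filter fun Q => ¬ Q ∣ dsc g f ∧ nr O Q = 2).card : ℝ) -
      del1 g * (Nat.card k : ℝ) ^ m / m| ≤ C₀ * √((Nat.card k : ℝ) ^ m)) ∧
    ∀ (α : L) (z : Fin (2 * g + 1) → k[X]) (N' : ℕ), α ≠ 0 → IsSquare (Algebra.norm K α) →
      ¬ IsSquare α → Crd g θ z α → (∀ i, (z i).natDegree ≤ N') → ∀ m : ℕ, 0 < m →
      |(((irrD k m).filter fun Q => ¬ Q ∣ dsc g f ∧ nr O Q = 2 ∧ ¬ Tr O Q α).card : ℝ) -
        del1 g / 2 * (Nat.card k : ℝ) ^ m / m| ≤ C₀ * (1 + N') * √((Nat.card k : ℝ) ^ m)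

/-- **LAST2** (about 300 lines, two-sided LAST; adapt `Run7.h973.TG.T_LAST`). Equidistribution of the
quadratic characters of the primes with `nr = 1`; for `S = ∅` this is their number. -/
def P_LAST2 : Prop := ∀ (k : Type) [Field k] [Finite k] (g N : ℕ) (r : k[X]) (f : k[X][X]),
  Fm g N r f → Full f → ∃ C₀ : ℕ,
    ∀ (K L O : Type) [Field K] [Algebra k[X] K] [IsFractionRing k[X] K]
    [Field L] [Algebra K L] [Algebra k[X] L] [IsScalarTower k[X] K L] [CommRing O]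
    [IsDedekindDomain O] [Algebra O L] [IsFractionRing O L] [Algebra k[X] O]
    [IsScalarTower k[X] O L] [IsIntegralClosure O k[X] L] (θ : L), IsGen g K f θ →
    ∀ (S : Finset k[X]) (η : k[X] → Prop),
    (∀ P ∈ S, P.Monic ∧ Irreducible P ∧ ¬ P ∣ dsc g f) → ∀ m : ℕ, 0 < m →
      |(((irrD k m).filter fun Q => ¬ Q ∣ dsc g f ∧ nr O Q = 1 ∧ Q ∉ S ∧
          ∀ P ∈ S, (∃ z : k[X], P ∣ z ^ 2 - Q) ↔ η P).card : ℝ) -
        del0 g * (1 / 2) ^ S.card * (Nat.card k : ℝ) ^ m / m| ≤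
          C₀ * (1 + dg S) * √((Nat.card k : ℝ) ^ m)

/-- **S1** (about 400 lines, from KILL2, LAST2 (`S = ∅`), EXS, POW, REP, GRP). One step of the Markov chain.

Proof. (i) First for a fixed `u`: `G = SelG S u`, `s = sz G = 2 ^ ld G`; choose representatives
`α` of the classes modulo squares with coordinates of degree `≤ C (1 + dg S)` (REP). For `Q` with `nr Q = 2`,
not in `S`, prime to `dsc`, the set of the `α` trivial at `Q` is a subgroup of index at most two (STEP: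
`sz G ≤ 2 sz (G ⊓ T)`). So `#{Q : G trivial at Q} s = ∑_Q (2 sz (G ⊓ T_Q) - s) = ∑_α ∑_Q (1 - 2 [α not trivial at Q])
= s #{Q} - 2 ∑_{α ≠ 1} #{Q : α not trivial at Q}`, which is by KILL2
`δ₁ q ^ m / m + O(s C (1 + dg S) √q ^ m)`: divide by `s`. By EXS the dimension becomes `d + 1` if `G` is trivial at
`Q`, otherwise `d - 1` (whatever `w` is): so `∑_Q φ(ld G') = δ₁ q ^ m / m (Mk φ)(d) + O(..)`. The `Q` in `S` are at
most `dg S`. (ii) Average over `T`: the subsets of `insert Q S` are `T`, `insert Q T`, `SelG` depends only on the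
values of `u` on the set, `uT` is `update (uT T) Q 1` resp. `update (uT T) Q (nrs Q)`. (iii) For `nr Q = 1`:
`av φ (insert Q S) = av φ S` (EXS), `#{Q : nr Q = 1} = δ₀ q ^ m / m + O(√q ^ m)`. -/
def P_S1 : Prop := ∀ (k K L O : Type) [Field k] [Finite k] [Field K] [Algebra k[X] K]
  [IsFractionRing k[X] K]
  [Field L] [Algebra K L] [Algebra k[X] L] [IsScalarTower k[X] K L] [CommRing O]
  [IsDedekindDomain O] [Algebra O L] [IsFractionRing O L] [Algebra k[X] O]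
  [IsScalarTower k[X] O L] [IsIntegralClosure O k[X] L] (g N : ℕ) (r : k[X]) (f : k[X][X]) (θ : L),
  Fm g N r f → Full f → IsGen g K f θ → ∀ nrs : k[X] → k[X], NRs nrs →
  (∀ (φ : ℕ → ℝ) (S : Finset k[X]), (∀ P ∈ S, P.Monic ∧ Irreducible P ∧ ¬ P ∣ dsc g f) →
    ∀ Q : k[X], Q.Monic → Irreducible Q → Q ∉ S → ¬ Q ∣ dsc g f → nr O Q = 1 →
      av O K f θ nrs φ (insert Q S) = av O K f θ nrs φ S) ∧
  ∃ C₀ : ℕ, ∀ φ : ℕ → ℝ, (∀ d, |φ d| ≤ 1) → ∀ S : Finset k[X],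
    (∀ P ∈ S, P.Monic ∧ Irreducible P ∧ ¬ P ∣ dsc g f) → ∀ m : ℕ, 0 < m →
    |∑ Q ∈ (irrD k m).filter (fun Q => nr O Q ≤ 2 ∧ Q ∉ S ∧ ¬ Q ∣ dsc g f),
        av O K f θ nrs φ (insert Q S) -
      (del0 g + del1 g) * (Nat.card k : ℝ) ^ m / m *
        av O K f θ nrs (Mz (del1 g / (del0 g + del1 g)) φ) S| ≤
      C₀ * (1 + dg S) * √((Nat.card k : ℝ) ^ m)

/-- **S0** (about 300 lines, from LAST2, CLSU, EXS, GRP). A prime with `nr = 1` makes the local classes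
uniform.

Proof. Let `S = prD D`, `Q` not dividing `D`, `nr Q = 1`. `prD (D Q) = insert Q S`; by EXS the group for `D Q` is
`SelG S (fun P => D Q / P)`, `D Q / P = (D / P) Q`. By CLSU it depends only on the set `T` of the `P` in `S` for
which `(D / P) Q` is not a square modulo `P`: it is `SelG S (uT nrs T)` (the quotient of two nonsquares modulo
`P` is a square). `T ↦ {P : Q is a square modulo P}` is a bijection of the subsets of `S`. For each of the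
`2 ^ |S|` sets LAST2 gives the number of the `Q`. `dg S = deg D`. -/
def P_S0 : Prop := ∀ (k K L O : Type) [Field k] [Finite k] [Field K] [Algebra k[X] K]
  [IsFractionRing k[X] K]
  [Field L] [Algebra K L] [Algebra k[X] L] [IsScalarTower k[X] K L] [CommRing O]
  [IsDedekindDomain O] [Algebra O L] [IsFractionRing O L] [Algebra k[X] O]
  [IsScalarTower k[X] O L] [IsIntegralClosure O k[X] L] (g N : ℕ) (r : k[X]) (f : k[X][X]) (θ : L),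
  Fm g N r f → Full f → IsGen g K f θ → ∀ nrs : k[X] → k[X], NRs nrs →
  ∃ C₀ : ℕ, ∀ φ : ℕ → ℝ, (∀ d, |φ d| ≤ 1) → ∀ D : k[X], D.Monic → Squarefree D →
    IsCoprime D (dsc g f) → ∀ m : ℕ, 0 < m →
    |∑ Q ∈ (irrD k m).filter (fun Q => nr O Q = 1 ∧ ¬ Q ∣ D ∧ ¬ Q ∣ dsc g f),
        φ (dimS O K f θ (D * Q)) -
      del0 g * (Nat.card k : ℝ) ^ m / m * av O K f θ nrs φ (prD D)| ≤
      C₀ * 2 ^ (prD D).card * (1 + D.natDegree) * √((Nat.card k : ℝ) ^ m)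

/-- **MC** (about 350 lines, real analysis). The lazy chain converges to the law `Lw`, `0 < ρ < 1`.

Proof. `wt (d+1) / wt d = 2 / (2 ^ (d+1) - 1)`, `wt d 2 ^ (-d) = wt (d+1) (1 - 2 ^ (-d-1))` (detailed balance), so
`∑ wt Mk φ = ∑ wt φ` for `|φ(d)| ≤ C 2 ^ d` (`∑ wt d 2 ^ d < ∞`). For `ψ(y) = φ(y+1) - φ(y-1)`, `y ≥ 1`:
`ψ_{Mk φ}(y) = 2 ^ (-y-1) ψ(y+1) + (1 - 2 ^ (1-y)) ψ(y-1)` (the second coefficient is zero for `y = 1`), so with the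
norm `sup |ψ(y)| / 2 ^ y` the factor is `2 ^ (-y) + (1 - 2 ^ (1-y)) / 2 = 1 / 2`: for the lazy chain
`κ₁ = 1 - ρ / 2`. Let `φ_R = Mz^R φ`; then `|φ_R(x) - φ_R(x mod 2)| ≤ C κ₁^R 2 ^ x`;
`φ_{R+1}(0) = (1-ρ) φ_R(0) + ρ φ_R(1)`, `φ_{R+1}(1) = (1-ρ) φ_R(1) + ρ φ_R(0) + O(κ₁^R)`, so the difference
`φ_R(0) - φ_R(1)` is multiplied by `1 - 2 ρ` up to `O(κ₁^R)`: it is `O(R κ₂^R)`, `κ₂ = max(κ₁, |1 - 2 ρ|) < 1`, and
`φ_R(0)` converges to some `ℓ` with the error `O(R κ₂^R)`; `|φ_R(x) - ℓ| ≤ C κ^R 2 ^ x`, `κ₂ < κ < 1`. Finally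
`ℓ ∑ wt = ∑ wt φ`, as `∑ wt φ_R` does not depend on `R`. -/
def P_MC : Prop := ∀ ρ : ℝ, 0 < ρ → ρ < 1 → ∃ C κ : ℝ, 0 < C ∧ 0 < κ ∧ κ < 1 ∧
  ∀ φ : ℕ → ℝ, (∀ d, |φ d| ≤ 1) → ∀ R x : ℕ,
    |(Mz ρ)^[R] φ x| ≤ 1 ∧ |(Mz ρ)^[R] φ x - Lw φ| ≤ C * κ ^ R * 2 ^ x

/-- **REM** (about 150 lines). The removal identity: `(D, Q) ↦ (D / Q, Q)` is a bijection. -/
def P_REM : Prop := ∀ (k : Type) [Field k] [Finite k] (B : k[X]), (2 : k) ≠ 0 → B ≠ 0 →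
  ∀ (N : ℕ) (τ : k[X] → Prop) (F : k[X] → k[X] → ℝ),
  ∑ D ∈ sqF B N, ∑ Q ∈ (prD D).filter τ, F D Q =
    ∑ m ∈ Finset.Icc 1 N, ∑ D ∈ sqF B (N - m),
      ∑ Q ∈ (irrD k m).filter (fun Q => τ Q ∧ ¬ Q ∣ D ∧ ¬ Q ∣ B), F (D * Q) Q

/-- **RAN** (about 250 lines, from REM). Few `D` have few prime factors of a given type (Rankin).

Proof. `a_j = q ^ (-j) ∑_{D ∈ sqF B j} x ^ (b(D))`. `N a_N = q ^ (-N) ∑_D x ^ b(D) ∑_{Q | D} deg Q ≤
∑_{m=1}^N m |irrD m| q ^ (-m) a_{N-m} ≤ ∑_{j<N} a_j` (REM with `τ = True`, `x ≤ 1`, `m |irrD m| ≤ q ^ m`), and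
`∑_{j ≤ N} a_j ≤ ∏_{deg Q ≤ N} (1 + x ^ [τ Q, M < deg Q] q ^ (-deg Q)) ≤
exp(∑_{m ≤ N} q ^ (-m) (|irrD m| - (1 - x) [M < m] #{τ})) ≤ exp(∑_{m ≤ N} 1 / m - (1 - x) δ ∑_{M < m ≤ N} 1 / m + C)
≤ C' N (M / N) ^ ((1-x) δ)`. -/
def P_RAN : Prop := ∀ (k : Type) [Field k] [Finite k] (B : k[X]), (2 : k) ≠ 0 → B ≠ 0 →
  ∀ (τ : k[X] → Prop) (δ : ℝ) (C₀ : ℝ), 0 ≤ δ →
  (∀ m : ℕ, 0 < m → δ * (Nat.card k : ℝ) ^ m / m - C₀ * √((Nat.card k : ℝ) ^ m) ≤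
    (((irrD k m).filter τ).card : ℝ)) →
  ∃ C : ℝ, ∀ x : ℝ, 0 ≤ x → x ≤ 1 → ∀ M N : ℕ, 1 ≤ M → M ≤ N →
    ∑ D ∈ sqF B N, x ^ ((prD D).filter fun Q => τ Q ∧ M < Q.natDegree).card ≤
      C * (Nat.card k : ℝ) ^ N * ((M : ℝ) / N) ^ ((1 - x) * δ)

/-- **DIV** (about 80 lines). The sum of `2 ^ ω(D)`: pairs `(A, D / A)`. Also the trivial bound. -/
def P_DIV : Prop := ∀ (k : Type) [Field k] [Finite k] (B : k[X]), (2 : k) ≠ 0 → B ≠ 0 → ∀ N : ℕ,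
  (∀ D : k[X], D ∈ sqF B N ↔ D ∈ sqf B N) ∧
  (∑ D ∈ sqF B N, (2 : ℝ) ^ (prD D).card ≤ (N + 1) * (Nat.card k : ℝ) ^ N) ∧
  ((sqF B N).card : ℝ) ≤ (Nat.card k : ℝ) ^ N

/-- **NAT** (about 400 lines, from S0, S1 (first part), LAST2 (`S = ∅`), REM, RAN, DIV). The natural law is
the law with uniform local classes.

Proof. `M = √N` (`Nat.sqrt`), `b(D)` the number of the primes `Q` dividing `D` with `nr Q = 1`, `deg Q > M`. For both
functions `F(D) = φ(dimS D)` and `F(D) = av φ (prD D)`: `∑_{b(D) > 0} F(D) = ∑_D ∑_{Q} F(D) / b(D) =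
∑_{M < m ≤ N} ∑_{D' ∈ sqF (N - m)} 1 / (b(D') + 1) ∑_Q F(D' Q)` (REM with `τ Q = (nr Q = 1 ∧ M < deg Q)`), and
`∑_Q F(D' Q) = δ₀ q ^ m / m av φ (prD D') + error`: S0, resp. `av φ (prD (D' Q)) = av φ (prD D')` and LAST2 with
`S = ∅` (the `Q` dividing `D'` are at most `deg D'`). The errors are at most
`∑_{m > M} ∑_{D'} C 2 ^ ω(D') (1 + N) √q ^ m ≤ C (1 + N) ^ 2 q ^ N ∑_{m > M} q ^ (- m / 2) = o(q ^ N)` (DIV). The
`D` with `b(D) = 0`: RAN with `x = 0`, `τ Q = (nr Q = 1)`: `C q ^ N (M / N) ^ δ₀ = o(q ^ N)`. -/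
def P_NAT : Prop := ∀ (k K L O : Type) [Field k] [Finite k] [Field K] [Algebra k[X] K]
  [IsFractionRing k[X] K]
  [Field L] [Algebra K L] [Algebra k[X] L] [IsScalarTower k[X] K L] [CommRing O]
  [IsDedekindDomain O] [Algebra O L] [IsFractionRing O L] [Algebra k[X] O]
  [IsScalarTower k[X] O L] [IsIntegralClosure O k[X] L] (g N : ℕ) (r : k[X]) (f : k[X][X]) (θ : L),
  Fm g N r f → Full f → IsGen g K f θ → ∀ nrs : k[X] → k[X], NRs nrs →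
  ∀ φ : ℕ → ℝ, (∀ d, |φ d| ≤ 1) → ∀ ε : ℝ, 0 < ε → ∃ N₀ : ℕ, ∀ m ≥ N₀,
    |∑ D ∈ sqF (dsc g f) m, φ (dimS O K f θ D) -
      ∑ D ∈ sqF (dsc g f) m, av O K f θ nrs φ (prD D)| ≤ ε * (Nat.card k : ℝ) ^ m

/-- **STP** (about 250 lines, from S1, REM). One step of the iteration, with weights depending on the
number `b = bD 2 M` of the primes with `nr ≤ 2` of degree greater than `M`.

Proof. REM with `τ Q = (nr Q ≤ 2 ∧ M < deg Q)`: the left sum is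
`∑_{M < m ≤ j} ∑_{D' ∈ sqF (j - m)} v(b(D') + 1) ∑_Q av φ (insert Q (prD D'))`; S1 for the inner sum;
`|sqF (j - m)| ≤ q ^ (j - m)`, `dg (prD D') ≤ j`. -/
def P_STP : Prop := ∀ (k K L O : Type) [Field k] [Finite k] [Field K] [Algebra k[X] K]
  [IsFractionRing k[X] K]
  [Field L] [Algebra K L] [Algebra k[X] L] [IsScalarTower k[X] K L] [CommRing O]
  [IsDedekindDomain O] [Algebra O L] [IsFractionRing O L] [Algebra k[X] O]
  [IsScalarTower k[X] O L] [IsIntegralClosure O k[X] L] (g N : ℕ) (r : k[X]) (f : k[X][X]) (θ : L),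
  Fm g N r f → Full f → IsGen g K f θ → ∀ nrs : k[X] → k[X], NRs nrs →
  ∃ C₀ : ℕ, ∀ φ : ℕ → ℝ, (∀ d, |φ d| ≤ 1) → ∀ (v : ℕ → ℝ) (V : ℝ), (∀ b, |v b| ≤ V) → ∀ M j : ℕ,
    |∑ D ∈ sqF (dsc g f) j, (bD O 2 M D : ℝ) * v (bD O 2 M D) * av O K f θ nrs φ (prD D) -
      ∑ m ∈ Finset.Ioc M j, (del0 g + del1 g) * (Nat.card k : ℝ) ^ m / m *
        ∑ D ∈ sqF (dsc g f) (j - m), v (bD O 2 M D + 1) *
          av O K f θ nrs (Mz (del1 g / (del0 g + del1 g)) φ) (prD D)| ≤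
      C₀ * V * (1 + j) * (Nat.card k : ℝ) ^ j / √((Nat.card k : ℝ) ^ M)

/-- **ITR** (about 450 lines, from STP, MC, AVG, RAN, KILL2 and LAST2 (the numbers of primes), DIV, REP). The
law with uniform local classes.

Proof. `δ = δ₀ + δ₁`, `C`, `κ` as in MC, `κ < t < 1`. Fix `R`. `M = √N` (`Nat.sqrt`), `lam = δ log(N / M) → ∞`,
`B₁ = R + ⌈t lam⌉`, `b = bD 2 M`. Let `Y_i(φ)(j) = ∑_{D ∈ sqF j} w_i(b(D)) av φ (prD D)` where `w_i(b) = wD B₁ i b =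
1[b + i ≥ B₁] / ((b + i) .. (b + 1))`; `w_i(b) = b v(b)` with `w_{i+1}(b) = v(b + 1)` (for `b = 0` both sides are
zero as `i < R < B₁`), `v(b) = w_i(b) / b`. STP: `Y_i(φ)(j) = ∑_{M < m ≤ j} δ q ^ m / m Y_{i+1}(Mz φ)(j - m) + error`,
`|error| ≤ C (1 + N) q ^ j q ^ (- M / 2)`. Iterate `R` times from `Y_0(φ)(N)`, for `φ` and for the
constant function `1` (`Mz 1 = 1`): as `∑_{M < m ≤ N} 1 / m ≤ log(N / M)`,
`|Y_0(φ)(N) - Lw φ Y_0(1)(N)| ≤ C' R (1 + N) (1 + lam) ^ R q ^ N q ^ (- M / 2) + lam ^ R sup w_R sup_{j ≤ N} C κ ^ R q ^ (N - j)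
∑_{D ∈ sqF j} av (2 ^ ·) (prD D)`; `sup w_R ≤ (B₁ - R) ^ (-R) ≤ (t lam) ^ (-R)`, and the last sum is
`≤ B q ^ j` by AVG (`2 ^ ld ≤ sz`): the second term is `≤ C B (κ / t) ^ R q ^ N`. The `D` with `b(D) < B₁`: by RAN
(`τ Q = (nr Q ≤ 2)`) at most `t ^ (-B₁) ∑ t ^ b(D) ≤ C t ^ (-R-1) exp(- lam (1 - t + t log t)) q ^ N = o(q ^ N)`
(`1 - t + t log t > 0` for `0 < t < 1`). First choose `R`, then `N`. -/
def P_ITR : Prop := ∀ (k K L O : Type) [Field k] [Finite k] [Field K] [Algebra k[X] K]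
  [IsFractionRing k[X] K]
  [Field L] [Algebra K L] [Algebra k[X] L] [IsScalarTower k[X] K L] [CommRing O]
  [IsDedekindDomain O] [Algebra O L] [IsFractionRing O L] [Algebra k[X] O]
  [IsScalarTower k[X] O L] [IsIntegralClosure O k[X] L] (g N : ℕ) (r : k[X]) (f : k[X][X]) (θ : L),
  Fm g N r f → Full f → IsGen g K f θ → ∀ nrs : k[X] → k[X], NRs nrs →
  ∀ φ : ℕ → ℝ, (∀ d, |φ d| ≤ 1) → ∀ ε : ℝ, 0 < ε → ∃ N₀ : ℕ, ∀ m ≥ N₀,
    |∑ D ∈ sqF (dsc g f) m, (av O K f θ nrs φ (prD D) - Lw φ)| ≤ ε * (Nat.card k : ℝ) ^ m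

/-- **LAW** (about 80 lines, from NAT, ITR, SQF3, DIV, `NRs` exists). The law of the explicit Selmer groups
in the natural ordering. -/
def P_LAW : Prop := ∀ (k K L O : Type) [Field k] [Finite k] [Field K] [Algebra k[X] K]
  [IsFractionRing k[X] K]
  [Field L] [Algebra K L] [Algebra k[X] L] [IsScalarTower k[X] K L] [CommRing O]
  [IsDedekindDomain O] [Algebra O L] [IsFractionRing O L] [Algebra k[X] O]
  [IsScalarTower k[X] O L] [IsIntegralClosure O k[X] L] (g N : ℕ) (r : k[X]) (f : k[X][X]) (θ : L),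
  Fm g N r f → Full f → IsGen g K f θ → ∀ φ : ℕ → ℝ, (∀ d, |φ d| ≤ 1) →
    Filter.Tendsto (fun m => (∑ D ∈ sqF (dsc g f) m, φ (dimS O K f θ D)) /
      ((sqF (dsc g f) m).card : ℝ)) Filter.atTop (nhds (Lw φ))

/-- **NUM** (about 120 lines). The sum of the weights: Euler's product and a numerical value.

Proof. For `|x| ≤ 1`: `F(x) = ∑ x ^ d wt d / 2 ^ d 2 ^ d`..; with `W(x) = ∑ wt d x ^ d` one has
`W(x) = (1 + x) W(x / 2)` (compare coefficients: `wt d (1 - 2 ^ (-d)) = wt (d-1) 2 ^ (-(d-1))`), `W` is continuous at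
`0`, so `W(1) = ∏_{j ≥ 0} (1 + 2 ^ (-j))`. -/
def P_NUM : Prop :=
  (∀ d, 0 < wt d) ∧ Summable wt ∧ HasProd (fun j : ℕ => 1 + (1 / 2 : ℝ) ^ j) (∑' d, wt d) ∧
  |∑' d, wt d - 4.76846| < 0.00001 ∧ Summable (fun d => wt d * 2 ^ d)

end Run7.h286.PL
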