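import Pool.Agent.Run7.h286.PL.StmA

/-!
# Project PRL (helper286): statements of the pieces, the true 2-Selmer groups and the final theorems
-/

set_option autoImplicit false
set_option linter.all false

open Polynomial IsDedekindDomain
open scoped Classical

namespace Run7.h286.PL

open Pool.Agent.N874.PP (Ov Ev Sq1)
open Pool.Agent.N352.PJ (IsGen Crd LocIm SelZero Fam GoodR Ht dsc)
open Run7.h875.TS (chi cd IsPC GSq irrD dg NRs uT sqf prD sqL sz Tr)
open Run7.h784.TG

/-- **FF** (about 300 lines). Classes over a finite field are values of polynomials `u ∣ v ^ 2 - F`.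

Proof. Let `ε_p = ± 1` say whether `h` is a square modulo `p`, `p` the irreducible factors of `F₁ F₂`. Wanted: `u`
monic irreducible of even degree, not dividing `F₁ F₂`, with `(u / p) = ε_p` for all `p`. By quadratic
reciprocity (in the tree, used in `Run7.h973.TG.T_LAST`; no sign as `deg u` is even) `(u / p) = (p / u)`. So take
`F ⊇ κ` of even large degree `m` and `t` in `F` of degree `m` with `χ(p(t)) = ε_p` for all `p`: `∑_t ∏_p (1 + ε_p χ(p(t))) / 2`
is `|F| / 2 ^ #p + O(√|F|)` by the Weil bound (`S_DOUBLE` with `H = X`, `D = 1`, proved in Run7/h984/TS/Double.lean, or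
any other in the tree); `S_TRS`: few `t` have smaller degree. Then `(F₁ / u) = ∏_{p ∣ F₁} ε_p = χ_κ(norm of h)
= 1`: `v` exists; and `h u` is a square modulo all `p`, so modulo `F₁ F₂`. -/
def P_FF : Prop := ∀ (κ : Type) [Field κ] [Finite κ], (2 : κ) ≠ 0 → ∀ F₁ F₂ h : κ[X], F₁.Monic → F₂.Monic →
  0 < F₁.natDegree → Squarefree (F₁ * F₂) → IsCoprime h (F₁ * F₂) →
  IsSquare (Algebra.norm κ (AdjoinRoot.mk F₁ h)) →
  ∃ u v s : κ[X], u.Monic ∧ Irreducible u ∧ Even u.natDegree ∧ IsCoprime u (F₁ * F₂) ∧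
    u ∣ v ^ 2 - F₁ ∧ F₁ * F₂ ∣ h * u - s ^ 2

/-- **HSQ** (about 100 lines). Square roots modulo a monic polynomial over a complete ring.

Proof. `A = AdjoinRoot F` is a finite free module over `R`, so complete for `I A`; Hensel's lemma
(Mathlib: `IsAdicComplete` gives `HenselianRing`) for `Y ^ 2 - c`, whose derivative `2 s` is a unit modulo `I A`, or
Newton's iteration by hand on coefficients. -/
def P_HSQ : Prop := ∀ (R : Type) [CommRing R] (I : Ideal R) [IsAdicComplete I R], IsUnit (2 : R) →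
  ∀ F c s q : R[X], F.Monic → (∀ j, (c - s ^ 2 - F * q).coeff j ∈ I) →
    (∃ a b : R[X], ∀ j, (a * c + b * F - 1).coeff j ∈ I) → ∃ s' q' : R[X], c = s' ^ 2 + F * q'

/-- **HFC** (about 200 lines). Hensel's lemma for coprime factorisations over a complete ring.
(Successive approximation; search the tree and Mathlib first.) -/
def P_HFC : Prop := ∀ (R : Type) [CommRing R] (I : Ideal R) [IsAdicComplete I R],
  ∀ F a b : R[X], F.Monic → a.Monic → b.Monic → F.natDegree = a.natDegree + b.natDegree →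
    (∀ j, (F - a * b).coeff j ∈ I) →
    (∃ x y : R[X], ∀ j, (x * a + y * b - 1).coeff j ∈ I) →
    ∃ a' b' : R[X], a'.Monic ∧ b'.Monic ∧ a'.natDegree = a.natDegree ∧ F = a' * b' ∧
      (∀ j, (a' - a).coeff j ∈ I) ∧ ∀ j, (b' - b).coeff j ∈ I

/-- **EQ1** (about 500 lines, from FF, HSQ; the converse of `S_LOC1`). At the primes `P` not dividing the
twist, also those dividing the discriminant, the classes with even valuations are local images.

Proof. `E` the completion at `v`, `R` its ring of integers, `κ` the residue field, `Θ = D θ`, `F_D = f.scaleRoots D`;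
`P ∤ D`, so `O` localised at `P` is `k[X]_P[Θ]` (`S_INT`). By weak approximation `α = h(Θ) = β ^ 2 ε` with `ε` a unit at
all `𝔓` over `P`, `ε = h₁(Θ)` with `h₁` over `k[X]_P`. Modulo `P`: `F_D ≡ ∏ p ^ e_p`; let `F₁` be the product of the `p` with
`e_p` odd (its degree is odd as `n` is), `F₂` that of the others: `F_D ≡ F₁ G ^ 2`; `h₁` is coprime to `F_D`. The norm of `ε`
is a square, so the norm of `h₁` modulo `F_D`, which is a square times the norm modulo `F₁`. FF gives `u`, `v`, `s`.
Lift `u` to a monic `u` over `R`. HSQ for the modulus `u`: `v ^ 2 ≡ F_D` (reduction `(v G) ^ 2`); HSQ for the modulus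
`F_D` (a square modulo `F₁ F₂` prime to it is a square modulo `F_D`, as 2 is invertible): `h₁ u` is a square modulo
`F_D`. So `h u` is a square modulo `F_D` over `E`; `(-1) ^ deg u = 1`. -/
def P_EQ1 : Prop := ∀ (k K L O : Type) [Field k] [Finite k] [Field K] [Algebra k[X] K]
  [IsFractionRing k[X] K]
  [Field L] [Algebra K L] [Algebra k[X] L] [IsScalarTower k[X] K L] [CommRing O]
  [IsDedekindDomain O] [Algebra O L] [IsFractionRing O L] [Algebra k[X] O]
  [IsScalarTower k[X] O L] [IsIntegralClosure O k[X] L] (g N : ℕ) (r : k[X]) (f : k[X][X]) (θ : L),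
  Fm g N r f → IsGen g K f θ →
  ∀ (P : k[X]) (v : HeightOneSpectrum k[X]), Irreducible P → v.asIdeal = Ideal.span {P} →
  ∀ (D : k[X]) (h : K[X]), ¬ P ∣ D → aeval (algebraMap k[X] L D * θ) h ≠ 0 →
    IsSquare (Algebra.norm K (aeval (algebraMap k[X] L D * θ) h)) →
    (∀ 𝔓 : HeightOneSpectrum O, Ov P 𝔓 → Ev 𝔓 (aeval (algebraMap k[X] L D * θ) h)) →
    LocIm v (f.scaleRoots D) h

/-- **EQ2** (about 350 lines, from HFC, HSQ; the converse of LOCW). At the primes of the twist.

Proof. `a`, `b` from `LocW`, coprime modulo `Q`. Over the ring of integers `R` of the completion `E`: `f - D = a' b'`,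
`D = Q D'`, `a' ≡ a`, `b' ≡ b` (HFC; `f - D ≡ a b` modulo `Q`). Let `u(x) = D ^ (deg a) a'(x / D)` (`a'.scaleRoots D`),
`v = D ^ (g + 1)` constant: `v ^ 2 - D ^ (2 g + 1) f(x / D) = - D ^ (2 g + 1) (f - D)(x / D)` is divisible by `u`, and
`u` is coprime to `f.scaleRoots D` since `f = D ≠ 0` at the zeros of `a'`. `deg u` is even. `u(D θ) = D ^ (deg a) a'(θ)`,
`deg a` even, and `a'(θ) b'(θ) = - D`: so `a'(θ)` has the class of `- D b(θ)` at the `𝔓` with `a(θ)` in `𝔓`, and
that of `a(θ)` at the others. So `α a'(θ)` is a square at all `𝔓` over `Q` (`LocW`), so a square in `E[x] / (f)`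
(weak approximation as in EQ1 to reduce to units, then HSQ). -/
def P_EQ2 : Prop := ∀ (k K L O : Type) [Field k] [Finite k] [Field K] [Algebra k[X] K]
  [IsFractionRing k[X] K]
  [Field L] [Algebra K L] [Algebra k[X] L] [IsScalarTower k[X] K L] [CommRing O]
  [IsDedekindDomain O] [Algebra O L] [IsFractionRing O L] [Algebra k[X] O]
  [IsScalarTower k[X] O L] [IsIntegralClosure O k[X] L] (g N : ℕ) (r : k[X]) (f : k[X][X]) (θ : L),
  Fm g N r f → IsGen g K f θ →
  ∀ (Q : k[X]) (v : HeightOneSpectrum k[X]), Q.Monic → Irreducible Q → ¬ Q ∣ dsc g f →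
  v.asIdeal = Ideal.span {Q} → ∀ (D' : k[X]) (h : K[X]), ¬ Q ∣ D' →
    aeval (algebraMap k[X] L (Q * D') * θ) h ≠ 0 →
    LocW O f θ Q (Q * D') (aeval (algebraMap k[X] L (Q * D') * θ) h) →
    LocIm v (f.scaleRoots (Q * D')) h

/-- **BRG** (about 300 lines). The explicit Selmer group is the 2-Selmer group of the Jacobian of the twist.

Proof. `K[x] / (f.scaleRoots D) ≅ L`, `x ↦ D θ` (both of degree `n`). The `α` with `LocIm` for all `v` form a group
containing the squares (concatenate the lists), so the closure in `SelJ` is this set. First part: `LocIm`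
implies `SelC` (LOCW and `S_LOC1`: as in `Run7.h81.TG.conc`). Second part: EQ1, EQ2. `v ↔` the monic generator
of `v.asIdeal`; for `P ∣ D` use `D = P (D / P)`. `ld`, `rkJ` are `Nat.log 2` of the indices (finite: REP). -/
def P_BRG : Prop := ∀ (k K L O : Type) [Field k] [Finite k] [Field K] [Algebra k[X] K]
  [IsFractionRing k[X] K]
  [Field L] [Algebra K L] [Algebra k[X] L] [IsScalarTower k[X] K L] [CommRing O]
  [IsDedekindDomain O] [Algebra O L] [IsFractionRing O L] [Algebra k[X] O]
  [IsScalarTower k[X] O L] [IsIntegralClosure O k[X] L] (g N : ℕ) (r : k[X]) (f : k[X][X]) (θ : L),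
  Fm g N r f → IsGen g K f θ → ∀ D : k[X], D.Monic → Squarefree D →
  (∀ P : k[X], Irreducible P → P ∣ D → ¬ P ∣ dsc g f) →
    rkJ K (f.scaleRoots D) ≤ dimS O K f θ D ∧
    (P_EQ1 → P_EQ2 → rkJ K (f.scaleRoots D) = dimS O K f θ D)

/-- **FINI** (about 200 lines, from LAW, BRG (first part), CONC, NUM, FULL). At least the expected
proportion of small 2-Selmer groups. -/
def P_FINI : Prop := ∀ (k : Type) [Field k] [Finite k] (g N : ℕ) (r : k[X]) (f : k[X][X]),
  Fm g N r f → ∀ (K : Type) [Field K] [Algebra k[X] K] [IsFractionRing k[X] K],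
  (∀ (d : ℕ) (ε : ℝ), 0 < ε → ∃ N₀ : ℕ, ∀ m ≥ N₀,
    ((∑ i ∈ Finset.range (d + 1), wt i) / (∑' i, wt i) - ε) * ((sqF (dsc g f) m).card : ℝ) ≤
      (((sqF (dsc g f) m).filter fun D => rkJ K (f.scaleRoots D) ≤ d).card : ℝ)) ∧
  ∀ ε : ℝ, 0 < ε → ∃ N₀ : ℕ, ∀ m ≥ N₀,
    (1 / (∑' i, wt i) - ε) * ((sqF (dsc g f) m).card : ℝ) ≤
      (((sqF (dsc g f) m).filter fun D => SelZero K (f.scaleRoots D)).card : ℝ)

/-- **FINL** (about 150 lines, from LAW, BRG, EQ1, EQ2, FULL). The exact law of the 2-Selmer ranks. -/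
def P_FINL : Prop := ∀ (k : Type) [Field k] [Finite k] (g N : ℕ) (r : k[X]) (f : k[X][X]),
  Fm g N r f → ∀ (K : Type) [Field K] [Algebra k[X] K] [IsFractionRing k[X] K], ∀ d : ℕ,
  Filter.Tendsto (fun m => (((sqF (dsc g f) m).filter fun D =>
      rkJ K (f.scaleRoots D) = d).card : ℝ) / ((sqF (dsc g f) m).card : ℝ)) Filter.atTop
    (nhds (wt d / ∑' i, wt i))

end Run7.h286.PL
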