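import Pool.Agent.Run7.h286.PL.SelDef
import Pool.Agent.N415.PJ.MAIN
import Pool.Agent.N615.JM.FamT2
import Pool.Agent.N738.PJ.Exs

/-!
# The law and all the moments of the 2-Selmer groups of the quadratic twists of a hyperelliptic
Jacobian over `k(t)` (project PRL): the definitions and the theorem of
`Results/MP_60d5ce_nt/ExactLawOfTwists.lean`, for use in other files.
-/

set_option autoImplicit false
set_option linter.all false

namespace Run7.h286.SurfLaw

open Polynomial Filter IsDedekindDomain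
open scoped Classical Topology
open Run7.h286.SelDef (Selmer selmerRank Meaning)
open Pool.Agent.Y713.Jac (J)
open Pool.Agent.N352.Sha (UniquelyDivisible ShaTrivial)

section defs

variable {k : Type} [Field k]

/-- The discriminant of the monic polynomial `f` of degree `2 g + 1` in `x` over `k[t]`, up to the
sign: the resultant of `f` and its derivative. -/
noncomputable def discriminant (g : ℕ) (f : k[X][X]) : k[X] :=
  f.resultant (derivative f) (2 * g + 1) (2 * g)

/-- `f = x ^ (2 g + 1) + f_{2 g - 1} x ^ (2 g - 1) + ... + f_0` with `deg f_j ≤ M (2 g + 1 - j)`. -/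
structure HasHeight (g M : ℕ) (f : k[X][X]) : Prop where
  monic : f.Monic
  degree : f.natDegree = 2 * g + 1
  trace : f.coeff (2 * g) = 0
  height : ∀ j ≤ 2 * g, (f.coeff j).natDegree ≤ M * (2 * g + 1 - j)

/-- The reduction of `f` at infinity, the polynomial `x ^ (2 g + 1) + ∑ r_j x ^ j` over `k` where `r_j`
is the coefficient of `t ^ (M (2 g + 1 - j))` in `f_j`. -/
noncomputable def atInfinity (g M : ℕ) (f : k[X][X]) : k[X] :=
  X ^ (2 * g + 1) + ∑ j ∈ Finset.range (2 * g + 1), C ((f.coeff j).coeff (M * (2 * g + 1 - j))) * X ^ j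

/-- The family of curves: squarefree discriminant, irreducible reduction at infinity. -/
structure InFamily (g N : ℕ) (f : k[X][X]) : Prop extends HasHeight g (2 * N) f where
  inert : Irreducible (atInfinity g (2 * N) f)
  squarefree : Squarefree (discriminant g f)

/-- The squarefree polynomials `D` of degree `m` with leading coefficient `u`, prime to the
discriminant of `f`. -/
def Twists (g : ℕ) (f : k[X][X]) (u : k) (m : ℕ) : Set k[X] :=
  {D | D.leadingCoeff = u ∧ D.natDegree = m ∧ Squarefree D ∧ IsCoprime D (discriminant g f)}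

variable (K : Type) [Field K] [Algebra k[X] K] [IsFractionRing k[X] K]

/-- The monic equation `y ^ 2 = D ^ (2 g + 1) f(x / D)` of the quadratic twist `D y ^ 2 = f(x)` over
`K = k(t)`. -/
noncomputable def twist (f : k[X][X]) (D : k[X]) : K[X] := (f.scaleRoots D).map (algebraMap k[X] K)

end defs

/-- The law of Poonen and Rains. -/
noncomputable def prob (d : ℕ) : ℝ :=
  (∏' j : ℕ, (1 + (1 / 2 : ℝ) ^ j))⁻¹ * ∏ i ∈ Finset.range d, (2 : ℝ) / (2 ^ (i + 1) - 1)

section statements

variable {k : Type} [Field k] (K : Type) [Field K] [Algebra k[X] K] [IsFractionRing k[X] K]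

/-- The mean of `F` over the twists of degree `m` tends to `l`. -/
def MeanTendsTo (g : ℕ) (f : k[X][X]) (u : k) (F : k[X] → ℝ) (l : ℝ) : Prop :=
  Tendsto (fun m => (∑ᶠ D ∈ Twists g f u m, F D) / ((Twists g f u m).ncard : ℝ)) atTop (𝓝 l)

/-- The 2-Selmer group has order `2 ^ d` for the proportion `prob d` of the twists. -/
def HasLaw (g : ℕ) (f : k[X][X]) (u : k) : Prop :=
  ∀ d : ℕ, Tendsto (fun m => (({D ∈ Twists g f u m | Nat.card (Selmer k (twist K f D)) = 2 ^ d} :
    Set k[X]).ncard : ℝ) / ((Twists g f u m).ncard : ℝ)) atTop (𝓝 (prob d))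

/-- The moments of the order of the 2-Selmer groups. -/
def HasMoments (g : ℕ) (f : k[X][X]) (u : k) : Prop :=
  ∀ j : ℕ, MeanTendsTo g f u (fun D => (Nat.card (Selmer k (twist K f D)) : ℝ) ^ j)
    (∏ i ∈ Finset.Icc 1 j, (1 + (2 : ℝ) ^ i))

/-- The averages of the functions of exponential growth of the dimension. -/
def HasMeans (g : ℕ) (f : k[X][X]) (u : k) : Prop :=
  ∀ φ : ℕ → ℝ, (∃ C y : ℝ, ∀ d, |φ d| ≤ C * y ^ d) →
    MeanTendsTo g f u (fun D => φ (selmerRank k (twist K f D))) (∑' d, prob d * φ d)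

/-- For at least `20.97` percent of the twists of every large degree the group `J(K)` is uniquely
divisible by two and the 2-primary part of the Tate-Shafarevich group is zero. -/
def HasManyTrivial (g : ℕ) (f : k[X][X]) (u : k) : Prop :=
  ∀ᶠ m : ℕ in atTop, (0.2097 : ℝ) * ((Twists g f u m).ncard : ℝ) ≤
    (({D ∈ Twists g f u m | UniquelyDivisible 2 (J 2 (twist K f D) K) ∧
      ShaTrivial 2 (twist K f D) k[X]} : Set k[X]).ncard : ℝ)

/-- The law and all the moments of the 2-Selmer groups of the twists. -/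
structure ExactLaw (g : ℕ) (f : k[X][X]) (u : k) : Prop where
  law : HasLaw K g f u
  moments : HasMoments K g f u
  means : HasMeans K g f u
  meaning : ∀ m, ∀ D ∈ Twists g f u m, Meaning k (twist K f D)
  trivial : HasManyTrivial K g f u

end statements

/-- Numerical values for the law. -/
structure Values : Prop where
  sum : HasSum prob 1
  zero : 0.2097 < prob 0
  zeroOne : 0.629 < prob 0 + prob 1
  mean : HasSum (fun j : ℕ => 1 / ((2 : ℝ) ^ j + 1)) (∑' d, prob d * d)
  meanLt : ∑' d, prob d * (d : ℝ) < 1.2646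
  parity : ∑' d, prob d * (-1) ^ d = 0

/-- A positive proportion of the polynomials of height `2 N` is in the family, as `N → ∞`. -/
def PositiveProportion (g : ℕ) (k : Type) [Field k] : Prop :=
  ∃ c : ℝ, 0 < c ∧ ∀ᶠ N : ℕ in atTop, 0 < {f : k[X][X] | HasHeight g (2 * N) f}.ncard ∧
    c * ({f : k[X][X] | HasHeight g (2 * N) f}.ncard : ℝ) ≤ ({f : k[X][X] | InFamily g N f}.ncard : ℝ)

section lemmas

variable {k : Type} [Field k]

theorem coeff_atInfinity (g M : ℕ) (f : k[X][X]) (i : ℕ) : (atInfinity g M f).coeff i =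
    if i = 2 * g + 1 then 1 else if i ≤ 2 * g then (f.coeff i).coeff (M * (2 * g + 1 - i)) else 0 := by
  unfold atInfinity
  rw [coeff_add, coeff_X_pow, finset_sum_coeff]
  simp only [coeff_C_mul, coeff_X_pow]
  by_cases h1 : i = 2 * g + 1
  · rw [if_pos h1, if_pos h1, Finset.sum_eq_zero, add_zero]
    intro j hj
    rw [if_neg (by have := Finset.mem_range.1 hj; omega), mul_zero]
  · rw [if_neg h1, if_neg h1, zero_add]
    by_cases h2 : i ≤ 2 * g
    · rw [if_pos h2, Finset.sum_eq_single i]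
      · rw [if_pos rfl, mul_one]
      · intro j _ hj
        rw [if_neg (Ne.symm hj), mul_zero]
      · intro hi
        exact absurd (Finset.mem_range.2 (by omega)) hi
    · rw [if_neg h2, Finset.sum_eq_zero]
      intro j hj
      rw [if_neg (by have := Finset.mem_range.1 hj; omega), mul_zero]

theorem InFamily.fm [Finite k] {g N : ℕ} {f : k[X][X]} (h : InFamily g N f) (hg : 1 ≤ g)
    (hN : 1 ≤ N) (h2 : (2 : k) ≠ 0) : Run7.h784.TG.Fm g N (atInfinity g (2 * N) f) f := by
  have hd : (atInfinity g (2 * N) f).natDegree = 2 * g + 1 := by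
    refine natDegree_eq_of_le_of_coeff_ne_zero (natDegree_le_iff_coeff_eq_zero.2 fun i hi => ?_) ?_
    · rw [coeff_atInfinity, if_neg (by omega), if_neg (by omega)]
    · rw [coeff_atInfinity, if_pos rfl]
      exact one_ne_zero
  refine ⟨hg, hN, h2, ⟨?_, h.inert, hd, ?_⟩, ⟨⟨h.monic, h.degree, h.trace, h.height⟩, ?_, ?_,
    h.squarefree⟩⟩
  · rw [Monic, leadingCoeff, hd, coeff_atInfinity, if_pos rfl]
  · rw [coeff_atInfinity, if_neg (by omega), if_pos le_rfl, h.trace, coeff_zero]
  · intro j hj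
    rw [coeff_atInfinity, if_neg (by omega), if_pos hj]
  · intro Q hQ
    exact absurd hQ (Finset.notMem_empty Q)

theorem InFamily.of_fm {g N : ℕ} {r : k[X]} {f : k[X][X]} (hr : Pool.Agent.N352.PJ.GoodR g r)
    {S : Finset k[X]} {h : k[X] → k[X][X]} (hf : Pool.Agent.N352.PJ.Fam g N r S h f) :
    InFamily g N f := by
  have h1 : atInfinity g (2 * N) f = r := by
    ext i
    rw [coeff_atInfinity]
    by_cases h1 : i = 2 * g + 1
    · rw [if_pos h1, h1]
      have h3 := hr.1.coeff_natDegree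
      rw [hr.2.2.1] at h3
      exact h3.symm
    · rw [if_neg h1]
      by_cases h2 : i ≤ 2 * g
      · rw [if_pos h2, hf.inf i h2]
      · rw [if_neg h2, coeff_eq_zero_of_natDegree_lt (by rw [hr.2.2.1]; omega)]
  exact ⟨⟨hf.ht.mon, hf.ht.deg, hf.ht.tr, hf.ht.ht⟩, by rw [h1]; exact hr.2.1, hf.sq⟩

theorem prob_eq (d : ℕ) : prob d = Run7.h286.PL.wt d / ∑' i, Run7.h286.PL.wt i := by
  rw [prob, Run7.h160.PL.num.2.2.1.tprod_eq, mul_comm, div_eq_mul_inv]
  rfl

theorem Lw_eq (φ : ℕ → ℝ) : Run7.h286.PL.Lw φ = ∑' d, prob d * φ d := by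
  rw [Run7.h286.PL.Lw, ← tsum_div_const]
  refine tsum_congr fun d => ?_
  rw [prob_eq]
  ring

end lemmas

section main

variable {k : Type} [Field k] [Finite k] (K : Type) [Field K] [Algebra k[X] K]
  [IsFractionRing k[X] K]

/-- Properties of one twist. -/
theorem one {g N : ℕ} {r : k[X]} {f : k[X][X]} (hf : Run7.h784.TG.Fm g N r f) {u : k} (hu : u ≠ 0)
    {m : ℕ} {D : k[X]} (hD : D ∈ Twists g f u m) :
    Nat.card (Selmer k (twist K f D)) = 2 ^ Run7.h286.PL.rkJ K (f.scaleRoots D) ∧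
    selmerRank k (twist K f D) = Run7.h286.PL.rkJ K (f.scaleRoots D) ∧
    Meaning k (twist K f D) := by
  obtain ⟨h1, h2⟩ := Run7.h286.SelDef.one_tw hf K hu hD
  exact ⟨by rw [← h1]; exact h2.order, h1, h2⟩

theorem mean {g N : ℕ} {r : k[X]} {f : k[X][X]}
    (hf : Run7.h784.TG.Fm g N r f) {u : k} (hu : u ≠ 0) (φ : ℕ → ℝ)
    (hφ : ∃ C y : ℝ, ∀ d, |φ d| ≤ C * y ^ d) :
    Tendsto (fun m => (∑ᶠ D ∈ Twists g f u m, φ (selmerRank k (twist K f D))) /
      ((Twists g f u m).ncard : ℝ)) atTop (𝓝 (∑' d, prob d * φ d)) := by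
  rw [← Lw_eq]
  refine (Run7.h286.PL.mean_tw Run7.h286.PL.fMOM hf K hu φ hφ).congr fun m => ?_
  congr 1
  refine finsum_mem_congr rfl fun D hD => ?_
  rw [(one K hf hu hD).2.1]

theorem law {g N : ℕ} {r : k[X]} {f : k[X][X]}
    (hf : Run7.h784.TG.Fm g N r f) {u : k} (hu : u ≠ 0) (d : ℕ) :
    Tendsto (fun m => (({D ∈ Twists g f u m | Nat.card (Selmer k (twist K f D)) = 2 ^ d} :
      Set k[X]).ncard : ℝ) / ((Twists g f u m).ncard : ℝ)) atTop (𝓝 (prob d)) := by
  rw [prob_eq]
  refine (Run7.h286.PL.prop_tw Run7.h286.PL.fINL hf K hu d).congr fun m => ?_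
  have h : ({D ∈ Twists g f u m | Nat.card (Selmer k (twist K f D)) = 2 ^ d} : Set k[X]) =
      {D ∈ Run7.h286.PL.Twu g f u m | Run7.h286.PL.rkJ K (f.scaleRoots D) = d} := by
    ext D
    refine ⟨fun hD => ⟨hD.1, ?_⟩, fun hD => ⟨hD.1, ?_⟩⟩
    · have h1 := (one K hf hu hD.1).1
      have h2 := hD.2
      rw [h1] at h2
      exact Nat.pow_right_injective le_rfl h2
    · rw [(one K hf hu hD.1).1, hD.2]
  rw [h]
  rfl

theorem moment {g N : ℕ} {r : k[X]} {f : k[X][X]}
    (hf : Run7.h784.TG.Fm g N r f) {u : k} (hu : u ≠ 0) (j : ℕ) :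
    Tendsto (fun m => (∑ᶠ D ∈ Twists g f u m, (Nat.card (Selmer k (twist K f D)) : ℝ) ^ j) /
      ((Twists g f u m).ncard : ℝ)) atTop (𝓝 (∏ i ∈ Finset.Icc 1 j, (1 + (2 : ℝ) ^ i))) := by
  rw [← Run7.h547.PL.qid.2.1 j, Lw_eq]
  refine (mean K hf hu (fun d => ((2 : ℝ) ^ j) ^ d) ⟨1, 2 ^ j, fun d => ?_⟩).congr fun m => ?_
  · rw [one_mul, abs_of_nonneg (by positivity)]
  · congr 1
    refine finsum_mem_congr rfl fun D hD => ?_
    obtain ⟨h1, h2, -⟩ := one K hf hu hD
    rw [h1, h2]
    push_cast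
    rw [← pow_mul, ← pow_mul, mul_comm]

end main

/-- The values of the law. -/
theorem values : Values := by
  obtain ⟨n1, n2, n3, n4, n5⟩ := Run7.h160.PL.num
  obtain ⟨q1, q2, q3, q4, q5⟩ := Run7.h547.PL.qid
  have hZ := abs_lt.1 n4
  have hZ0 : 0 < ∑' i, Run7.h286.PL.wt i := by linarith
  have hw0 : Run7.h286.PL.wt 0 = 1 := by simp [Run7.h286.PL.wt]
  have hw1 : Run7.h286.PL.wt 1 = 2 := by norm_num [Run7.h286.PL.wt]
  have hLd := Lw_eq fun d => (d : ℝ)
  have hLm := Lw_eq fun d => (-1 : ℝ) ^ d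
  refine ⟨?_, ?_, ?_, ?_, ?_, ?_⟩
  · have h1 := n2.hasSum.div_const (∑' i, Run7.h286.PL.wt i)
    rw [div_self hZ0.ne'] at h1
    have h7 : prob = fun d => Run7.h286.PL.wt d / ∑' i, Run7.h286.PL.wt i := funext prob_eq
    rw [h7]
    exact h1
  · rw [prob_eq, hw0, lt_div_iff₀ hZ0]
    linarith
  · rw [prob_eq, prob_eq, hw0, hw1, ← add_div, lt_div_iff₀ hZ0]
    linarith
  · rw [← hLd]
    exact q4
  · rw [← hLd]
    linarith [(abs_lt.1 q5).2]
  · rw [← hLm]
    exact q3

/-- Let `k` be a finite field of odd characteristic, `K = k(t)`, `g ≥ 1`, `f` in the family (monic of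
degree `2 g + 1` over `k[t]`, `f_{2 g} = 0`, `deg f_j ≤ 2 N (2 g + 1 - j)`, `N ≥ 1`, squarefree discriminant,
irreducible reduction at infinity), `u ≠ 0` in `k`, and let `D` run through the squarefree polynomials
of degree `m` with leading coefficient `u`, prime to the discriminant, `m → ∞`.
(1) The proportion of the `D` for which the 2-Selmer group of the Jacobian `J_D` of `D y ^ 2 = f(x)` has
order `2 ^ d` tends to `prob d`. (2) The average of the `j`-th power of the order tends to
`(1 + 2) ... (1 + 2 ^ j)`. (3) The average of `φ(dimension)` tends to `∑ prob d φ(d)` for all `φ` of at most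
exponential growth. (4) For every `D` the order is a power of two, `J_D(K)` has no 2-torsion,
`|Sel| = [J_D(K) : 2 J_D(K)] |Sha[2]|`, and if the Selmer group is trivial, then `J_D(K)` is uniquely
divisible by two and the 2-primary part of the Tate-Shafarevich group is zero.
(5) Values: the sum of the `prob d` is `1`, `prob 0 > 0.2097`, `prob 0 + prob 1 > 0.629`; the mean is
`∑ 1 / (2 ^ j + 1) < 1.2646`; the even dimensions have probability one half.
(6) If the characteristic is larger than `2 g + 1`, a positive proportion of all `f` with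
`deg f_j ≤ 2 N (2 g + 1 - j)` belongs to the family. -/
theorem main (g : ℕ) (hg : 1 ≤ g) (k : Type) [Field k] [Finite k]
    (h2 : (2 : k) ≠ 0) (K : Type) [Field K] [Algebra k[X] K] [IsFractionRing k[X] K] :
    (∀ (N : ℕ) (f : k[X][X]) (u : k), 1 ≤ N → InFamily g N f → u ≠ 0 → ExactLaw K g f u) ∧
    Values ∧ (((2 * g + 1).factorial : k) ≠ 0 → PositiveProportion g k) := by
  refine ⟨fun N f u hN hf hu => ?_, values, fun hp => ?_⟩
  · have hF := hf.fm hg hN h2
    refine ⟨law K hF hu, moment K hF hu, fun φ hφ => mean K hF hu φ hφ,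
      fun m D hD => (one K hF hu hD).2.2, ?_⟩
    have h0 : (0.2097 : ℝ) < prob 0 := values.zero
    have hl := (law K hF hu 0).eventually (eventually_gt_nhds h0)
    filter_upwards [hl] with m hm
    have hpos : 0 < ((Twists g f u m).ncard : ℝ) := by
      by_contra h
      have h1 : ((Twists g f u m).ncard : ℝ) = 0 := le_antisymm (not_lt.1 h) (by positivity)
      rw [h1, div_zero] at hm
      norm_num at hm
    have hfin : (Twists g f u m).Finite := Set.finite_of_ncard_pos (by exact_mod_cast hpos)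
    rw [lt_div_iff₀ hpos] at hm
    refine hm.le.trans ?_
    have hsub : ({D ∈ Twists g f u m | Nat.card (Selmer k (twist K f D)) = 2 ^ 0} : Set k[X]) ⊆
        {D ∈ Twists g f u m | UniquelyDivisible 2 (J 2 (twist K f D) K) ∧
          ShaTrivial 2 (twist K f D) k[X]} := fun D hD =>
      ⟨hD.1, (one K hF hu hD.1).2.2.divisible (by simpa using hD.2),
        (one K hF hu hD.1).2.2.sha (by simpa using hD.2)⟩
    exact_mod_cast Set.ncard_le_ncard hsub (hfin.subset fun D hD => hD.1)
  · obtain ⟨r, hr⟩ := Pool.Agent.N738.PJ.gr g k hp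
    obtain ⟨c, hc, h⟩ := Pool.Agent.N615.JM.fam g k hg hp r hr
    obtain ⟨N₀, hN₀⟩ := h ∅ (fun _ => 0) (fun Q hQ => absurd hQ (Finset.notMem_empty Q))
    have hq : (0 : ℝ) < Nat.card k := by exact_mod_cast Nat.card_pos
    refine ⟨c / (Nat.card k : ℝ) ^ (2 * g), by positivity, ?_⟩
    filter_upwards [eventually_ge_atTop N₀] with N hN
    have h1 := hN₀ N hN
    rw [Finset.prod_empty, Nat.cast_one, one_mul] at h1
    have hset : {f : k[X][X] | HasHeight g (2 * N) f} =
        {f : k[X][X] | Pool.Agent.N352.PJ.Ht g (2 * N) f} :=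
      Set.ext fun f => ⟨fun h => ⟨h.monic, h.degree, h.trace, h.height⟩,
        fun h => ⟨h.mon, h.deg, h.tr, h.ht⟩⟩
    obtain ⟨hfin, hle⟩ := Pool.Agent.N415.PJMAIN.ht_card (k := k) g (2 * N)
    have hsub : {f : k[X][X] | Pool.Agent.N352.PJ.Fam g N r ∅ (fun _ => 0) f} ⊆
        {f : k[X][X] | InFamily g N f} := fun f hf => InFamily.of_fm hr hf
    have hsub2 : {f : k[X][X] | InFamily g N f} ⊆ {f : k[X][X] | Pool.Agent.N352.PJ.Ht g (2 * N) f} :=
      fun f hf => ⟨hf.monic, hf.degree, hf.trace, hf.height⟩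
    have h2 := Set.ncard_le_ncard hsub (hfin.subset hsub2)
    have h3 := Set.ncard_le_ncard hsub2 hfin
    rw [hset]
    have h4 : (0 : ℝ) < c * (Nat.card k : ℝ) ^ (2 * N * Pool.Agent.N352.PJ.dd g) := by positivity
    have h5 : (({f : k[X][X] | Pool.Agent.N352.PJ.Fam g N r ∅ (fun _ => 0) f}.ncard : ℕ) : ℝ) ≤
        ({f : k[X][X] | InFamily g N f}.ncard : ℝ) := by exact_mod_cast h2
    refine ⟨?_, ?_⟩
    · have h6 : (0 : ℝ) < ({f : k[X][X] | InFamily g N f}.ncard : ℝ) := by linarith
      have h7 : 0 < {f : k[X][X] | InFamily g N f}.ncard := by exact_mod_cast h6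
      omega
    · refine le_trans ?_ (h1.trans h5)
      have h8 : ({f : k[X][X] | Pool.Agent.N352.PJ.Ht g (2 * N) f}.ncard : ℝ) ≤
          (Nat.card k : ℝ) ^ (2 * N * Pool.Agent.N352.PJ.dd g + 2 * g) := by exact_mod_cast hle
      refine (mul_le_mul_of_nonneg_left h8 (by positivity)).trans (le_of_eq ?_)
      rw [pow_add]
      field_simp

end Run7.h286.SurfLaw
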